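import Pool.Agent.P.MP_b8021b_nt.BS.CF.Bund

/-! Nonvanishing for real characters. -/

namespace Pool.Agent.P.MP_b8021b_nt.BS.CF

open NumberField IsDedekindDomain Polynomial Finset WithZero
open Pool.Agent.P.MP_b8021b_nt Pool.Agent.P.MP_b8021b_nt.VE Pool.Agent.P.MP_b8021b_nt.VC
open scoped Classical

namespace NV2P

theorem low {a : ℕ → ℝ} {A : ℝ} (hA : ∀ q : ℕ, q.Prime → |a q| ≤ A) {m : ℕ} (hm : m ≠ 0)
    (h : ∀ q : ℕ, q.Prime → ¬ q ∣ m → 0 ≤ a q) : ∃ D : ℝ, ∀ s : ℝ, 1 < s → -D ≤ DS.ds a s := by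
  let T : Finset Nat.Primes := (Finset.range (m + 1)).subtype Nat.Prime
  refine ⟨A * T.card, fun s hs => ?_⟩
  have hA0 : 0 ≤ A := (abs_nonneg _).trans (hA 2 Nat.prime_two)
  have hsum := DS.summable_ds hA hs
  unfold DS.ds
  rw [← hsum.sum_add_tsum_compl (s := T)]
  have h1 : -(A * T.card) ≤ ∑ q ∈ T, a q * (q : ℝ) ^ (-s) := by
    have : ∑ _q ∈ T, -A ≤ ∑ q ∈ T, a q * (q : ℝ) ^ (-s) := by
      refine Finset.sum_le_sum fun q _ => ?_
      have h0 : (0 : ℝ) ≤ ((q : ℕ) : ℝ) ^ (-s) := by positivity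
      have h1 : ((q : ℕ) : ℝ) ^ (-s) ≤ 1 :=
        Real.rpow_le_one_of_one_le_of_nonpos (by exact_mod_cast q.2.one_lt.le) (by linarith)
      have h2 := (abs_le.1 (hA q q.2)).1
      nlinarith
    simpa [mul_comm] using this
  have h2 : 0 ≤ ∑' q : ((T : Set Nat.Primes)ᶜ : Set Nat.Primes),
      a (q : Nat.Primes) * ((q : Nat.Primes) : ℝ) ^ (-s) := by
    refine tsum_nonneg fun q => mul_nonneg (h _ q.1.2 fun hd => q.2 ?_) (by positivity)
    have := Nat.le_of_dvd (Nat.pos_of_ne_zero hm) hd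
    exact Finset.mem_coe.2 (Finset.mem_subtype.2 (Finset.mem_range.2 (Nat.lt_succ_of_le this)))
  linarith

theorem cmp {a b : ℕ → ℝ} {A B : ℝ} (hA : ∀ q : ℕ, q.Prime → |a q| ≤ A)
    (hB : ∀ q : ℕ, q.Prime → |b q| ≤ B) {m : ℕ} (hm : m ≠ 0)
    (h : ∀ q : ℕ, q.Prime → ¬ q ∣ m → a q = b q) :
    ∃ D : ℝ, ∀ s : ℝ, 1 < s → DS.ds b s - D ≤ DS.ds a s := by
  obtain ⟨D, hD⟩ := low (a := fun q => a q - b q) (A := A + B)
    (fun q hq => (abs_sub _ _).trans (add_le_add (hA q hq) (hB q hq))) hm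
    fun q hq hd => by rw [h q hq hd, sub_self]
  refine ⟨D, fun s hs => ?_⟩
  have e : DS.ds (fun q => a q - b q) s = DS.ds a s - DS.ds b s := by
    unfold DS.ds
    rw [← (DS.summable_ds hA hs).tsum_sub (DS.summable_ds hB hs)]
    simp only [sub_mul]
  have := hD s hs
  linarith

variable {L : Type} [Field L] [NumberField L]

/-- an element that is congruent to one up to a square is a local square -/
theorem lp_of_one {n k : ℕ} (h2 : 2 ∣ n) (hk : 3 ≤ k) {b z : L} (hz : z ≠ 0)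
    (h : One (n ^ k) (b * z ^ 2)) {v : Pl L} (hv : Dv n v) : LP 2 v b := by
  have h1 := One.near v h ((dv_pow v (by omega)).2 hv)
  have h3 : vl v n ≤ vl v (2 : ℕ) := by
    obtain ⟨c, rfl⟩ := h2
    rw [Nat.cast_mul, map_mul]
    exact mul_le_of_le_one_right' (vl_nat_le v c)
  have h4 : vl v n < 1 := (vl_nat_lt v).2 hv
  have h5 : 0 < vl v ((2 : ℕ) : L) ^ 2 := pow_pos (vl_pos v (Nat.cast_ne_zero.2 two_ne_zero)) 2
  have h6 : vl v ((n ^ k : ℕ) : L) < vl v ((2 : ℕ) : L) ^ 2 := by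
    rw [Nat.cast_pow, map_pow]
    calc vl v n ^ k ≤ vl v n ^ 3 := pow_le_pow_right_of_le_one' h4.le hk
      _ = vl v n ^ 2 * vl v n := pow_succ _ 2
      _ ≤ vl v ((2 : ℕ) : L) ^ 2 * vl v n := mul_le_mul_left (pow_le_pow_left' h3 2) _
      _ < vl v ((2 : ℕ) : L) ^ 2 := mul_lt_of_lt_one_right h5 h4
  have h7 := (LP.of_near (h1.trans_lt h6)).div (LP.pow_self v two_ne_zero hz)
  rwa [mul_div_cancel_right₀ _ (pow_ne_zero 2 hz)] at h7

/-- an element that is a square at the places over `n` and a unit elsewhere is a square -/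
theorem sq_of_lp (h : T2) (hL : Om L) {n : ℕ} (hn : 2 ≤ n) (h2 : 2 ∣ n) (hG : Gen L n) {b : L}
    (hb : b ≠ 0) (h0 : ∀ v, ¬ Dv n v → od v b = 0) (h1 : ∀ v, Dv n v → LP 2 v b) :
    ∃ z : L, b = z ^ 2 := by
  by_contra hs
  obtain ⟨v₀, -, a1, a2⟩ := h.c1 L 2 n b hL (Or.inl rfl) (by omega) hs
  obtain ⟨c, c0, c1, c2⟩ := hG v₀ a1
  have := h.wr L 2 n b c v₀ hL (Or.inl rfl) hn h2 hb c0 a1
    (fun v hv => by rw [h0 v hv]; exact dvd_zero _) a2 fun v hv => by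
      by_cases hd : Dv n v
      · exact Or.inl (LN.of_left h.hen (Or.inl rfl) c0 (h1 v hd))
      · refine Or.inr ⟨fun e => hd (e.of_dvd h2), ?_, ?_⟩
        · rw [h0 v hd]; exact dvd_zero _
        · rw [c2 v hv hd]; exact dvd_zero _
  rw [c1] at this
  norm_num at this

end NV2P

open NV2P

theorem p_nv2 (h : T2) (hE : Z_ES2) (hX : Z_X2) (hC : Z_Chi) : Z_NV2 := by
  intro L _ _ n χ hL hn hχ hnt hsq
  obtain ⟨m, m0, hm, hG⟩ := (h.es L).1 (2 * n) (by omega)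
  have m2 : 2 ∣ m := (dvd_mul_right 2 n).trans hm
  have mn : n ∣ m := (dvd_mul_left n 2).trans hm
  have m3 : 2 ≤ m := Nat.le_of_dvd (Nat.pos_of_ne_zero m0) m2
  obtain ⟨Y, Yc, Yu, Yi⟩ := hE L m hL m0
  have ex : ∀ y : L, ∃ (j : ℕ) (ξ : Ideal (𝓞 L) →* ℂ), y ∈ Y → 1 ≤ j ∧ RC (m ^ j) ξ ∧
      (∀ v, ¬ Dv m v → ξ v.asIdeal = if LP 2 v y then 1 else -1) ∧
      ((¬ ∃ z : L, y = z ^ 2) → ∃ C : ℝ, ∀ s : ℝ, 1 < s → s ≤ 2 → -C ≤ dsum (lam ξ) s) := by
    intro y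
    by_cases hy : y ∈ Y
    · obtain ⟨j, ξ, e⟩ := hC L m y hL m3 m2 (Yu y hy).1 fun v hv => by
        rw [(Yu y hy).2 v hv]; exact dvd_zero _
      exact ⟨j, ξ, fun _ => e⟩
    · exact ⟨0, 1, fun e => absurd e hy⟩
  choose j ξ hξ using ex
  obtain ⟨k, k3, kj⟩ : ∃ k : ℕ, 3 ≤ k ∧ ∀ y ∈ Y, j y ≤ k :=
    ⟨3 + Y.sup j, by omega, fun y hy => (Finset.le_sup hy).trans (by omega)⟩
  have hd : ∀ v : Pl L, Dv (m ^ k) v ↔ Dv m v := fun v => dv_pow v (by omega)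
  have mN : m ∣ m ^ k := dvd_pow_self m (by omega)
  have N0 : m ^ k ≠ 0 := pow_ne_zero k m0
  have N2 : 2 ≤ m ^ k := m3.trans (Nat.le_of_dvd (Nat.pos_of_ne_zero N0) mN)
  have hG' : Gen L (m ^ k) := fun v₀ hv => by
    obtain ⟨x, x0, x1, x2⟩ := hG v₀ fun e => hv ((hd v₀).2 e)
    exact ⟨x, x0, x1, fun v a b => x2 v a fun e => b ((hd v).2 e)⟩
  have hP : nPl L (m ^ k) = nPl L m := by
    unfold nPl
    exact congrArg Set.ncard (Set.ext hd)
  have val : ∀ y ∈ Y, ∀ v : Pl L, ¬ Dv m v →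
      (ξ y * triv L (m ^ k)) v.asIdeal = if LP 2 v y then 1 else -1 := fun y hy v hv => by
    rw [MonoidHom.mul_apply, triv_cop ((cop_prime_iff v).2 fun e => hv ((hd v).1 e)), mul_one]
    exact (hξ y hy).2.2.1 v hv
  have od0 : ∀ y ∈ Y, ∀ y' ∈ Y, ∀ v : Pl L, ¬ Dv m v → od v (y * y') = 0 := fun y hy y' hy' v hv => by
    rw [od_mul v (Yu y hy).1 (Yu y' hy').1, (Yu y hy).2 v hv, (Yu y' hy').2 v hv, add_zero]
  have inj : Set.InjOn (fun y => ξ y * triv L (m ^ k)) Y := by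
    intro y hy y' hy' e
    refine Yi y hy y' hy' ?_
    by_contra hs
    obtain ⟨v, -, a1, a2⟩ := h.c1 L 2 m (y * y') hL (Or.inl rfl) m0 hs
    have e1 := val y hy v a1
    have e2 := val y' hy' v a1
    have e3 : (ξ y * triv L (m ^ k)) v.asIdeal = (ξ y' * triv L (m ^ k)) v.asIdeal :=
      congrArg (fun f : Ideal (𝓞 L) →* ℂ => f v.asIdeal) e
    rw [e1, e2] at e3
    by_cases b1 : LP 2 v y <;> by_cases b2 : LP 2 v y'
    · exact a2 (b1.mul b2)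
    · rw [if_pos b1, if_neg b2] at e3
      norm_num at e3
    · rw [if_neg b1, if_pos b2] at e3
      norm_num at e3
    · refine a2 ((h.res L v).2.2 y y' (fun e => a1 (e.of_dvd m2)) (Yu y hy).1 (Yu y' hy').1
        ?_ ?_ b1 b2)
      · rw [(Yu y hy).2 v a1]; exact dvd_zero _
      · rw [(Yu y' hy').2 v a1]; exact dvd_zero _
  have cd := hX L (m ^ k) (insert (χ * triv L (m ^ k)) (Y.image fun y => ξ y * triv L (m ^ k))) Y
    N2 (m2.trans mN) hG' (fun ψ hψ => by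
      rcases mem_insert.1 hψ with rfl | hψ
      · refine ⟨hχ.mono (mn.trans mN), fun I c => ?_⟩
        rw [MonoidHom.mul_apply, triv_cop c, mul_one]
        exact hsq I (Cop_of_dvd c (mn.trans mN))
      · obtain ⟨y, hy, rfl⟩ := mem_image.1 hψ
        refine ⟨(hξ y hy).2.1.mono (pow_dvd_pow m (kj y hy)), ?_⟩
        refine cop_induction N2 ?_ fun v I hv _ ih => ?_
        · rw [← Ideal.one_eq_top, map_one, one_pow]
        · rw [map_mul, mul_pow, ih, mul_one, val y hy v fun e => hv ((hd v).2 e)]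
          split_ifs <;> norm_num)
    (fun y hy => ⟨(Yu y hy).1, fun v hv => (Yu y hy).2 v fun e => hv ((hd v).2 e)⟩)
    (fun y hy y' hy' ⟨z, z0, z1⟩ => Yi y hy y' hy' (sq_of_lp h hL m3 m2 hG
      (mul_ne_zero (Yu y hy).1 (Yu y' hy').1) (od0 y hy y' hy') fun v hv =>
        lp_of_one m2 k3 z0 z1 hv))
  have mem : χ * triv L (m ^ k) ∈ Y.image fun y => ξ y * triv L (m ^ k) := by
    by_contra hc
    obtain ⟨d, hd2⟩ := (h.pos L hL).1
    rw [card_insert_of_notMem hc, card_image_of_injOn inj, Yc, hP, hd2,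
      Nat.mul_div_cancel_left d two_pos, show 2 * nPl L m + 2 * d = (nPl L m + d) + (nPl L m + d) by
        ring, pow_add 2 (nPl L m + d)] at cd
    have := Nat.le_of_mul_le_mul_right cd (by positivity)
    omega
  obtain ⟨y, hy, e⟩ := mem_image.1 mem
  have ev : ∀ I, Cop (m ^ k) I → χ I = ξ y I := fun I c => by
    have e3 : (ξ y * triv L (m ^ k)) I = (χ * triv L (m ^ k)) I :=
      congrArg (fun f : Ideal (𝓞 L) →* ℂ => f I) e
    rw [MonoidHom.mul_apply, MonoidHom.mul_apply, triv_cop c, mul_one, mul_one] at e3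
    exact e3.symm
  have ns : ¬ ∃ z : L, y = z ^ 2 := by
    rintro ⟨z, hz⟩
    have z0 : z ≠ 0 := fun e => (Yu y hy).1 (by rw [hz, e, zero_pow two_ne_zero])
    refine hnt (h.i.tr L hL n (m ^ k) χ hn N0 hχ fun I hI hI' => ?_)
    obtain ⟨v, rfl⟩ := exists_pl hI
    have hv : ¬ Dv (m ^ k) v := fun e => hI' ((dv_iff_of_prime hI).1 e)
    rw [ev _ ((cop_prime_iff v).2 hv), (hξ y hy).2.2.1 v fun e => hv ((hd v).2 e),
      if_pos (hz ▸ LP.pow_self v two_ne_zero z0)]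
  obtain ⟨C, hC'⟩ := (hξ y hy).2.2.2 ns
  obtain ⟨A, hA⟩ := DS.re_bdd h.i.hl hχ.toIsChar
  obtain ⟨B, hB⟩ := DS.re_bdd h.i.hl (hξ y hy).2.1.toIsChar
  obtain ⟨D, hD⟩ := cmp hA hB N0 fun q hq hq' => congrArg Complex.re (lam_congr fun I hI =>
    ev I (cop_iff_coprime.2 (by rw [hI]; exact (Nat.Prime.coprime_iff_not_dvd hq).2 hq')))
  refine ⟨C + D, fun s h1 h2 => ?_⟩
  have a1 : -C ≤ DS.ds (fun q => (lam (ξ y) q).re) s := hC' s h1 h2
  have a2 := hD s h1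
  change _ ≤ DS.ds (fun q => (lam χ q).re) s
  linarith

end Pool.Agent.P.MP_b8021b_nt.BS.CF
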