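import Pool.Agent.P.MP_b8021b_nt.BS.CF.Bund

/-! The crossing with a cyclotomic extension. -/

namespace Pool.Agent.P.MP_b8021b_nt.BS.CF

open NumberField IsDedekindDomain Polynomial Finset WithZero
open Pool.Agent.P.MP_b8021b_nt Pool.Agent.P.MP_b8021b_nt.VE Pool.Agent.P.MP_b8021b_nt.VC
open scoped Classical

namespace AR1P

theorem tower (L E F : Type) [Field L] [NumberField L] [Field E] [NumberField E] [Field F]
    [NumberField F] [Algebra L E] [Algebra E F] [Algebra L F] [IsScalarTower L E F]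
    (A : Ideal (𝓞 F)) :
    Ideal.relNorm (𝓞 L) (Ideal.relNorm (𝓞 E) A) = Ideal.relNorm (𝓞 L) A :=
  Ideal.relNorm_relNorm (𝓞 L) (𝓞 E) A

/-- a Dirichlet character composed with the norm -/
noncomputable def dn (E : Type) [Field E] [NumberField E] {n : ℕ} (ψ : DirichletCharacter ℂ n) :
    Ideal (𝓞 E) →* ℂ where
  toFun I := ψ (Ideal.absNorm I : ZMod n)
  map_one' := by rw [map_one, Nat.cast_one, map_one]
  map_mul' I J := by rw [map_mul, Nat.cast_mul, map_mul]

theorem dn_apply (E : Type) [Field E] [NumberField E] {n : ℕ} (ψ : DirichletCharacter ℂ n)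
    (I : Ideal (𝓞 E)) : dn E ψ I = ψ (Ideal.absNorm I : ZMod n) := rfl

theorem dn_one {E : Type} [Field E] [NumberField E] {n : ℕ} (ψ : DirichletCharacter ℂ n)
    {I : Ideal (𝓞 E)} (h : Ideal.absNorm I ≡ 1 [MOD n]) : dn E ψ I = 1 := by
  rw [dn_apply, (ZMod.natCast_eq_natCast_iff _ _ _).2 h, Nat.cast_one, map_one]

/-- the counting of characters -/
theorem chars (h : T1) (L M E F : Type) [Field L] [NumberField L] [Field M] [NumberField M]
    [Field E] [NumberField E] [Field F] [NumberField F] [Algebra L M] [Algebra L E] [Algebra E F]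
    [Algebra M F] [Algebra L F] [IsScalarTower L E F] [IsScalarTower L M F] (N n r : ℕ)
    (χ : Ideal (𝓞 L) →* ℂ) (hL : Om L) (hN : 2 ≤ N) (hn : 2 ≤ n) (hχ : RC N χ)
    (hM : IsTriv N (nrm M χ)) (ζ : F) (hζ : IsPrimitiveRoot ζ n) (w : Pl E)
    (hw : Cop (N * n) w.asIdeal) (h1 : nrm E χ w.asIdeal = 1) (ψ : DirichletCharacter ℂ n)
    (hψ : IsPrimitiveRoot (dn E ψ w.asIdeal) r) (hr : Module.finrank E F ≤ r) :
    IsTriv (N * n) (nrm E χ) := by
  have hE : Om E := hL.map (algebraMap L E)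
  have hF : Om F := hL.map (algebraMap L F)
  have hN' : 2 ≤ N * n := by nlinarith
  have : NeZero n := ⟨by omega⟩
  let ξ : ℕ → Ideal (𝓞 E) →* ℂ := fun k => dn E ψ ^ k * triv E (N * n)
  have hξ : ∀ k I, Cop (N * n) I → ξ k I = dn E ψ I ^ k := fun k I c => by
    simp only [ξ, MonoidHom.mul_apply, MonoidHom.pow_apply, triv_cop c, mul_one]
  have a1 : ∀ k, RC (N * n) (ξ k) ∧ IsTriv (N * n) (nrm F (ξ k)) := fun k => by
    refine ⟨⟨⟨fun I c => ?_, fun I c => ?_⟩, fun α e => ?_⟩, fun A c => ?_⟩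
    · have := ψ.unit_norm_eq_one (ZMod.unitOfCoprime _ (cop_iff_coprime.1 (cop_mul_nat.1 c).2))
      rw [ZMod.coe_unitOfCoprime] at this
      rw [hξ k I c, norm_pow, dn_apply, this, one_pow]
    · simp only [ξ, MonoidHom.mul_apply, triv_not c, mul_zero]
    · rw [hξ k _ (cop_span_of_dvd e), dn_one ψ (((h.pos E hE).2.2.2.1 _ α e).of_mul_left N),
        one_pow]
    · rw [nrm_apply, hξ k _ (cop_rel.2 c), dn_one ψ, one_pow]
      rw [absNorm_rel]
      exact (h.pos F hF).2.2.2.2 n ζ A hn hζ (cop_mul_nat.1 c).2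
  let χ' : Ideal (𝓞 E) →* ℂ := nrm E χ * triv E (N * n)
  have hχ' : ∀ I, Cop (N * n) I → χ' I = nrm E χ I := fun I c => by
    simp only [χ', MonoidHom.mul_apply, triv_cop c, mul_one]
  have a2 : RC (N * n) χ' ∧ IsTriv (N * n) (nrm F χ') := by
    refine ⟨((h.i.bc L hL N χ hN hχ).2.2.2 E).mono (dvd_mul_right N n), fun A c => ?_⟩
    rw [nrm_apply, hχ' _ (cop_rel.2 c), nrm_apply, tower L E F, ← tower L M F, ← nrm_apply]
    exact hM _ (cop_rel.2 (cop_mul_nat.1 c).1)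
  have a3 : Set.InjOn ξ (range r : Finset ℕ) := fun i hi j hj e => by
    refine hψ.pow_inj (mem_range.1 hi) (mem_range.1 hj) ?_
    rw [← hξ i _ hw, ← hξ j _ hw, e]
  have a4 : χ' ∈ (range r).image ξ := by
    by_contra c
    have := h.i.sec E F hE (N * n) (insert χ' ((range r).image ξ)) hN' fun x hx => by
      rcases mem_insert.1 hx with rfl | hx
      · exact a2
      · obtain ⟨k, -, rfl⟩ := mem_image.1 hx
        exact a1 k
    rw [card_insert_of_notMem c, card_image_of_injOn a3, card_range] at this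
    omega
  obtain ⟨k, hk, e⟩ := mem_image.1 a4
  have hk' := mem_range.1 hk
  have a5 : k = 0 := hψ.pow_inj hk' (by omega) (by rw [← hξ k _ hw, e, hχ' _ hw, h1, pow_zero])
  intro I c
  rw [← hχ' I c, ← e, hξ k I c, a5, pow_zero]

/-- a power at a place of residue degree one is a local power below -/
theorem lp (h : T1) {L E : Type} [Field L] [NumberField L] [Field E] [NumberField E] [Algebra L E]
    {ℓ : ℕ} (hℓ : El ℓ) {b : L} (hb : b ≠ 0) {v : Pl L} {w : Pl E} (hv : Und v w.asIdeal)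
    (hd : ¬ Dv ℓ v) (ho : (ℓ : ℤ) ∣ od v b)
    (hf : ∀ y : 𝓞 E, ∃ a : 𝓞 L, y - algebraMap (𝓞 L) (𝓞 E) a ∈ w.asIdeal) {z : E}
    (hz : algebraMap L E b = z ^ ℓ) : LP ℓ v b := by
  obtain ⟨v', e, he, hv', hval⟩ := (h.ex L E).1 w
  obtain rfl : v = v' := HeightOneSpectrum.ext (hv.trans hv'.symm)
  obtain ⟨k, hk⟩ := ho
  obtain ⟨π, hπ, hπ'⟩ := exists_od_one v
  have hc : (π : L) ^ k ≠ 0 := zpow_ne_zero _ hπ
  have hc' : algebraMap L E ((π : L) ^ k) ≠ 0 := (_root_.map_ne_zero _).2 hc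
  have b1 : vl v (b / ((π : L) ^ k) ^ ℓ) = 1 := by
    rw [← od_eq_zero_iff v (div_ne_zero hb (pow_ne_zero _ hc)), od_div v hb (pow_ne_zero _ hc),
      od_pow, od_zpow, hπ', hk, mul_one, sub_self]
  have b2 : vl w (z / algebraMap L E ((π : L) ^ k)) = 1 := by
    have := hval (b / ((π : L) ^ k) ^ ℓ)
    rw [b1, one_pow, map_div₀, hz, map_pow, ← div_pow, map_pow] at this
    exact (pow_eq_one_iff_of_nonneg zero_le hℓ.prime.ne_zero).1 this
  obtain ⟨y, hy⟩ := (h.wa E).1 {w} (fun _ => z / algebraMap L E ((π : L) ^ k)) 1 fun u hu => by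
    rw [mem_singleton.1 hu, b2]
  have hy' : vl w (y - z / algebraMap L E ((π : L) ^ k)) < 1 :=
    (vl_lt_one_iff w).2 (by simpa using hy w (mem_singleton_self w))
  obtain ⟨a, ha⟩ := hf y
  have ha' : vl w (y - algebraMap L E a) < 1 := by
    have := (vl_coe_lt w _).2 ha
    rwa [RingOfIntegers.coe_eq_algebraMap, map_sub, ← IsScalarTower.algebraMap_apply,
      IsScalarTower.algebraMap_apply (𝓞 L) L E] at this
  have b3 : vl w (z / algebraMap L E ((π : L) ^ k) - algebraMap L E a) < 1 := by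
    rw [show z / algebraMap L E ((π : L) ^ k) - algebraMap L E a = (y - algebraMap L E a) -
      (y - z / algebraMap L E ((π : L) ^ k)) by ring]
    exact Valuation.map_sub_lt _ ha' hy'
  have b4 : vl w (algebraMap L E a) = 1 := by
    rw [← b2]
    exact Valuation.map_eq_of_sub_lt _ (by rwa [Valuation.map_sub_swap, b2])
  have b5 : algebraMap L E a ≠ 0 := fun c => by simp [c] at b4
  have b6 : vl w (z / algebraMap L E ((π : L) ^ k * a) - 1) < 1 := by
    rw [show z / algebraMap L E ((π : L) ^ k * a) - 1 =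
      (z / algebraMap L E ((π : L) ^ k) - algebraMap L E a) / algebraMap L E a by
        rw [map_mul]; field_simp, map_div₀, b4, div_one]
    exact b3
  have b7 : ∀ j : ℕ, vl w ((z / algebraMap L E ((π : L) ^ k * a)) ^ j - 1) < 1 := fun j => by
    induction j with
    | zero => simp
    | succ j ih => rw [pow_succ]; exact near_mul w le_rfl ih b6
  refine ⟨(π : L) ^ k * a, ?_⟩
  have b8 := b7 ℓ
  rw [div_pow, ← hz, ← map_pow, ← map_div₀, ← map_one (algebraMap L E), ← map_sub, hval] at b8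
  rw [(vl_nat_eq v).2 hd, one_pow]
  exact (pow_lt_one_iff_of_nonneg zero_le (by omega)).1 b8

/-- the size of a residue field -/
theorem card_le {E : Type} [Field E] [NumberField E] (w : Pl E) {q : ℕ} (hq : 1 < q)
    (h : ∀ y : 𝓞 E, y - y ^ q ∈ w.asIdeal) : Ideal.absNorm w.asIdeal ≤ q := by
  have := w.isMaximal
  let _ := Ideal.Quotient.field w.asIdeal
  have : Finite (𝓞 E ⧸ w.asIdeal) := Ideal.finiteQuotientOfFreeOfNeBot _ w.ne_bot
  let _ := Fintype.ofFinite (𝓞 E ⧸ w.asIdeal)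
  rw [Ideal.absNorm_apply, Submodule.cardQuot_apply, Nat.card_eq_fintype_card]
  by_contra c
  refine FiniteField.X_pow_card_sub_X_ne_zero (𝓞 E ⧸ w.asIdeal) hq
    (eq_zero_of_natDegree_lt_card_of_eval_eq_zero _ Function.injective_id (fun x => ?_) ?_)
  · obtain ⟨y, rfl⟩ := Ideal.Quotient.mk_surjective x
    have := Ideal.Quotient.eq.2 (h y)
    rw [map_pow] at this
    simp [← this]
  · rw [FiniteField.X_pow_card_sub_X_natDegree_eq _ hq]
    omega

/-- the order of `q` modulo a high power of `ℓ` -/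
theorem ord {ℓ q : ℕ} (hℓ : ℓ.Prime) (hq : 1 < q) (h : q ≡ 1 [MOD ℓ]) :
    ∃ (n r : ℕ) (ψ : DirichletCharacter ℂ n), 2 ≤ n ∧ 0 < r ∧ ℓ ∣ r ∧ (∃ m, 0 < m ∧ n = ℓ ^ m) ∧
      q ^ r ≡ 1 [MOD n] ∧ IsPrimitiveRoot (ψ (q : ZMod n)) r := by
  have : Fact ℓ.Prime := ⟨hℓ⟩
  have h0 : q < ℓ ^ (q + 1) := (Nat.lt_pow_self hℓ.one_lt).trans_le
    (Nat.pow_le_pow_right hℓ.pos (Nat.le_succ q))
  have : NeZero (ℓ ^ (q + 1)) := ⟨by omega⟩
  have h1 : ∃ i, q ^ ℓ ^ i ≡ 1 [MOD ℓ ^ (q + 1)] := by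
    refine ⟨q, (Nat.modEq_iff_dvd.2 ?_).symm⟩
    have := dvd_sub_pow_of_dvd_sub (R := ℤ) (Nat.modEq_iff_dvd.1 h.symm) q
    push_cast at this ⊢
    rwa [one_pow] at this
  have h2 := Nat.find_spec h1
  have h3 : Nat.find h1 ≠ 0 := fun e => by
    rw [e, pow_zero, pow_one] at h2
    have := h2.eq_of_lt_of_lt h0 (by omega)
    omega
  obtain ⟨i, hi⟩ := Nat.exists_eq_succ_of_ne_zero h3
  have h4 := Nat.find_min h1 (m := i) (by omega)
  rw [hi] at h2
  obtain ⟨ψ, hψ⟩ := DirichletCharacter.exists_apply_ne_one_of_hasEnoughRootsOfUnity ℂ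
    (n := ℓ ^ (q + 1)) (a := (q : ZMod (ℓ ^ (q + 1))) ^ ℓ ^ i) fun e => h4 (by
      rw [← ZMod.natCast_eq_natCast_iff, Nat.cast_pow, e, Nat.cast_one])
  refine ⟨ℓ ^ (q + 1), ℓ ^ (i + 1), ψ, by omega, pow_pos hℓ.pos _, dvd_pow_self _ (by omega),
    ⟨_, by omega, rfl⟩, h2, ?_⟩
  rw [map_pow] at hψ
  rw [← orderOf_eq_prime_pow hψ (by
    rw [← map_pow, ← Nat.cast_pow, (ZMod.natCast_eq_natCast_iff _ _ _).2 h2, Nat.cast_one,
      map_one])]
  exact IsPrimitiveRoot.orderOf _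

/-- the field generated by the roots of `b` and the roots of unity -/
theorem big (L M : Type) [Field L] [NumberField L] [Field M] [NumberField M] [Algebra L M]
    {ℓ : ℕ} {b : L} {β : M} (hL : Om L) (hℓ : El ℓ) (hK : Kum ℓ b β) (n : ℕ) (hn : 0 < n) :
    ∃ (F : Type) (_ : Field F) (_ : NumberField F) (_ : Algebra L F) (_ : IsGalois L F)
      (_ : Algebra M F) (_ : IsScalarTower L M F) (ζ : F), IsPrimitiveRoot ζ n ∧
      ∀ (σ : F ≃ₐ[L] F) (r : ℕ), ℓ ∣ r → (∀ x : F, x ^ n = 1 → (σ ^ r) x = x) → σ ^ r = 1 := by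
  have hp := hℓ.prime
  have i1 : Irreducible (X ^ ℓ - C b) :=
    X_pow_sub_C_irreducible_of_prime hp fun z e => hK.np ⟨z, e.symm⟩
  have m1 : (X ^ ℓ - C b).Monic := monic_X_pow_sub_C b hp.ne_zero
  have m2 : minpoly L β = X ^ ℓ - C b :=
    (minpoly.eq_of_irreducible_of_monic i1 (by simp [hK.pow]) m1).symm
  have m3 : IntermediateField.adjoin L {β} = ⊤ :=
    (Field.primitive_element_iff_minpoly_natDegree_eq L β).2 (by
      rw [m2, natDegree_X_pow_sub_C, hK.fin])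
  obtain ⟨p, hp'⟩ : ∃ p : L[X], p = (X ^ ℓ - C b) * cyclotomic n L := ⟨_, rfl⟩
  have p0 : p ≠ 0 := hp' ▸ mul_ne_zero m1.ne_zero (cyclotomic_ne_zero n L)
  obtain ⟨F, _, _, _⟩ : ∃ (F : Type) (_ : Field F) (_ : Algebra L F), IsSplittingField L F p :=
    ⟨p.SplittingField, inferInstance, inferInstance, inferInstance⟩
  have := IsSplittingField.finiteDimensional F p
  have : NumberField F := NumberField.of_module_finite L F
  have : IsGalois L F := { to_normal := Normal.of_isSplittingField p }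
  have s0 : (p.map (algebraMap L F)).Splits := IsSplittingField.splits F p
  have p1 : p.map (algebraMap L F) ≠ 0 := Polynomial.map_ne_zero p0
  obtain ⟨φ⟩ : Nonempty (M →ₐ[L] F) :=
    IntermediateField.nonempty_algHom_of_adjoin_splits (S := {β}) (fun s hs => by
      rw [Set.mem_singleton_iff.1 hs, m2]
      exact ⟨Algebra.IsIntegral.isIntegral β, s0.of_dvd p1
        (Polynomial.map_dvd _ (hp' ▸ dvd_mul_right _ _))⟩) m3
  let _ : Algebra M F := φ.toRingHom.toAlgebra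
  have : IsScalarTower L M F := IsScalarTower.of_algebraMap_eq fun x => (φ.commutes x).symm
  obtain ⟨ζ, hζ⟩ := (s0.of_dvd p1 (Polynomial.map_dvd _
    (hp' ▸ dvd_mul_left (cyclotomic n L) _ : cyclotomic n L ∣ p))).exists_eval_eq_zero
    (by rw [map_cyclotomic]; exact (degree_cyclotomic_pos n F hn).ne')
  rw [map_cyclotomic] at hζ
  refine ⟨F, inferInstance, inferInstance, inferInstance, inferInstance, inferInstance,
    inferInstance, ζ, (isRoot_cyclotomic_iff_charZero hn).1 hζ, fun σ r hr hσ => ?_⟩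
  have b0 : b ≠ 0 := fun e => hK.np ⟨0, by rw [e, zero_pow hp.ne_zero]⟩
  obtain ⟨ξ, hξ⟩ := hL.prim hℓ
  have : NeZero ℓ := ⟨hp.ne_zero⟩
  refine AlgEquiv.coe_toAlgHom_injective (AlgHom.ext_of_adjoin_eq_top
    (IsSplittingField.adjoin_rootSet F p) fun x hx => ?_)
  change (σ ^ r) x = x
  have hx' := (mem_rootSet_of_ne p0).1 hx
  rw [hp', map_mul, mul_eq_zero] at hx'
  rcases hx' with hx' | hx'
  · have e1 : x ^ ℓ = algebraMap L F b := by simpa [sub_eq_zero] using hx'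
    have x0 : x ≠ 0 := fun e => by
      rw [e, zero_pow hp.ne_zero] at e1
      exact b0 ((_root_.map_eq_zero _).1 e1.symm)
    obtain ⟨i, -, hi⟩ := (hξ.map_of_injective (algebraMap L F).injective).eq_pow_of_pow_eq_one
      (ξ := σ x / x) (by
        rw [div_pow, ← map_pow, e1, AlgEquiv.commutes]
        exact div_self ((_root_.map_ne_zero _).2 b0))
    have e2 : σ x = algebraMap L F (ξ ^ i) * x := by rw [map_pow, hi, div_mul_cancel₀ _ x0]
    have e3 : ∀ j : ℕ, (σ ^ j) x = algebraMap L F ((ξ ^ i) ^ j) * x := fun j => by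
      induction j with
      | zero => simp
      | succ j ih =>
        rw [pow_succ', AlgEquiv.mul_apply, ih, map_mul, AlgEquiv.commutes, e2, pow_succ, map_mul,
          mul_assoc]
    obtain ⟨c, rfl⟩ := hr
    rw [e3, pow_right_comm, pow_mul, hξ.pow_eq_one, one_pow, one_pow, map_one, one_mul]
  · refine hσ x ((isRoot_cyclotomic_iff_charZero hn).1 ?_).pow_eq_one
    rwa [aeval_def, eval₂_eq_eval_map, map_cyclotomic] at hx'

end AR1P

open AR1P in
theorem p_ar1 (h : T1) : Z_AR1 := by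
  intro L M _ _ _ _ _ _ ℓ N b β χ v hL hℓ hK hN hχ hM a1 a2 a3 a4 a5
  have hp := hℓ.prime
  have b0 : b ≠ 0 := fun e => hK.np ⟨0, by rw [e, zero_pow hp.ne_zero]⟩
  obtain ⟨ξ, hξ⟩ := hL.prim hℓ
  have hq : 1 < Ideal.absNorm v.asIdeal := by
    have h0 := Ideal.absNorm_eq_zero_iff.not.2 v.ne_bot
    have h1 := Ideal.absNorm_eq_one_iff.not.2 v.isPrime.ne_top
    omega
  obtain ⟨n, r, ψ, hn, hr, hlr, ⟨m, hm, hnm⟩, hqr, hψ⟩ := ord hp hq
    ((h.pos L hL).2.2.2.2 ℓ ξ _ hp.two_le hξ ((cop_prime_iff v).2 a2))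
  obtain ⟨F, _, _, _, _, _, _, ζ, hζ, hF⟩ := big L M hL hℓ hK n (by omega)
  obtain ⟨Q, hQ⟩ := (h.ex L F).2.1 v
  have hG : IsGaloisGroup (F ≃ₐ[L] F) (𝓞 L) (𝓞 F) := inferInstance
  have := hG.commutes
  have := hG.isInvariant
  have := Q.isPrime
  have : Finite (𝓞 F ⧸ Q.asIdeal) := Ideal.finiteQuotientOfFreeOfNeBot _ Q.ne_bot
  obtain ⟨σ, hσ⟩ := IsArithFrobAt.exists_of_isInvariant (𝓞 L) (F ≃ₐ[L] F) Q.asIdeal
  have hc : Nat.card (𝓞 L ⧸ Q.asIdeal.under (𝓞 L)) = Ideal.absNorm v.asIdeal := by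
    rw [Ideal.absNorm_apply, Submodule.cardQuot_apply, hQ]
  have hnv : ¬ Dv n v := by rwa [hnm, dv_pow v hm]
  have c1 : ∀ x : F, x ^ n = 1 → σ x = x ^ Ideal.absNorm v.asIdeal := fun x hx => by
    have hi : IsIntegral ℤ x := IsIntegral.of_pow (by omega : 0 < n) (hx ▸ isIntegral_one)
    have := hσ.apply_of_pow_eq_one (ζ := (⟨x, hi⟩ : 𝓞 F)) (m := n) (RingOfIntegers.ext hx)
      fun c => hnv (by
        rw [Dv, hQ, Ideal.mem_comap, map_natCast]
        exact c)
    rw [hc] at this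
    exact congrArg (fun y : 𝓞 F => (y : F)) this
  have c2 : σ ^ r = 1 := hF σ r hlr fun x hx => by
    have : ∀ j : ℕ, (σ ^ j) x = x ^ Ideal.absNorm v.asIdeal ^ j := fun j => by
      induction j with
      | zero => simp
      | succ j ih => rw [pow_succ', AlgEquiv.mul_apply, ih, map_pow, c1 x hx, ← pow_mul, pow_succ']
    rw [this, pow_eq_pow_mod _ hx, hqr, ← pow_eq_pow_mod _ hx, pow_one]
  let E := IntermediateField.fixedField (Subgroup.zpowers σ)
  have c3 : Module.finrank E F ≤ r := by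
    rw [IntermediateField.finrank_fixedField_eq_card, Nat.card_zpowers]
    exact orderOf_le_of_pow_eq_one hr c2
  obtain ⟨w, -, -, hw, -⟩ := (h.ex E F).1 Q
  have hvw : Und v w.asIdeal := by
    rw [Und, hw, Ideal.comap_comap, ← IsScalarTower.algebraMap_eq]
    exact hQ
  obtain ⟨f, f1, f2, f3, f4⟩ := (h.ex L E).2.2.1 v w hvw
  have c4 : Ideal.absNorm w.asIdeal ≤ Ideal.absNorm v.asIdeal := card_le w hq fun y => by
    have e1 := hσ (algebraMap (𝓞 E) (𝓞 F) y)
    have e2 : MulSemiringAction.toAlgHom (𝓞 L) (𝓞 F) σ (algebraMap (𝓞 E) (𝓞 F) y) =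
        algebraMap (𝓞 E) (𝓞 F) y :=
      RingOfIntegers.ext ((y : E).2 ⟨σ, Subgroup.mem_zpowers σ⟩)
    rw [e2, hc] at e1
    rw [hw, Ideal.mem_comap, map_sub, map_pow]
    exact e1
  obtain rfl : f = 1 := by
    rw [f3] at c4
    have := (Nat.pow_le_pow_iff_right hq).1 (c4.trans_eq (pow_one _).symm)
    omega
  rw [pow_one] at f2 f3
  refine ⟨E, inferInstance, inferInstance, inferInstance, N * n, by positivity,
    fun ⟨z, hz⟩ => a4 (lp h hℓ b0 hvw a2 a3 (f4 rfl) hz),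
    chars h L M E F N n r χ hL hN hn hχ hM ζ hζ w ?_ ?_ ψ ?_ c3⟩
  · rw [← cop_rel (E := L), f2, cop_prime_iff, dv_mul, not_or]
    exact ⟨a1, hnv⟩
  · rw [nrm_apply, f2, a5]
  · rwa [dn_apply, f3]

end Pool.Agent.P.MP_b8021b_nt.BS.CF
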