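import Pool.Agent.P.MP_b8021b_nt.BS.CF.Bund

/-! The number of quadratic ray class characters. -/

namespace Pool.Agent.P.MP_b8021b_nt.BS.CF

open NumberField IsDedekindDomain Polynomial Finset WithZero
open Pool.Agent.P.MP_b8021b_nt Pool.Agent.P.MP_b8021b_nt.VE Pool.Agent.P.MP_b8021b_nt.VC
open scoped Classical

set_option linter.unusedSectionVars false

namespace X2P

variable {L : Type} [Field L] [NumberField L]

/-- the residue ring -/
abbrev RQ (L : Type) [Field L] (n : ℕ) : Type := 𝓞 L ⧸ Ideal.span {(n : 𝓞 L)}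

theorem card_RQ (n : ℕ) : Nat.card (RQ L n) = n ^ Module.finrank ℚ L := by
  rw [← RingOfIntegers.rank, ← Ideal.absNorm_span_natCast]
  rfl

theorem fin_RQ {n : ℕ} (hn : n ≠ 0) : Finite (RQ L n) :=
  Nat.finite_of_card_ne_zero (by rw [card_RQ]; exact pow_ne_zero _ hn)

/-- the places over `n` -/
abbrev SS (L : Type) [Field L] (n : ℕ) : Type := {v : Pl L | Dv n v}

theorem fin_SS {n : ℕ} (hn : n ≠ 0) : Finite (SS L n) := (finite_dv L hn).to_subtype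

theorem card_sign {n : ℕ} (hn : n ≠ 0) : Nat.card (SS L n → Bool) = 2 ^ nPl L n := by
  have := fin_SS (L := L) hn
  rw [Nat.card_fun, Nat.card_coe_set_eq]
  simp [nPl]

theorem half (v : Pl L) {M : ℕ} {x e : L} (he : vl v e = 1) (h : vl v (x - e) ≤ vl v (x + e))
    (h2 : vl v ((x - e) * (x + e)) ≤ vl v ((2 * M : ℕ) : L)) : vl v (x - e) ≤ vl v (M : L) := by
  have h3 : vl v (2 : L) ≤ vl v (x + e) := by
    have e1 : vl v (2 : L) = vl v ((x + e) - (x - e)) := by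
      rw [show (x + e) - (x - e) = 2 * e by ring, map_mul, he, mul_one]
    rw [e1]
    exact (Valuation.map_sub _ _ _).trans (max_le le_rfl h)
  have h4 : vl v (x - e) * vl v (2 : L) ≤ vl v (M : L) * vl v (2 : L) := by
    calc vl v (x - e) * vl v (2 : L) ≤ vl v (x - e) * vl v (x + e) := by gcongr
      _ = vl v ((x - e) * (x + e)) := (map_mul _ _ _).symm
      _ ≤ _ := h2
      _ = _ := by rw [Nat.cast_mul, map_mul, mul_comm]; simp
  exact le_of_mul_le_mul_right h4 (vl_pos v two_ne_zero)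

theorem vl_of_dvd (v : Pl L) {n : ℕ} {a : 𝓞 L} (h : (n : 𝓞 L) ∣ a) : vl v a ≤ vl v n := by
  obtain ⟨c, rfl⟩ := h
  have : ((n * c : 𝓞 L) : L) = n * c := by simp
  rw [this, map_mul]
  exact mul_le_of_le_one_right' (vl_coe_le v c)

/-- two square roots of one with the same signs -/
theorem dvd_of_sign {M : ℕ} (hM : M ≠ 0) {x x' : 𝓞 L} (hx : ((2 * M : ℕ) : 𝓞 L) ∣ x ^ 2 - 1)
    (hx' : ((2 * M : ℕ) : 𝓞 L) ∣ x' ^ 2 - 1)
    (h : ∀ v : Pl L, Dv (2 * M) v →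
      (vl v ((x : L) - 1) ≤ vl v ((x : L) + 1) ↔ vl v ((x' : L) - 1) ≤ vl v ((x' : L) + 1))) :
    (M : 𝓞 L) ∣ x - x' := by
  refine dvd_of_vl hM fun v hv => ?_
  have hv2 : Dv (2 * M) v := hv.of_dvd (dvd_mul_left _ _)
  have a1 := vl_of_dvd v hx
  have a2 := vl_of_dvd v hx'
  have e1 : ((x ^ 2 - 1 : 𝓞 L) : L) = (x : L) ^ 2 - 1 := by simp
  have e2 : ((x' ^ 2 - 1 : 𝓞 L) : L) = (x' : L) ^ 2 - 1 := by simp
  rw [e1] at a1
  rw [e2] at a2
  have e3 : ((x - x' : 𝓞 L) : L) = (x : L) - x' := by simp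
  rw [e3]
  by_cases c : vl v ((x : L) - 1) ≤ vl v ((x : L) + 1)
  · have c' := (h v hv2).1 c
    have b1 := half v (M := M) (map_one _) c (by rwa [show ((x : L) - 1) * (x + 1) = x ^ 2 - 1 by ring])
    have b2 := half v (M := M) (map_one _) c'
      (by rwa [show ((x' : L) - 1) * (x' + 1) = x' ^ 2 - 1 by ring])
    rw [show (x : L) - x' = (x - 1) - (x' - 1) by ring]
    exact (Valuation.map_sub _ _ _).trans (max_le b1 b2)
  · have c' : ¬ _ := fun c' => c ((h v hv2).2 c')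
    have m1 : vl v (-1 : L) = 1 := by simp
    have b1 := half v (M := M) (x := x) m1
      (by rw [sub_neg_eq_add, ← sub_eq_add_neg]; exact (not_le.1 c).le)
      (by rwa [show ((x : L) - -1) * (x + -1) = x ^ 2 - 1 by ring])
    have b2 := half v (M := M) (x := x') m1
      (by rw [sub_neg_eq_add, ← sub_eq_add_neg]; exact (not_le.1 c').le)
      (by rwa [show ((x' : L) - -1) * (x' + -1) = x' ^ 2 - 1 by ring])
    rw [show (x : L) - x' = (x - -1) - (x' - -1) by ring]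
    exact (Valuation.map_sub _ _ _).trans (max_le b1 b2)

/-- the number of square roots of one -/
theorem card_ker {M : ℕ} (hM : M ≠ 0) :
    Nat.card (powMonoidHom 2 : (RQ L (2 * M))ˣ →* (RQ L (2 * M))ˣ).ker ≤
      2 ^ nPl L (2 * M) * 2 ^ Module.finrank ℚ L := by
  have hN : 2 * M ≠ 0 := by omega
  have := fin_SS (L := L) hN
  have := fin_RQ (L := L) two_ne_zero
  set K := (powMonoidHom 2 : (RQ L (2 * M))ˣ →* (RQ L (2 * M))ˣ).ker
  choose x hx using fun u : K => Ideal.Quotient.mk_surjective ((u : (RQ L (2 * M))ˣ) : RQ L (2 * M))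
  have hsq : ∀ u : K, ((2 * M : ℕ) : 𝓞 L) ∣ x u ^ 2 - 1 := fun u => by
    rw [← Ideal.mem_span_singleton, ← Ideal.Quotient.eq, map_pow, hx, map_one]
    have : (u : (RQ L (2 * M))ˣ) ^ 2 = 1 := u.2
    rw [← Units.val_pow_eq_pow_val, this, Units.val_one]
  let ε : K → SS L (2 * M) → Bool := fun u v =>
    decide (vl v.1 ((x u : L) - 1) ≤ vl v.1 ((x u : L) + 1))
  have hε : ∀ u u', ε u = ε u' → (M : 𝓞 L) ∣ x u - x u' := fun u u' e =>
    dvd_of_sign hM (hsq u) (hsq u') fun v hv => decide_eq_decide.1 (congrFun e ⟨v, hv⟩)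
  have hb : ∀ u, (M : 𝓞 L) ∣ x u - x (Function.invFun ε (ε u)) := fun u =>
    hε _ _ (Function.invFun_eq ⟨u, rfl⟩).symm
  choose t ht using hb
  have hinj : Function.Injective fun u : K =>
      ((ε u, Ideal.Quotient.mk _ (t u)) : (SS L (2 * M) → Bool) × RQ L 2) := by
    intro u u' e
    obtain ⟨e1, e2⟩ := Prod.mk.inj e
    obtain ⟨c, hc⟩ := Ideal.mem_span_singleton.1 (Ideal.Quotient.eq.1 e2)
    refine Subtype.ext (Units.ext ?_)
    rw [← hx, ← hx, Ideal.Quotient.eq, Ideal.mem_span_singleton]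
    have a := ht u
    have a' := ht u'
    rw [← e1] at a'
    refine ⟨c, ?_⟩
    push_cast at hc ⊢
    linear_combination a - a' + (M : 𝓞 L) * hc
  have := Nat.card_le_card_of_injective _ hinj
  rwa [Nat.card_prod, card_sign hN, card_RQ] at this

/-- squares times elements congruent to one -/
def HH (L : Type) [Field L] [NumberField L] (n : ℕ) : Subgroup Lˣ where
  carrier := {x | ∃ z : L, z ≠ 0 ∧ One n (x * z ^ 2)}
  one_mem' := ⟨1, one_ne_zero, by simpa using One.one n⟩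
  mul_mem' := by
    rintro a b ⟨z, hz, h⟩ ⟨z', hz', h'⟩
    refine ⟨z * z', mul_ne_zero hz hz', ?_⟩
    have := h.mul h'
    rwa [show (a : L) * z ^ 2 * (b * z' ^ 2) = (a * b : Lˣ) * (z * z') ^ 2 by
      push_cast; ring] at this
  inv_mem' := by
    rintro a ⟨z, hz, h⟩
    refine ⟨z⁻¹, inv_ne_zero hz, ?_⟩
    have := h.inv (mul_ne_zero a.ne_zero (pow_ne_zero 2 hz))
    rwa [show ((a : L) * z ^ 2)⁻¹ = (a⁻¹ : Lˣ) * z⁻¹ ^ 2 by
      rw [mul_inv, Units.val_inv_eq_inv_val, inv_pow]] at this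

/-- the units outside `n` -/
def UU (L : Type) [Field L] [NumberField L] (n : ℕ) : Subgroup Lˣ where
  carrier := {x | ∀ v : Pl L, ¬ Dv n v → od v x = 0}
  one_mem' := fun v _ => by simpa using od_one v
  mul_mem' := by
    intro a b ha hb v hv
    rw [Units.val_mul, od_mul v a.ne_zero b.ne_zero, ha v hv, hb v hv, add_zero]
  inv_mem' := by
    intro a ha v hv
    rw [Units.val_inv_eq_inv_val, od_inv, ha v hv, neg_zero]

theorem one_of_mk {n : ℕ} {a b : 𝓞 L} (hb0 : (b : L) ≠ 0)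
    (hb : IsUnit (Ideal.Quotient.mk (Ideal.span {(n : 𝓞 L)}) b))
    (h : Ideal.Quotient.mk (Ideal.span {(n : 𝓞 L)}) a = Ideal.Quotient.mk _ b) :
    One n ((a : L) / b) := by
  obtain ⟨c', hc⟩ := hb.exists_right_inv
  obtain ⟨c, rfl⟩ := Ideal.Quotient.mk_surjective c'
  refine ⟨a * c, b * c, ?_, ?_, ?_⟩
  · rw [← Ideal.mem_span_singleton, ← Ideal.Quotient.eq, map_mul, h, hc, map_one]
  · rw [← Ideal.mem_span_singleton, ← Ideal.Quotient.eq, map_mul, hc, map_one]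
  · push_cast
    field_simp

theorem unit_of_cop {n : ℕ} {a : 𝓞 L} (h : IsCoprime a n) :
    IsUnit (Ideal.Quotient.mk (Ideal.span {(n : 𝓞 L)}) a) := by
  obtain ⟨c, d, e⟩ := h
  refine IsUnit.of_mul_eq_one (Ideal.Quotient.mk _ c) ?_
  rw [← map_mul, ← map_one (Ideal.Quotient.mk (Ideal.span {(n : 𝓞 L)})), Ideal.Quotient.eq,
    Ideal.mem_span_singleton]
  exact ⟨-d, by linear_combination e⟩

theorem ne_zero_of_unit {n : ℕ} (hn : 2 ≤ n) {a : 𝓞 L}
    (h : IsUnit (Ideal.Quotient.mk (Ideal.span {(n : 𝓞 L)}) a)) : (a : L) ≠ 0 := by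
  have : Nontrivial (RQ L n) := Ideal.Quotient.nontrivial_iff.2 fun e =>
    not_unit_nat hn (Ideal.span_singleton_eq_top.1 e)
  intro e
  have : a = 0 := by simpa using e
  rw [this, map_zero] at h
  exact not_isUnit_zero h

theorem exists_od (hW : Z_WA) {n : ℕ} (hn : n ≠ 0) (e : Pl L → ℤ) :
    ∃ z : L, z ≠ 0 ∧ ∀ v, Dv n v → od v z = e v := by
  obtain ⟨z, hz, -, h⟩ := (hW L).2.2.1 (finite_dv L hn).toFinset e 1 one_ne_zero fun v _ hv =>
    v.isPrime.ne_top ((Ideal.eq_top_iff_one _).2 (by simpa [Dv] using hv))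
  exact ⟨z, hz, fun v hv => h v ((Set.Finite.mem_toFinset _).2 hv)⟩

/-- a finite set that maps onto the quotient -/
theorem exists_surj (hW : Z_WA) {n : ℕ} (hn : 2 ≤ n) :
    ∃ F : (SS L n → Bool) × ((RQ L n)ˣ ⧸ (powMonoidHom 2 : (RQ L n)ˣ →* (RQ L n)ˣ).range) →
      Lˣ ⧸ HH L n, Function.Surjective F := by
  have hn0 : n ≠ 0 := by omega
  choose γ hγ using fun u : (RQ L n)ˣ => Ideal.Quotient.mk_surjective (u : RQ L n)
  have hγu : ∀ u, IsUnit (Ideal.Quotient.mk (Ideal.span {(n : 𝓞 L)}) (γ u)) := fun u => by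
    rw [hγ]; exact u.isUnit
  have hγ0 : ∀ u, (γ u : L) ≠ 0 := fun u => ne_zero_of_unit hn (hγu u)
  choose z hz0 hz using fun ε : SS L n → Bool =>
    exists_od hW hn0 fun v : Pl L => if h : Dv n v then (if ε ⟨v, h⟩ then 1 else 0) else 0
  refine ⟨fun p => QuotientGroup.mk (Units.mk0 _ (mul_ne_zero (hz0 p.1) (hγ0 p.2.out))), ?_⟩
  intro q
  obtain ⟨x, rfl⟩ := QuotientGroup.mk_surjective q
  let ε : SS L n → Bool := fun v => decide (od v.1 (x : L) % 2 = 1)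
  obtain ⟨w, hw0, hw⟩ := exists_od hW hn0 fun v : Pl L => od v (x : L) / 2
  have hd : z ε * w ^ 2 ≠ 0 := mul_ne_zero (hz0 ε) (pow_ne_zero 2 hw0)
  have hx' : (x : L) / (z ε * w ^ 2) ≠ 0 := div_ne_zero x.ne_zero hd
  obtain ⟨α, β, hα, hβ, e⟩ := (hW L).2.2.2.2.2.1 n ((x : L) / (z ε * w ^ 2)) hn0 fun v hv => by
    rw [← od_eq_zero_iff v hx', od_div v x.ne_zero hd, od_mul v (hz0 ε) (pow_ne_zero 2 hw0),
      od_pow, hz ε v hv, hw v hv, dif_pos hv]
    by_cases c : od v (x : L) % 2 = 1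
    · rw [if_pos (by simpa [ε] using c)]
      push_cast
      omega
    · rw [if_neg (by simpa [ε] using c)]
      push_cast
      omega
  have hαβ := (unit_of_cop hα).mul (unit_of_cop hβ)
  have hβ0 : (β : L) ≠ 0 := ne_zero_of_unit hn (unit_of_cop hβ)
  obtain ⟨⟨_, t, rfl⟩, ht⟩ := QuotientGroup.mk_out_eq_mul
    (powMonoidHom 2 : (RQ L n)ˣ →* (RQ L n)ˣ).range hαβ.unit
  refine ⟨(ε, QuotientGroup.mk hαβ.unit), QuotientGroup.eq.2 ⟨β * γ t / w,
    div_ne_zero (mul_ne_zero hβ0 (hγ0 t)) hw0, ?_⟩⟩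
  have h1 := one_of_mk (a := α * β * γ t ^ 2) (hγ0 (QuotientGroup.mk (s := (powMonoidHom 2 :
    (RQ L n)ˣ →* (RQ L n)ˣ).range) hαβ.unit).out) (hγu _) (by
      rw [hγ, ht, map_mul, map_mul, map_pow, hγ]
      simp)
  have e' : (α : L) = x * β / (z ε * w ^ 2) := by rw [← e]; ring
  have hz1 := hz0 ε
  have hg := hγ0 (QuotientGroup.mk (s := (powMonoidHom 2 :
    (RQ L n)ˣ →* (RQ L n)ˣ).range) hαβ.unit).out
  refine (congrArg (One n) ?_).mp h1
  have e3 : ((α * β * γ t ^ 2 : 𝓞 L) : L) = (α : L) * β * (γ t : L) ^ 2 := by simp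
  rw [e3, e']
  simp only [Units.val_mul, Units.val_inv_eq_inv_val, Units.val_mk0]
  field_simp

theorem index_HH (hW : Z_WA) {n : ℕ} (hn : 2 ≤ n) (h2 : 2 ∣ n) :
    (HH L n).index ≠ 0 ∧ (HH L n).index ≤ 2 ^ (2 * nPl L n + Module.finrank ℚ L) := by
  obtain ⟨F, hF⟩ := exists_surj (L := L) hW hn
  have hn0 : n ≠ 0 := by omega
  have := fin_SS (L := L) hn0
  have := fin_RQ (L := L) hn0
  have : Finite (Lˣ ⧸ HH L n) := Finite.of_surjective F hF
  refine ⟨Subgroup.index_ne_zero_of_finite, ?_⟩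
  have h1 := Nat.card_le_card_of_surjective F hF
  rw [Nat.card_prod, card_sign hn0, ← Subgroup.index, ← Subgroup.index,
    Subgroup.index_range] at h1
  obtain ⟨M, rfl⟩ := h2
  have h3 := card_ker (L := L) (M := M) (by omega)
  calc _ ≤ _ := h1
    _ ≤ 2 ^ nPl L (2 * M) * (2 ^ nPl L (2 * M) * 2 ^ Module.finrank ℚ L) := by gcongr
    _ = _ := by rw [pow_add, two_mul (nPl L (2 * M)), pow_add, mul_assoc]

theorem card_Y {n : ℕ} (Y : Finset L) [Finite (Lˣ ⧸ HH L n)]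
    (h0 : (HH L n).relIndex (HH L n ⊔ UU L n) ≠ 0)
    (hY : ∀ y ∈ Y, y ≠ 0 ∧ ∀ v, ¬ Dv n v → od v y = 0)
    (hi : ∀ y ∈ Y, ∀ y' ∈ Y, (∃ z : L, z ≠ 0 ∧ One n (y * y' * z ^ 2)) → y = y') :
    Y.card ≤ (HH L n).relIndex (HH L n ⊔ UU L n) := by
  have : Finite (↥(HH L n ⊔ UU L n) ⧸ (HH L n).subgroupOf (HH L n ⊔ UU L n)) :=
    Nat.finite_of_card_ne_zero h0
  let f : Y → ↥(HH L n ⊔ UU L n) ⧸ (HH L n).subgroupOf (HH L n ⊔ UU L n) := fun y =>
    QuotientGroup.mk ⟨Units.mk0 y.1 (hY y.1 y.2).1, Subgroup.mem_sup_right (hY y.1 y.2).2⟩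
  have hf : Function.Injective f := by
    intro y y' e
    obtain ⟨z, hz, h⟩ := Subgroup.mem_subgroupOf.1 (QuotientGroup.eq.1 e)
    have hy := (hY y.1 y.2).1
    refine Subtype.ext (hi _ y.2 _ y'.2 ⟨z / y, div_ne_zero hz hy, ?_⟩)
    refine (congrArg (One n) ?_).mp h
    simp only [Subgroup.coe_mul, Subgroup.coe_inv, Units.val_mul, Units.val_inv_eq_inv_val,
      Units.val_mk0]
    field_simp
  have := Nat.card_le_card_of_injective f hf
  rwa [Nat.card_eq_fintype_card, Fintype.card_coe] at this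

theorem exists_hom (hE : Z_Ext) {n : ℕ} (hn : 2 ≤ n) {χ : Ideal (𝓞 L) →* ℂ} (hχ : RC n χ)
    (h2 : ∀ I, Cop n I → χ I ^ 2 = 1) :
    ∃ φ : Lˣ ⧸ (HH L n ⊔ UU L n) →* ℂˣ, ∀ (x : Lˣ) (v₀ : Pl L), ¬ Dv n v₀ → od v₀ (x : L) = 1 →
      (∀ v, v ≠ v₀ → ¬ Dv n v → od v (x : L) = 0) → (φ (QuotientGroup.mk x) : ℂ) = χ v₀.asIdeal := by
  obtain ⟨χt, a1, a2, a3⟩ := hE L n χ hn hχ.toIsChar
  have hc : ∀ α : 𝓞 L, (n : 𝓞 L) ∣ α - 1 → χt α = 1 := fun α hα => by
    obtain ⟨c, hc⟩ := hα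
    rw [a1 α ⟨1, -c, by linear_combination hc⟩, hχ.prin α ⟨c, hc⟩]
  have hker : HH L n ⊔ UU L n ≤ (Units.map (χt : L →* ℂ)).ker := by
    refine sup_le ?_ ?_
    · rintro x ⟨z, hz, α, β, hα, hβ, e⟩
      have e1 := congrArg χt e
      have e2 : χt (z ^ 2) = 1 := a2 _ (pow_ne_zero 2 hz) fun v hv => by
        rw [od_pow, zpow_mul, zpow_natCast, h2 _ ((cop_prime_iff v).2 hv), one_zpow]
      rw [map_mul, map_mul, e2, hc α hα, hc β hβ, mul_one, mul_one] at e1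
      exact Units.ext e1
    · intro x hx
      exact Units.ext (a2 _ x.ne_zero fun v hv => by rw [hx v hv, zpow_zero])
  refine ⟨QuotientGroup.lift _ _ hker, fun x v₀ hv h1 h0 => ?_⟩
  rw [QuotientGroup.lift_mk]
  have := a3 x v₀ x.ne_zero hv fun v hv hv' => by rw [h0 v hv hv', zpow_zero]
  rw [h1, zpow_one] at this
  exact this

theorem card_chi (hE : Z_Ext) {n : ℕ} (hn : 2 ≤ n) (hG : Gen L n)
    (𝒴 : Finset (Ideal (𝓞 L) →* ℂ)) (h0 : (HH L n ⊔ UU L n).index ≠ 0)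
    (h : ∀ χ ∈ 𝒴, RC n χ ∧ ∀ I, Cop n I → χ I ^ 2 = 1) :
    𝒴.card ≤ (HH L n ⊔ UU L n).index := by
  have : Finite (Lˣ ⧸ (HH L n ⊔ UU L n)) := Nat.finite_of_card_ne_zero h0
  choose φ hφ using fun χ : 𝒴 => exists_hom hE hn (h χ.1 χ.2).1 (h χ.1 χ.2).2
  have : NeZero (Monoid.exponent (Lˣ ⧸ (HH L n ⊔ UU L n))) :=
    ⟨Monoid.exponent_ne_zero_of_finite (G := Lˣ ⧸ (HH L n ⊔ UU L n))⟩
  have hc := CommGroup.card_monoidHom_of_hasEnoughRootsOfUnity (Lˣ ⧸ (HH L n ⊔ UU L n)) ℂ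
  have : Finite (Lˣ ⧸ (HH L n ⊔ UU L n) →* ℂˣ) :=
    Nat.finite_of_card_ne_zero (by rw [hc]; exact h0)
  have hf : Function.Injective φ := by
    intro χ χ' e
    refine Subtype.ext (MonoidHom.ext fun I => ?_)
    by_cases c : Cop n I
    · refine cop_induction (P := fun I => χ.1 I = χ'.1 I) hn ?_ ?_ I c
      · rw [← Ideal.one_eq_top, map_one, map_one]
      · intro v I hv _ ih
        obtain ⟨x, hx, b1, b2⟩ := hG v hv
        rw [map_mul, map_mul, ih, ← hφ χ (Units.mk0 x hx) v hv b1 b2,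
          ← hφ χ' (Units.mk0 x hx) v hv b1 b2, e]
    · rw [(h χ.1 χ.2).1.zero I c, (h χ'.1 χ'.2).1.zero I c]
  have := Nat.card_le_card_of_injective φ hf
  rwa [Nat.card_eq_fintype_card, Fintype.card_coe, hc] at this

end X2P

theorem p_x2 (h : T1) : Z_X2 := by
  intro L _ _ N 𝒴 Y hN h2 hG hχ hY hi
  obtain ⟨h0, hle⟩ := X2P.index_HH (L := L) h.wa hN h2
  have : Finite (Lˣ ⧸ X2P.HH L N) := Nat.finite_of_card_ne_zero h0
  have e := Subgroup.relIndex_mul_index (le_sup_left : X2P.HH L N ≤ X2P.HH L N ⊔ X2P.UU L N)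
  have h1 := e.trans_ne h0
  have a := X2P.card_Y Y (left_ne_zero_of_mul h1) hY hi
  have b := X2P.card_chi h.ext hN hG 𝒴 (right_ne_zero_of_mul h1) hχ
  calc 𝒴.card * Y.card ≤ _ := Nat.mul_le_mul b a
    _ = _ := (mul_comm _ _).trans e
    _ ≤ _ := hle

end Pool.Agent.P.MP_b8021b_nt.BS.CF
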