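import Pool.Agent.P.MP_b8021b_nt.BS.CF.Bund

/-! The norm residue symbol is not nontrivial at exactly one place. -/

namespace Pool.Agent.P.MP_b8021b_nt.BS.CF

open NumberField IsDedekindDomain Polynomial Finset WithZero
open Pool.Agent.P.MP_b8021b_nt Pool.Agent.P.MP_b8021b_nt.VE Pool.Agent.P.MP_b8021b_nt.VC
open scoped Classical

set_option linter.unusedSectionVars false

namespace WRP

variable {L : Type} [Field L] [NumberField L]

/-- two triples are close at `v` -/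
def Nr (v : Pl L) (k : ℕ) (p q : L × L × L) : Prop :=
  vl v (p.1 - q.1) ≤ exp (-(k : ℤ)) ∧ vl v (p.2.1 - q.2.1) ≤ exp (-(k : ℤ)) ∧
    vl v (p.2.2 - q.2.2) ≤ exp (-(k : ℤ))

/-- the function tends to zero at `q` -/
def Sm (v : Pl L) (q : L × L × L) (u : L × L × L → L) : Prop :=
  ∀ j : ℤ, ∀ᶠ k : ℕ in Filter.atTop, ∀ p, Nr v k p q → vl v (u p) ≤ exp (-j)

/-- the function is continuous at `q` -/
def Ct (v : Pl L) (q : L × L × L) (f : L × L × L → L) : Prop := Sm v q fun p => f p - f q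

variable {v : Pl L} {q : L × L × L} {u w f g : L × L × L → L}

theorem Sm.add (hu : Sm v q u) (hw : Sm v q w) : Sm v q fun p => u p + w p := fun j => by
  filter_upwards [hu j, hw j] with k h1 h2 p hp
  exact Valuation.map_add_le _ (h1 p hp) (h2 p hp)

theorem Sm.cmul (hu : Sm v q u) (a : L) : Sm v q fun p => a * u p := fun j => by
  rcases eq_or_ne a 0 with rfl | ha
  · exact Filter.Eventually.of_forall fun k p _ => by simp
  filter_upwards [hu (j - od v a)] with k h1 p hp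
  rw [map_mul, vl_eq v ha]
  calc _ ≤ exp (-od v a) * exp (-(j - od v a)) := mul_le_mul' le_rfl (h1 p hp)
    _ = _ := by rw [← exp_add]; congr 1; ring

theorem Sm.mul (hu : Sm v q u) (hw : Sm v q w) : Sm v q fun p => u p * w p := fun j => by
  filter_upwards [hu j, hw 0] with k h1 h2 p hp
  rw [map_mul]
  calc _ ≤ exp (-j) * exp (-(0 : ℤ)) := mul_le_mul' (h1 p hp) (h2 p hp)
    _ = _ := by simp

theorem Sm.of_eq (hu : Sm v q u) (e : ∀ p, w p = u p) : Sm v q w := by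
  rwa [show w = u from funext e]

theorem ct_const (a : L) : Ct v q fun _ => a := fun _ =>
  Filter.Eventually.of_forall fun k p _ => by simp

theorem ev_le (j : ℤ) : ∀ᶠ k : ℕ in Filter.atTop, (exp (-(k : ℤ)) : WithZero (Multiplicative ℤ)) ≤
    exp (-j) := by
  filter_upwards [Filter.eventually_ge_atTop j.toNat] with k hk
  rw [exp_le_exp]
  omega

theorem ct_a : Ct v q fun p => p.1 := fun j => by
  filter_upwards [ev_le j] with k hk p hp using hp.1.trans hk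

theorem ct_b : Ct v q fun p => p.2.1 := fun j => by
  filter_upwards [ev_le j] with k hk p hp using hp.2.1.trans hk

theorem ct_c : Ct v q fun p => p.2.2 := fun j => by
  filter_upwards [ev_le j] with k hk p hp using hp.2.2.trans hk

theorem Ct.add (hf : Ct v q f) (hg : Ct v q g) : Ct v q fun p => f p + g p :=
  (Sm.add hf hg).of_eq fun p => by ring

theorem Ct.sub (hf : Ct v q f) (hg : Ct v q g) : Ct v q fun p => f p - g p :=
  (Sm.add hf (Sm.cmul hg (-1))).of_eq fun p => by ring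

theorem Ct.mul (hf : Ct v q f) (hg : Ct v q g) : Ct v q fun p => f p * g p :=
  (((Sm.mul hf hg).add (Sm.cmul hf (g q))).add (Sm.cmul hg (f q))).of_eq fun p => by ring

theorem ct_nf {ℓ : ℕ} (hℓ : El ℓ) (b : L) : Ct v q fun p => Nf ℓ b p.1 p.2.1 p.2.2 := by
  rcases hℓ with rfl | ⟨rfl, hF⟩
  · exact Sm.of_eq ((ct_a.mul ct_a).sub ((ct_const b).mul (ct_b.mul ct_b))) fun p => by
      simp only [Nf_two]; ring
  · exact Sm.of_eq ((((ct_a.mul (ct_a.mul ct_a)).add ((ct_const b).mul (ct_b.mul (ct_b.mul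
      ct_b)))).add ((ct_const (b ^ 2)).mul (ct_c.mul (ct_c.mul ct_c)))).sub
      ((ct_const (3 * b)).mul (ct_a.mul (ct_b.mul ct_c)))) fun p => by
      simp only [Nf_three]; ring

/-- a local solution, stable under approximation -/
theorem loc {ℓ : ℕ} (hℓ : El ℓ) {b c : L} (hc : c ≠ 0) (v : Pl L) {j : ℕ} (hj : 1 ≤ j)
    (h : LN ℓ v b c ∨ (ℓ : ℤ) ∣ od v c) : ∃ q : L × L × L, ∀ᶠ k : ℕ in Filter.atTop, ∀ p,
      Nr v k p q → Nf ℓ b p.1 p.2.1 p.2.2 ≠ 0 ∧ vl v (c / Nf ℓ b p.1 p.2.1 p.2.2) = 1 ∧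
        (LN ℓ v b c → vl v (c / Nf ℓ b p.1 p.2.1 p.2.2 - 1) ≤ exp (-(j : ℤ))) := by
  have hj1 : (exp (-(j : ℤ)) : WithZero (Multiplicative ℤ)) < 1 := by
    rw [← exp_zero, exp_lt_exp]
    omega
  obtain ⟨q, h0, h1, h2⟩ : ∃ q : L × L × L, Nf ℓ b q.1 q.2.1 q.2.2 ≠ 0 ∧
      vl v (c / Nf ℓ b q.1 q.2.1 q.2.2) = 1 ∧
        (LN ℓ v b c → vl v (c / Nf ℓ b q.1 q.2.1 q.2.2 - 1) ≤ exp (-(j : ℤ))) := by
    by_cases hL : LN ℓ v b c
    · obtain ⟨r, s, t, h⟩ := hL j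
      exact ⟨(r, s, t), (od_of_near v (h.trans_lt hj1)).2.1, vl_of_near v (h.trans_lt hj1),
        fun _ => h⟩
    · obtain ⟨m, hm⟩ := h.resolve_left hL
      obtain ⟨π, hπ, hπ1⟩ := exists_od_one v
      have hz : ((π : L) ^ m) ^ ℓ ≠ 0 := pow_ne_zero _ (zpow_ne_zero _ hπ)
      refine ⟨((π : L) ^ m, 0, 0), ?_, ?_, fun e => absurd e hL⟩
      · rwa [Nf_pow hℓ]
      · rw [Nf_pow hℓ, ← od_eq_zero_iff v (div_ne_zero hc hz), od_div v hc hz, od_pow, od_zpow,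
          hπ1, hm]
        ring
  refine ⟨q, ?_⟩
  filter_upwards [ct_nf (v := v) (q := q) hℓ b (od v (Nf ℓ b q.1 q.2.1 q.2.2) + j)] with k hk p hp
  have h3 := hk p hp
  beta_reduce at h3
  generalize Nf ℓ b p.1 p.2.1 p.2.2 = P at h3 ⊢
  generalize Nf ℓ b q.1 q.2.1 q.2.2 = Q at h0 h1 h2 h3
  have h4 : vl v (P / Q - 1) ≤ exp (-(j : ℤ)) := by
    rw [show P / Q - 1 = (P - Q) * Q⁻¹ by field_simp, map_mul, vl_eq v (inv_ne_zero h0), od_inv]
    calc _ ≤ exp (-(od v Q + j)) * exp (- -od v Q) := mul_le_mul' h3 le_rfl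
      _ = _ := by rw [← exp_add]; congr 1; ring
  have h5 := vl_of_near v (h4.trans_lt hj1)
  have h6 : P ≠ 0 := (od_of_near v (h4.trans_lt hj1)).1
  have h7 : vl v (Q / P) = 1 := by rw [← inv_div, map_inv₀, h5, inv_one]
  refine ⟨h6, ?_, fun e => ?_⟩
  · rw [show c / P = c / Q * (Q / P) by field_simp, map_mul, h1, h7, one_mul]
  · rw [show c / P - 1 = (c / Q - 1 - (P / Q - 1)) * (Q / P) by field_simp; ring, map_mul, h7,
      mul_one]
    exact Valuation.map_sub_le _ (h2 e) h4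

/-- a global solution -/
theorem glob (hW : Z_WA) {ℓ n : ℕ} (hℓ : El ℓ) (hn : 2 ≤ n) {b c : L} (hc : c ≠ 0) {j : ℕ}
    (hj : 1 ≤ j) (h : ∀ v, Dv n v → LN ℓ v b c ∨ (ℓ : ℤ) ∣ od v c) :
    ∃ P : L, NV ℓ b P ∧ P ≠ 0 ∧ ∀ v, Dv n v → vl v (c / P) = 1 ∧
      (LN ℓ v b c → vl v (c / P - 1) ≤ exp (-(j : ℤ))) := by
  have hf := finite_dv L (by omega : n ≠ 0)
  have h1 : ∀ v : Pl L, ∃ q : L × L × L, v ∈ hf.toFinset → ∀ᶠ k : ℕ in Filter.atTop, ∀ p,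
      Nr v k p q → Nf ℓ b p.1 p.2.1 p.2.2 ≠ 0 ∧ vl v (c / Nf ℓ b p.1 p.2.1 p.2.2) = 1 ∧
        (LN ℓ v b c → vl v (c / Nf ℓ b p.1 p.2.1 p.2.2 - 1) ≤ exp (-(j : ℤ))) := fun v => by
    by_cases hv : Dv n v
    · obtain ⟨q, hq⟩ := loc hℓ hc v hj (h v hv)
      exact ⟨q, fun _ => hq⟩
    · exact ⟨0, fun e => absurd (hf.mem_toFinset.1 e) hv⟩
  choose q hq using h1
  obtain ⟨k, hk⟩ := ((Filter.eventually_all_finset hf.toFinset).2 hq).exists
  obtain ⟨r, hr⟩ := (hW L).2.1 hf.toFinset (fun v => (q v).1) k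
  obtain ⟨s, hs⟩ := (hW L).2.1 hf.toFinset (fun v => (q v).2.1) k
  obtain ⟨t, ht⟩ := (hW L).2.1 hf.toFinset (fun v => (q v).2.2) k
  have h2 := fun v (hv : Dv n v) => hk v (hf.mem_toFinset.2 hv) (r, s, t)
    ⟨hr v (hf.mem_toFinset.2 hv), hs v (hf.mem_toFinset.2 hv), ht v (hf.mem_toFinset.2 hv)⟩
  obtain ⟨v, hv⟩ := exists_dv L hn
  exact ⟨Nf ℓ b r s t, ⟨r, s, t, rfl⟩, (h2 v hv).1, fun v hv => (h2 v hv).2⟩

variable {M : Type} [Field M] [NumberField M] [Algebra L M]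

/-- the order of a character that kills the norms -/
theorem pow_eq {N : ℕ} {χ : Ideal (𝓞 L) →* ℂ} (h : IsTriv N (nrm M χ)) {I : Ideal (𝓞 L)}
    (hI : Cop N I) : χ I ^ Module.finrank L M = 1 := by
  have e := Ideal.relNorm_algebraMap (𝓞 M) I
  rw [← IsFractionRing.finrank_eq (𝓞 L) L (𝓞 M) M] at e
  rw [← map_pow, ← e]
  refine h _ ((cop_rel (E := L)).1 ?_)
  rw [e]
  exact IsCoprime.pow_left hI

/-- the valuation of a norm at an inert place -/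
theorem dvd_od (hE : Z_Ex) {ℓ : ℕ} (v : Pl L)
    (h : ∀ A : Ideal (𝓞 M), A ≠ ⊥ → ℓ ∣ cnt v (Ideal.relNorm (𝓞 L) A)) {δ : M}
    (hδ : Algebra.norm L δ ≠ 0) : (ℓ : ℤ) ∣ od v (Algebra.norm L δ) := by
  have h1 : ∀ a : 𝓞 M, a ≠ 0 → Algebra.norm L (a : M) ≠ 0 ∧
      (ℓ : ℤ) ∣ od v (Algebra.norm L (a : M)) := fun a ha => by
    obtain ⟨a', e1, e2⟩ := (hE L M).2.2.2.2 a
    have h0 : Algebra.norm L (a : M) ≠ 0 := Algebra.norm_ne_zero_iff.2 (by simpa using ha)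
    have h2 : a' ≠ 0 := by
      rintro rfl
      exact h0 (e1.symm.trans (by simp))
    refine ⟨h0, ?_⟩
    rw [← e1, od_coe v h2, ← e2]
    exact Int.natCast_dvd_natCast.2 (h _ (by simpa using ha))
  obtain ⟨a, m, hm, rfl⟩ := IsFractionRing.div_surjective (A := 𝓞 M) δ
  have hm' : m ≠ 0 := nonZeroDivisors.ne_zero hm
  have ha : a ≠ 0 := by
    rintro rfl
    exact hδ (by simp)
  have e : Algebra.norm L (algebraMap (𝓞 M) M a / algebraMap (𝓞 M) M m) * Algebra.norm L (m : M) =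
      Algebra.norm L (a : M) := by
    rw [← map_mul]
    exact congrArg _ (div_mul_cancel₀ _ (by simpa using hm'))
  have e2 := congrArg (od v) e
  rw [od_mul v hδ (h1 m hm').1] at e2
  rw [eq_sub_of_add_eq e2]
  exact dvd_sub (h1 a ha).2 (h1 m hm').2

end WRP

open WRP in
theorem p_wr (h : T1) (hK : Z_KP) (hF : Z_FI) (hA : Z_AR) : Z_WR := by
  intro L _ _ ℓ n b c v₀ hL hℓ hn hln hb hc h0 hod hLP hv
  have hnp : ¬ ∃ z : L, b = z ^ ℓ := by
    rintro ⟨z, rfl⟩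
    exact hLP (LP.pow_self v₀ hℓ.prime.ne_zero fun e => hb (by rw [e, zero_pow hℓ.prime.ne_zero]))
  obtain ⟨M, _, _, _, _, β, hKum, hNV⟩ := h.kum L ℓ b hL hℓ hnp
  have hKP := hK L M ℓ b β hL hℓ hKum
  have hram : ∀ (v : Pl L) (𝔓 : Ideal (𝓞 M)), 𝔓.IsMaximal → RamP L 𝔓 → Und v 𝔓 →
      Dv n v ∧ LN ℓ v b c := fun v 𝔓 a1 a2 a3 => by
    have a4 := ((hKP v).1 𝔓 a1 a2 a3).1
    have a5 : Dv n v := by
      by_contra e
      exact a4.elim (fun a => e (a.of_dvd hln)) fun a => a (hod v e)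
    refine ⟨a5, (hv v fun e => h0 (e ▸ a5)).resolve_right fun e => ?_⟩
    exact a4.elim e.1 fun a => a e.2.1
  obtain ⟨j, χ, hj, hχ, hnt, htr, hαβ⟩ := hF L M n hL (hKum.fin ▸ hℓ) hn fun 𝔓 a1 a2 => by
    obtain ⟨v, e, -, hu, -⟩ := (h.ex L M).1 ⟨𝔓, a1.isPrime,
      Ring.ne_bot_of_isMaximal_of_not_isField a1 (RingOfIntegers.not_isField M)⟩
    have a3 : (n : 𝓞 L) ∈ v.asIdeal := (hram v 𝔓 a1 a2 hu).1
    rw [hu, Ideal.mem_comap, map_natCast] at a3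
    exact a3
  have hN : 2 ≤ n ^ j := hn.trans (Nat.le_self_pow (by omega) n)
  have hne : χ v₀.asIdeal ≠ 1 := hA L M ℓ (n ^ j) b β χ v₀ hL hℓ hKum hN hχ hnt htr
    (fun e => h0 ((dv_pow v₀ hj).1 e)) (fun e => h0 (e.of_dvd hln)) (hod v₀ h0) hLP
  have hpw : ∀ v : Pl L, ¬ Dv (n ^ j) v → χ v.asIdeal ^ ℓ = 1 := fun v a => by
    rw [← hKum.fin]
    exact pow_eq htr ((cop_prime_iff v).2 a)
  have hzp : ∀ (v : Pl L) (m : ℤ), ¬ Dv (n ^ j) v → (ℓ : ℤ) ∣ m → χ v.asIdeal ^ m = 1 := by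
    rintro v _ a ⟨m, rfl⟩
    rw [zpow_mul, zpow_natCast, hpw v a, one_zpow]
  have key : ∀ c' : L, NV ℓ b c' → c' ≠ 0 → ∀ v : Pl L, ¬ Dv (n ^ j) v →
      χ v.asIdeal ^ od v c' = 1 := fun c' a1 a2 v a3 => by
    have a4 : ¬ Dv n v := fun e => a3 ((dv_pow v hj).2 e)
    have a5 : ¬ Dv ℓ v := fun e => a4 (e.of_dvd hln)
    by_cases a6 : LP ℓ v b
    · obtain ⟨w, hw⟩ := ((hKP v).2.1 a5 a6).1
      have a7 : χ v.asIdeal = 1 := by
        rw [← hw]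
        refine htr _ ((cop_rel (E := L)).1 ?_)
        rw [hw]
        exact (cop_prime_iff v).2 a3
      rw [a7, one_zpow]
    · obtain ⟨δ, rfl⟩ := (hNV c').1 a1
      exact hzp v _ a3 (dvd_od h.ex v ((hKP v).2.2 a5 (hod v a4) a6).1 a2)
  obtain ⟨P, p1, p2, p3⟩ := glob h.wa hℓ hn hc hj fun v a =>
    (hv v fun e => h0 (e ▸ a)).imp_right fun e => e.2.2
  obtain ⟨α, β', q1, q2, q3⟩ := (h.wa L).2.2.2.2.2.1 n (c / P) (by omega) fun v a => (p3 v a).1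
  have q4 : β' ≠ 0 := by
    rintro rfl
    exact not_unit_nat hn (isCoprime_zero_left.1 q2)
  have q5 : (α : L) / β' = c / P := by
    rw [← q3, mul_div_cancel_right₀ _ (by simpa using q4)]
  have q6 := hαβ α β' q1 q2 fun v 𝔓 a1 a2 a3 => ⟨1, by
    rw [map_one, div_one, q5]
    exact (p3 v (hram v 𝔓 a1 a2 a3).1).2 (hram v 𝔓 a1 a2 a3).2⟩
  obtain ⟨χt, x1, x2, x3⟩ := h.ext L (n ^ j) χ hN hχ.toIsChar
  have r1 : IsCoprime α ((n ^ j : ℕ) : 𝓞 L) := by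
    rw [Nat.cast_pow]
    exact q1.pow_right
  have r2 : IsCoprime β' ((n ^ j : ℕ) : 𝓞 L) := by
    rw [Nat.cast_pow]
    exact q2.pow_right
  have r3 : χt (c / P) = 1 := by
    have e := congrArg χt q3
    rw [map_mul, x1 α r1, x1 β' r2, q6] at e
    exact (mul_eq_right₀ (hχ.ne_zero ((Ideal.isCoprime_span_singleton_iff _ _).2 r2))).1 e
  have r4 : χt c = 1 := by
    rw [← div_mul_cancel₀ c p2, map_mul, r3, x2 P p2 (key P p1 p2), one_mul]
  rw [x3 c v₀ hc (fun e => h0 ((dv_pow v₀ hj).1 e)) fun v a1 a2 => ?_] at r4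
  · have : Fact ℓ.Prime := ⟨hℓ.prime⟩
    have r5 : IsPrimitiveRoot (χ v₀.asIdeal) ℓ :=
      orderOf_eq_prime (hpw v₀ fun e => h0 ((dv_pow v₀ hj).1 e)) hne ▸ IsPrimitiveRoot.orderOf _
    exact (r5.zpow_eq_one_iff_dvd _).1 r4
  · rcases hv v a1 with a | a
    · obtain ⟨c', b1, b2, -, b3⟩ := a.exists_od
      rw [b3]
      exact key c' b1 b2 v a2
    · exact hzp v _ a2 a.2.2

end Pool.Agent.P.MP_b8021b_nt.BS.CF
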