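import Pool.Agent.P.MP_b8021b_nt.BS.CF.Bund

/-! Extension of a character of ideals to the elements of the field. -/

namespace Pool.Agent.P.MP_b8021b_nt.BS.CF

open NumberField IsDedekindDomain Polynomial Finset
open Pool.Agent.P.MP_b8021b_nt Pool.Agent.P.MP_b8021b_nt.VE Pool.Agent.P.MP_b8021b_nt.VC
open scoped Classical

set_option linter.unusedSectionVars false

namespace ExtP

noncomputable section

variable {L : Type} [Field L] [NumberField L] {n : ℕ} {χ : Ideal (𝓞 L) →* ℂ}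

/-- the local factor -/
def lf (n : ℕ) (χ : Ideal (𝓞 L) →* ℂ) (v : Pl L) (k : ℤ) : ℂ :=
  if Dv n v then 1 else χ v.asIdeal ^ k

theorem lf_zero (v : Pl L) : lf n χ v 0 = 1 := by
  unfold lf
  split_ifs <;> simp

theorem lf_add (h : IsChar n χ) (v : Pl L) (k l : ℤ) :
    lf n χ v (k + l) = lf n χ v k * lf n χ v l := by
  unfold lf
  split_ifs with hv
  · simp
  · have h1 := h.norm_cop _ ((cop_prime_iff v).2 hv)
    exact zpow_add₀ (fun e => by simp [e] at h1) k l

theorem lf_of {v : Pl L} (hv : ¬ Dv n v) (k : ℤ) : lf n χ v k = χ v.asIdeal ^ k := if_neg hv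

theorem lf_dv {v : Pl L} (hv : Dv n v) (k : ℤ) : lf n χ v k = 1 := if_pos hv

theorem fin_supp (f : Pl L → ℤ) (hf : {v | f v ≠ 0}.Finite) :
    (Function.mulSupport fun v => lf n χ v (f v)).Finite := by
  refine hf.subset fun v hv e => hv ?_
  show lf n χ v (f v) = 1
  rw [e, lf_zero]

theorem prod_add (h : IsChar n χ) (f g : Pl L → ℤ) (hf : {v | f v ≠ 0}.Finite)
    (hg : {v | g v ≠ 0}.Finite) :
    ∏ᶠ v, lf n χ v (f v + g v) = (∏ᶠ v, lf n χ v (f v)) * ∏ᶠ v, lf n χ v (g v) := by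
  rw [← finprod_mul_distrib (fin_supp f hf) (fin_supp g hg)]
  exact finprod_congr fun v => lf_add h v _ _

theorem finite_cnt {I : Ideal (𝓞 L)} (hI : I ≠ ⊥) : {v : Pl L | (cnt v I : ℤ) ≠ 0}.Finite := by
  refine (Ideal.finite_factors (I := I) hI).subset fun v hv => ?_
  have h1 : cnt v I ≠ 0 := fun e => hv (by simp [e])
  have h2 : I ≤ v.asIdeal := not_not.1 fun e => h1 ((cnt_eq_zero v).2 e)
  exact Ideal.dvd_iff_le.2 h2

theorem cop_ne_bot (hn : 2 ≤ n) {I : Ideal (𝓞 L)} (hI : Cop n I) : I ≠ ⊥ := by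
  rintro rfl
  have h := Ideal.isCoprime_iff_sup_eq.1 hI
  rw [bot_sup_eq] at h
  exact not_unit_nat hn (Ideal.span_singleton_eq_top.1 h)

theorem prod_cnt (hn : 2 ≤ n) (h : IsChar n χ) (I : Ideal (𝓞 L)) (hI : Cop n I) :
    ∏ᶠ v, lf n χ v (cnt v I) = χ I := by
  refine cop_induction (P := fun I => ∏ᶠ v, lf n χ v (cnt v I) = χ I) hn ?_ ?_ I hI
  · have h1 : χ ⊤ = 1 := by rw [← Ideal.one_eq_top, map_one]
    rw [h1]
    refine finprod_eq_one_of_forall_eq_one fun v => ?_
    rw [(cnt_eq_zero v).2 fun e => v.isPrime.ne_top (top_le_iff.1 e), Nat.cast_zero, lf_zero]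
  · intro w J hw hJ ih
    have hJ0 := cop_ne_bot hn hJ
    have e : ∀ v : Pl L, ((cnt v (w.asIdeal * J) : ℕ) : ℤ) = cnt v w.asIdeal + cnt v J := fun v => by
      rw [cnt_mul v w.ne_bot hJ0, Nat.cast_add]
    simp only [e]
    rw [prod_add h _ _ (finite_cnt w.ne_bot) (finite_cnt hJ0), ih, map_mul,
      finprod_eq_single _ w fun v hv => by rw [cnt_ne v hv, Nat.cast_zero, lf_zero],
      cnt_self, lf_of hw, Nat.cast_one, zpow_one]

/-- the extension -/
def exc (h : IsChar n χ) : L →*₀ ℂ where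
  toFun x := if x = 0 then 0 else ∏ᶠ v, lf n χ v (od v x)
  map_zero' := if_pos rfl
  map_one' := by
    rw [if_neg one_ne_zero]
    exact finprod_eq_one_of_forall_eq_one fun v => by rw [od_one, lf_zero]
  map_mul' x y := by
    rcases eq_or_ne x 0 with rfl | hx
    · simp
    rcases eq_or_ne y 0 with rfl | hy
    · simp
    rw [if_neg hx, if_neg hy, if_neg (mul_ne_zero hx hy),
      ← prod_add h _ _ (finite_od x) (finite_od y)]
    exact finprod_congr fun v => by rw [od_mul v hx hy]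

theorem ex_apply (h : IsChar n χ) {x : L} (hx : x ≠ 0) : exc h x = ∏ᶠ v, lf n χ v (od v x) :=
  if_neg hx

end

end ExtP

open ExtP in
theorem p_ext : Z_Ext := by
  intro L _ _ n χ hn h
  refine ⟨exc h, fun α hα => ?_, fun x hx hv => ?_, fun x v₀ hx h₀ hv => ?_⟩
  · have hc : Cop n (Ideal.span {α}) := (Ideal.isCoprime_span_singleton_iff _ _).2 hα
    have h0 : α ≠ 0 := fun e => cop_ne_bot hn hc (by simp [e])
    rw [ex_apply h (x := (α : L)) (by simpa using h0), ← prod_cnt hn h _ hc]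
    exact finprod_congr fun v => by rw [od_coe v h0]
  · rw [ex_apply h hx]
    refine finprod_eq_one_of_forall_eq_one fun v => ?_
    by_cases e : Dv n v
    · exact lf_dv e _
    · rw [lf_of e, hv v e]
  · rw [ex_apply h hx, finprod_eq_single _ v₀, lf_of h₀]
    intro v hne
    by_cases e : Dv n v
    · exact lf_dv e _
    · rw [lf_of e, hv v hne e]

end Pool.Agent.P.MP_b8021b_nt.BS.CF
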