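import Pool.Agent.P.MP_b8021b_nt.BS.CF.Bund
import Pool.Agent.P.MP_b8021b_nt.VC.PDen

/-! The L-series of a ray class character whose square is not trivial does not vanish at one. -/

namespace Pool.Agent.P.MP_b8021b_nt.BS.CF

open NumberField IsDedekindDomain Finset MeasureTheory Filter Topology
open Pool.Agent.P.MP_b8021b_nt Pool.Agent.P.MP_b8021b_nt.VE Pool.Agent.P.MP_b8021b_nt.VC
open scoped Classical

namespace NVcP

theorem ker {s t ε : ℝ} (s1 : 1 < s) (t1 : 1 < t) (hε : 0 < ε) :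
    |s * t ^ (-(s + 1)) - t ^ (-(2 : ℝ))| ≤ (s - 1) * ((1 + 1 / ε) * t ^ (ε - 2)) := by
  have t0 : 0 < t := by linarith
  have h1 : t ^ (-(s + 1)) = t ^ (-(2 : ℝ)) * Real.exp (-((s - 1) * Real.log t)) := by
    rw [Real.rpow_def_of_pos t0, Real.rpow_def_of_pos t0, ← Real.exp_add]
    congr 1
    ring
  have h2 : t ^ (ε - 2) = t ^ (-(2 : ℝ)) * t ^ ε := by
    rw [← Real.rpow_add t0]
    congr 1
    ring
  have l0 : 0 ≤ Real.log t := Real.log_nonneg t1.le
  have l1 : Real.log t ≤ t ^ ε / ε := Real.log_le_rpow_div t0.le hε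
  have l2 : 1 ≤ t ^ ε := Real.one_le_rpow t1.le hε.le
  have e1 := Real.add_one_le_exp (-((s - 1) * Real.log t))
  have e2 : Real.exp (-((s - 1) * Real.log t)) ≤ 1 :=
    Real.exp_le_one_iff.2 (by nlinarith [mul_nonneg (sub_pos.2 s1).le l0])
  have e3 := Real.exp_pos (-((s - 1) * Real.log t))
  have p0 : 0 < t ^ (-(2 : ℝ)) := by positivity
  have h3 : |s * Real.exp (-((s - 1) * Real.log t)) - 1| ≤ (s - 1) * ((1 + 1 / ε) * t ^ ε) := by
    have h4 : 1 + Real.log t ≤ (1 + 1 / ε) * t ^ ε := by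
      rw [add_mul, one_mul, one_div, ← div_eq_inv_mul]
      linarith
    have h5 := mul_le_mul_of_nonneg_left h4 (sub_pos.2 s1).le
    rw [abs_le]
    constructor <;> nlinarith [mul_nonneg (sub_pos.2 s1).le l0, mul_nonneg (sub_pos.2 s1).le e3.le,
      mul_le_mul_of_nonneg_left e2 (sub_pos.2 s1).le]
  rw [h1, h2, show s * (t ^ (-(2 : ℝ)) * Real.exp (-((s - 1) * Real.log t))) - t ^ (-(2 : ℝ)) =
    t ^ (-(2 : ℝ)) * (s * Real.exp (-((s - 1) * Real.log t)) - 1) by ring, abs_mul, abs_of_pos p0]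
  calc _ ≤ t ^ (-(2 : ℝ)) * ((s - 1) * ((1 + 1 / ε) * t ^ ε)) :=
        mul_le_mul_of_nonneg_left h3 p0.le
    _ = _ := by ring

/-- the series has a limit at one and is Lipschitz there -/
theorem lip {a : ℕ → ℂ} {K θ : ℝ} (h0 : 0 ≤ θ) (h1 : θ < 1)
    (h : ∀ X : ℕ, ‖∑ j ∈ Icc 1 X, a j‖ ≤ K * (X : ℝ) ^ θ) :
    ∃ (z : ℂ) (C : ℝ), 0 < C ∧ ∀ s : ℝ, 1 < s → LSeriesSummable a s →
      ‖LSeries a s - z‖ ≤ C * (s - 1) := by
  have hK : 0 ≤ K := by simpa using (norm_nonneg _).trans (h 1)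
  set A : ℝ → ℂ := fun t => ∑ j ∈ Icc 1 ⌊t⌋₊, a j with hA
  have mA : Measurable A := (measurable_of_countable fun X : ℕ => ∑ j ∈ Icc 1 X, a j).comp
    Nat.measurable_floor
  have bA : ∀ t : ℝ, 1 < t → ‖A t‖ ≤ K * t ^ θ := fun t t1 =>
    (h _).trans (mul_le_mul_of_nonneg_left
      (Real.rpow_le_rpow (by positivity) (Nat.floor_le (by linarith)) h0) hK)
  have iA : ∀ u : ℝ, 2 ≤ u → IntegrableOn (fun t : ℝ => A t * ((t ^ (-u) : ℝ) : ℂ))
      (Set.Ioi 1) := fun u hu => by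
    refine Integrable.mono' ((integrableOn_Ioi_rpow_of_lt (a := θ - 2) (by linarith)
      one_pos).const_mul K) (mA.mul (Complex.measurable_ofReal.comp
        (measurable_id.pow_const _))).aestronglyMeasurable ?_
    filter_upwards [ae_restrict_mem measurableSet_Ioi] with t ht
    have t1 : (1 : ℝ) < t := ht
    have t0 : (0 : ℝ) < t := by linarith
    rw [norm_mul, Complex.norm_real, Real.norm_of_nonneg (by positivity), sub_eq_add_neg,
      Real.rpow_add t0, ← mul_assoc]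
    exact mul_le_mul (bA t t1) (Real.rpow_le_rpow_of_exponent_le t1.le (by linarith))
      (by positivity) (by positivity)
  set ε : ℝ := (1 - θ) / 2 with hε
  have ε0 : 0 < ε := by rw [hε]; linarith
  have iB : IntegrableOn (fun t : ℝ => K * (1 + 1 / ε) * t ^ (θ + (ε - 2))) (Set.Ioi 1) :=
    (integrableOn_Ioi_rpow_of_lt (by rw [hε]; linarith) one_pos).const_mul _
  refine ⟨∫ t in Set.Ioi (1 : ℝ), A t * ((t ^ (-(2 : ℝ)) : ℝ) : ℂ),
    |∫ t in Set.Ioi (1 : ℝ), K * (1 + 1 / ε) * t ^ (θ + (ε - 2))| + 1, by positivity,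
    fun s s1 hs => ?_⟩
  have e1 : ∫ t in Set.Ioi (1 : ℝ), A t * (t : ℂ) ^ (-((s : ℂ) + 1)) =
      ∫ t in Set.Ioi (1 : ℝ), A t * ((t ^ (-(s + 1)) : ℝ) : ℂ) := by
    refine setIntegral_congr_fun measurableSet_Ioi fun t ht => ?_
    have t1 : (1 : ℝ) < t := ht
    rw [Complex.ofReal_cpow (by linarith)]
    push_cast
    rfl
  rw [LSeries_eq_mul_integral a h0 (by simpa using h1.trans s1) hs
    (Asymptotics.IsBigO.of_bound K (Eventually.of_forall fun X => by
      rw [Real.norm_of_nonneg (by positivity)]; exact h X))]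
  change ‖(s : ℂ) * (∫ t in Set.Ioi (1 : ℝ), A t * (t : ℂ) ^ (-((s : ℂ) + 1))) - _‖ ≤ _
  rw [e1, ← integral_const_mul, ← integral_sub ((iA _ (by linarith)).const_mul _) (iA 2 le_rfl)]
  refine le_trans (norm_integral_le_of_norm_le (iB.const_mul (s - 1)) ?_) ?_
  · filter_upwards [ae_restrict_mem measurableSet_Ioi] with t ht
    have t1 : (1 : ℝ) < t := ht
    have t0 : (0 : ℝ) < t := by linarith
    rw [show (s : ℂ) * (A t * ((t ^ (-(s + 1)) : ℝ) : ℂ)) - A t * ((t ^ (-(2 : ℝ)) : ℝ) : ℂ) =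
      A t * ((s * t ^ (-(s + 1)) - t ^ (-(2 : ℝ)) : ℝ) : ℂ) by push_cast; ring, norm_mul,
      Complex.norm_real, Real.norm_eq_abs, Real.rpow_add t0]
    calc _ ≤ (K * t ^ θ) * ((s - 1) * ((1 + 1 / ε) * t ^ (ε - 2))) :=
          mul_le_mul (bA t t1) (ker s1 t1 ε0) (abs_nonneg _) (by positivity)
      _ = _ := by ring
  · rw [integral_const_mul, mul_comm]
    exact mul_le_mul_of_nonneg_right ((le_abs_self _).trans (le_add_of_nonneg_right zero_le_one))
      (sub_pos.2 s1).le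

theorem pos341 {z : ℂ} (hz : ‖z‖ = 1) : 0 ≤ 3 + 4 * z.re + (z ^ 2).re := by
  have h : z.re * z.re + z.im * z.im = 1 := by
    rw [← Complex.normSq_apply, Complex.normSq_eq_norm_sq, hz, one_pow]
  rw [sq, Complex.mul_re]
  nlinarith [sq_nonneg (1 + z.re)]

end NVcP

open NVcP in
theorem p_nvc (h : T1) : Z_NVc := by
  intro L _ _ n χ hL hn hχ ⟨I, hI, hI2⟩
  have hI1 : ¬ IsTriv n χ := fun e => hI2 (by rw [e I hI, one_pow])
  have hI3 : ¬ IsTriv n (χ ^ 2) := fun e => hI2 (by simpa using e I hI)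
  have b1 := DS.norm_le_one hχ.toIsChar
  obtain ⟨K, η, η0, hK⟩ := h.i.ps L hL n χ hn hχ hI1
  have K0 : 0 ≤ K := by simpa using (norm_nonneg _).trans (hK 1)
  obtain ⟨z, C, C0, hC⟩ := lip (a := lam χ) (K := K) (θ := 1 - min η (1 / 2))
    (by linarith [min_le_right η (1 / 2)]) (by linarith [lt_min η0 one_half_pos]) fun X => by
      rcases Nat.eq_zero_or_pos X with rfl | hX
      · simp only [Nat.cast_zero, zero_lt_one, Icc_eq_empty_of_lt, sum_empty, norm_zero]
        positivity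
      · exact (hK X).trans (mul_le_mul_of_nonneg_left (Real.rpow_le_rpow_of_exponent_le
          (by exact_mod_cast hX) (by linarith [min_le_left η (1 / 2)])) K0)
  replace hC := fun (s : ℝ) (s1 : 1 < s) => hC s s1 (h.i.ep L χ s b1 s1).1
  obtain ⟨C1, c1⟩ := Den.cmp h.i.ep χ b1
  rcases eq_or_ne z 0 with rfl | hz
  · exfalso
    have u1 : DS.Up (fun q => (lam χ q).re) (-1) := by
      refine ⟨DS.re_bdd h.i.hl hχ.toIsChar, C1 + Real.log C, fun s s1 _ => ?_⟩
      obtain ⟨c2, c3⟩ := c1 s s1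
      have c4 := Real.log_le_log (norm_pos_iff.2 c2) (by simpa using hC s s1)
      rw [Real.log_mul C0.ne' (sub_pos.2 s1).ne'] at c4
      rw [one_div, Real.log_inv]
      change dsum (lam χ) s ≤ _
      linarith [(abs_le.1 c3).2]
    have u2 := (((h.i.up1 L hL n hn).1.mul (c := 3) (by norm_num)).add
      (u1.mul (c := 4) (by norm_num))).add (h.i.up2 L hL n _ hn (hχ.pow one_le_two) hI3)
    have u3 := u2.nonneg one_ne_zero fun q _ _ => by
      simp only [DS.lam_eq, Complex.re_sum, mul_sum, ← sum_add_distrib]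
      refine sum_nonneg fun J _ => ?_
      by_cases c : Cop n J
      · simpa [DS.triv_apply, c] using pos341 (hχ.norm_cop J c)
      · simp [DS.triv_apply, c, hχ.zero J c]
    norm_num at u3
  · have z0 : 0 < ‖z‖ := norm_pos_iff.2 hz
    have u1 : 1 < 1 + ‖z‖ / (2 * C) := lt_add_of_pos_right _ (by positivity)
    obtain ⟨C2, c2⟩ := Den.far h.i.ep b1 u1
    refine ⟨max C2 (C1 - Real.log (‖z‖ / 2)), fun s s1 _ => ?_⟩
    rcases le_total s (1 + ‖z‖ / (2 * C)) with hs | hs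
    · have c3 : C * (s - 1) ≤ ‖z‖ / 2 := by
        calc C * (s - 1) ≤ C * (‖z‖ / (2 * C)) := mul_le_mul_of_nonneg_left (by linarith) C0.le
          _ = _ := by field_simp
      have c4 : ‖z‖ / 2 ≤ ‖LSeries (lam χ) s‖ := by
        have := norm_sub_norm_le z (LSeries (lam χ) s)
        rw [norm_sub_rev] at this
        linarith [hC s s1]
      have c5 := Real.log_le_log (by positivity) c4
      linarith [(abs_le.1 (c1 s s1).2).1, le_max_right C2 (C1 - Real.log (‖z‖ / 2))]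
    · linarith [(abs_le.1 (c2 s hs)).1, le_max_left C2 (C1 - Real.log (‖z‖ / 2))]

end Pool.Agent.P.MP_b8021b_nt.BS.CF
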