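import Pool.Agent.P.MP_b8021b_nt.BS.CF.Bund

/-! A character that kills the norms from two independent fields is trivial. -/

namespace Pool.Agent.P.MP_b8021b_nt.BS.CF

open NumberField IsDedekindDomain Polynomial Finset
open Pool.Agent.P.MP_b8021b_nt Pool.Agent.P.MP_b8021b_nt.VE Pool.Agent.P.MP_b8021b_nt.VC
open scoped Classical

namespace AR2P

section

variable {L M : Type} [Field L] [NumberField L] [Field M] [NumberField M] [Algebra L M]

/-- sums over the primes of degree one of an extension -/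
theorem kd_real (hI : IFace) {q : ℕ} (hq : q.Prime) (f : Ideal (𝓞 L) → ℝ) :
    ∑ P ∈ DS.idl M q, f (Ideal.relNorm (𝓞 L) P) =
      ∑ p ∈ DS.idl L q, ((Over M q p).ncard : ℝ) * f p := by
  have h := (hI.kd L M q hq).1 fun I => (f I : ℂ)
  rw [DS.lam_eq, DS.finsum_idl] at h
  exact_mod_cast h

theorem card_idl (hI : IFace) {q : ℕ} (hq : q.Prime) :
    ((DS.idl M q).card : ℝ) = ∑ p ∈ DS.idl L q, ((Over M q p).ncard : ℝ) := by
  simpa using kd_real (L := L) (M := M) hI hq fun _ => 1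

/-- the trivial character counts all the ideals of norm `q` -/
theorem lam_triv {m q : ℕ} (hq : q.Prime) (hm : ¬ q ∣ m) :
    (lam (triv L m) q).re = (DS.idl L q).card := by
  have : ∀ I ∈ DS.idl L q, triv L m I = 1 := fun I hI => by
    have h1 := DS.mem_idl.1 hI
    obtain ⟨v, rfl⟩ := exists_pl (I := I) (h1 ▸ hq)
    refine triv_cop ((cop_prime_iff v).2 fun hv => hm ?_)
    rw [← h1]
    exact (dv_iff_of_prime (h1 ▸ hq)).1 hv
  rw [DS.lam_eq, sum_congr rfl this]
  simp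

/-- the values of a character that kills the norms are roots of unity -/
theorem pow_eq_one {N : ℕ} {χ : Ideal (𝓞 L) →* ℂ} (hM : IsTriv N (nrm M χ)) {I : Ideal (𝓞 L)}
    (hI : Cop N I) : χ I ^ Module.finrank L M = 1 := by
  have h1 : Cop N (I.map (algebraMap (𝓞 L) (𝓞 M))) := by
    have := IsCoprime.map hI (Ideal.mapHom (algebraMap (𝓞 L) (𝓞 M)))
    simpa [Cop, Ideal.map_span] using this
  have h2 : χ (Ideal.relNorm (𝓞 L) (I.map (algebraMap (𝓞 L) (𝓞 M)))) = 1 := hM _ h1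
  rwa [Ideal.relNorm_algebraMap, ← IsFractionRing.finrank_eq (𝓞 L) L (𝓞 M) M, map_pow] at h2

theorem root_nonneg {ℓ : ℕ} (hℓ : El ℓ) {z : ℂ} (hz : z ^ ℓ = 1) :
    0 ≤ 1 + ((ℓ : ℝ) - 1) * z.re := by
  rcases hℓ with rfl | ⟨rfl, hF⟩
  · have h : ‖z‖ = 1 := by
      have := congrArg norm hz
      rw [norm_pow, norm_one] at this
      exact (pow_eq_one_iff_of_nonneg (norm_nonneg z) two_ne_zero).1 this
    have := (abs_le.1 (Complex.abs_re_le_norm z)).1
    push_cast
    linarith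
  · have h : (z - 1) * (z ^ 2 + z + 1) = 0 := by linear_combination hz
    rcases mul_eq_zero.1 h with h | h
    · rw [sub_eq_zero.1 h]
      norm_num
    · have h1 := congrArg Complex.re h
      have h2 := congrArg Complex.im h
      simp [pow_two] at h1 h2
      have h3 : z.im * (2 * z.re + 1) = 0 := by linarith
      push_cast
      rcases mul_eq_zero.1 h3 with h3 | h3
      · rw [h3] at h1
        nlinarith [sq_nonneg (2 * z.re + 1)]
      · linarith

/-- a prime of degree one lies over a prime of degree one -/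
theorem under_one (hE : Z_Ex) (w : Pl M) (hq : (Ideal.absNorm w.asIdeal).Prime) :
    ∃ v : Pl L, Und v w.asIdeal ∧ Ideal.relNorm (𝓞 L) w.asIdeal = v.asIdeal ∧
      Ideal.absNorm v.asIdeal = Ideal.absNorm w.asIdeal := by
  obtain ⟨h1, -, h3, -⟩ := hE L M
  obtain ⟨v, -, -, hv, -⟩ := h1 w
  obtain ⟨f, -, e1, e2, -⟩ := h3 v w hv
  have hf : f = 1 := (e2 ▸ hq : (Ideal.absNorm v.asIdeal ^ f).Prime).eq_one_of_pow
  subst hf
  exact ⟨v, hv, by simpa using e1, by simpa using e2.symm⟩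

/-- the number of primes of degree one over a prime of degree one -/
theorem over_card (hK : Z_KP) [IsGalois L M] {ℓ : ℕ} {b : L} {β : M} (hL : Om L) (hℓ : El ℓ)
    (hb : Kum ℓ b β) {v : Pl L} (hq : (Ideal.absNorm v.asIdeal).Prime) (h1 : ¬ Dv ℓ v)
    (h2 : od v b = 0) :
    (Over M (Ideal.absNorm v.asIdeal) v.asIdeal).ncard = if LP ℓ v b then ℓ else 0 := by
  obtain ⟨-, k2, k3⟩ := hK L M ℓ b β hL hℓ hb v
  split_ifs with h
  · exact (k2 h1 h).2 hq
  · rw [(k3 h1 (h2 ▸ dvd_zero _) h).2, Set.ncard_empty]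

theorem exists_supp (hW : Z_WA) (x : L) :
    ∃ n : ℕ, n ≠ 0 ∧ ∀ v : Pl L, ¬ Dv n v → od v x = 0 := by
  obtain ⟨-, -, -, -, -, -, h7, -⟩ := hW L
  obtain ⟨n, hn, -, h⟩ := h7 1 x one_ne_zero fun v hv =>
    absurd ((Ideal.eq_top_iff_one _).2 (by simpa [Dv] using hv)) v.isPrime.ne_top
  exact ⟨n, hn, h⟩

end

end AR2P

open AR2P in
theorem p_ar2 (h : T1) (hK : Z_KP) : Z_AR2 := by
  intro L M E _ _ _ _ _ _ _ _ _ ℓ N N' b β χ hL hℓ hb hN hN' hχ hM hE hχE
  by_contra hn
  have hℓ0 : ℓ ≠ 0 := hℓ.prime.ne_zero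
  have hE0 : Om E := hL.map (algebraMap L E)
  have hM0 : Om M := hL.map (algebraMap L M)
  obtain ⟨M', _, _, _, _, β', hb', -⟩ := h.kum E ℓ (algebraMap L E b) hE0 hℓ hE
  have hM0' : Om M' := hE0.map (algebraMap E M')
  obtain ⟨n0, hn0, s0⟩ := exists_supp h.wa b
  obtain ⟨n1, hn1, s1⟩ := exists_supp h.wa (algebraMap L E b)
  obtain ⟨d, hd⟩ : ∃ d : ℝ, d = ((Module.finrank L E : ℕ) : ℝ) := ⟨_, rfl⟩
  have hd0 : 0 ≤ d := hd ▸ Nat.cast_nonneg _
  have hℓ2 : (2 : ℝ) ≤ ℓ := by exact_mod_cast hℓ.prime.two_le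
  have u1 := (h.i.up1 L hL N hN).1
  have u2 := (h.i.up2 L hL N χ hN hχ hn).mul (c := (ℓ : ℝ) - 1) (by linarith)
  have u3 := (h.i.up1 M hM0 N hN).2
  have u4 := (h.i.up1 E hE0 N hN).2.mul (c := (ℓ : ℝ)) (by linarith)
  have u5 := (h.i.up1 M' hM0' N hN).1
  have u := ((((u1.add u2).add u3).mul hd0).add u4).add u5
  have hm : N * N' * ℓ * n0 * n1 ≠ 0 := by positivity
  have key := u.nonneg hm fun q hq hqm => by
    have q1 : ¬ q ∣ N := fun e => hqm (by
      exact (((e.mul_right _).mul_right _).mul_right _).mul_right _)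
    have q2 : ¬ q ∣ N' := fun e => hqm (by
      exact (((e.mul_left _).mul_right _).mul_right _).mul_right _)
    have q3 : ¬ q ∣ ℓ := fun e => hqm (by exact ((e.mul_left _).mul_right _).mul_right _)
    have q4 : ¬ q ∣ n0 := fun e => hqm (by exact (e.mul_left _).mul_right _)
    have q5 : ¬ q ∣ n1 := fun e => hqm (e.mul_left _)
    have nd : ∀ {F : Type} [Field F] [NumberField F] (v : Pl F) {k : ℕ},
        Ideal.absNorm v.asIdeal = q → ¬ q ∣ k → ¬ Dv k v := fun v k e hk hv =>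
      hk (e ▸ (dv_iff_of_prime (e ▸ hq)).1 hv)
    let g : Ideal (𝓞 L) → ℝ := fun p => 1 + ((ℓ : ℝ) - 1) * (χ p).re - (Over M q p).ncard
    have g1 : ∀ v : Pl L, Ideal.absNorm v.asIdeal = q →
        0 ≤ g v.asIdeal ∧ (¬ LP ℓ v b → χ v.asIdeal = 1 → g v.asIdeal = ℓ) := fun v e => by
      have c := over_card hK hL hℓ hb (e ▸ hq) (nd v e q3) (s0 v (nd v e q4))
      rw [e] at c
      by_cases hv : LP ℓ v b
      · refine ⟨?_, fun x => absurd hv x⟩
        obtain ⟨w, hw⟩ := ((hK L M ℓ b β hL hℓ hb v).2.1 (nd v e q3) hv).1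
        have hw1 : Ideal.absNorm w.asIdeal = q := by
          rw [← Ideal.absNorm_relNorm (R := 𝓞 L), hw, e]
        have hc : χ v.asIdeal = 1 := by
          rw [← hw]
          exact hM _ ((cop_prime_iff w).2 (nd w hw1 q1))
        simp only [g, c, if_pos hv, hc, Complex.one_re]
        linarith
      · have r := root_nonneg hℓ (hb.fin ▸ pow_eq_one hM ((cop_prime_iff v).2 (nd v e q1)))
        refine ⟨?_, fun _ hc => ?_⟩
        · simpa only [g, c, if_neg hv, Nat.cast_zero, sub_zero] using r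
        · simp only [g, c, if_neg hv, hc, Complex.one_re]
          push_cast
          ring
    have g0 : ∀ p ∈ DS.idl L q, 0 ≤ g p := fun p hp => by
      have h1 := DS.mem_idl.1 hp
      obtain ⟨v, rfl⟩ := exists_pl (I := p) (h1 ▸ hq)
      exact (g1 v h1).1
    have g2 : ∀ P ∈ DS.idl E q, (ℓ : ℝ) - (Over M' q P).ncard ≤ g (Ideal.relNorm (𝓞 L) P) :=
      fun P hP => by
        have h1 := DS.mem_idl.1 hP
        obtain ⟨w, rfl⟩ := exists_pl (I := P) (h1 ▸ hq)
        obtain ⟨v, a1, a2, a3⟩ := under_one (L := L) h.ex w (h1 ▸ hq)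
        have c := over_card hK hE0 hℓ hb' (h1 ▸ hq) (nd w h1 q3) (s1 w (nd w h1 q5))
        rw [h1] at c a3
        rw [a2, c]
        split_ifs with hw
        · rw [sub_self]
          exact (g1 v a3).1
        · have hc : χ v.asIdeal = 1 := by
            rw [← a2]
            exact hχE _ ((cop_prime_iff w).2 (nd w h1 q2))
          rw [(g1 v a3).2 (fun x => hw ((h.ex L E).2.2.2.1 ℓ v w b a1 x)) hc]
          simp
    have e1 : ∑ P ∈ DS.idl E q, g (Ideal.relNorm (𝓞 L) P) ≤ d * ∑ p ∈ DS.idl L q, g p := by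
      rw [kd_real h.i hq, mul_sum]
      refine sum_le_sum fun p hp => mul_le_mul_of_nonneg_right ?_ (g0 p hp)
      rw [hd]
      exact_mod_cast ((h.i.kd L E q hq).2 p (DS.mem_idl.1 hp)).2.1
    have e2 := (sum_le_sum g2).trans e1
    have e3 : ∑ p ∈ DS.idl L q, g p = (DS.idl L q).card + ((ℓ : ℝ) - 1) * (lam χ q).re -
        (DS.idl M q).card := by
      rw [card_idl (L := L) (M := M) h.i hq, DS.lam_eq, Complex.re_sum, mul_sum]
      simp only [g, sum_sub_distrib, sum_add_distrib, sum_const, nsmul_eq_mul, mul_one]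
    rw [sum_sub_distrib, ← card_idl h.i hq, e3, sum_const, nsmul_eq_mul] at e2
    simp only [lam_triv hq q1]
    linarith
  linarith

end Pool.Agent.P.MP_b8021b_nt.BS.CF
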