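import Pool.Agent.P.MP_b8021b_nt.BS.CF.Bund

/-! An inert prime of degree one in a Kummer extension. -/

namespace Pool.Agent.P.MP_b8021b_nt.BS.CF

open NumberField IsDedekindDomain Polynomial Finset
open Pool.Agent.P.MP_b8021b_nt Pool.Agent.P.MP_b8021b_nt.VE Pool.Agent.P.MP_b8021b_nt.VC
open scoped Classical

namespace C1P

/-- the trivial character counts the ideals of prime norm -/
theorem lam_triv (L : Type) [Field L] [NumberField L] {n q : ℕ} (hq : q.Prime) (hn : ¬ q ∣ n) :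
    lam (triv L n) q = ((DS.idl L q).card : ℂ) := by
  rw [DS.lam_eq, Finset.card_eq_sum_ones, Nat.cast_sum]
  refine Finset.sum_congr rfl fun I hI => ?_
  have e := DS.mem_idl.1 hI
  obtain ⟨v, rfl⟩ := exists_pl (I := I) (e ▸ hq)
  have hv : ¬ Dv n v := fun h => hn (e ▸ (dv_iff_of_prime (e ▸ hq)).1 h)
  rw [DS.triv_apply, if_pos ((cop_prime_iff v).2 hv), Nat.cast_one]

/-- the count when all primes of norm `q` split -/
theorem card_split (hI : IFace) (L M : Type) [Field L] [NumberField L] [Field M] [NumberField M]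
    [Algebra L M] {q ℓ : ℕ} (hq : q.Prime)
    (h : ∀ I : Ideal (𝓞 L), Ideal.absNorm I = q → (Over M q I).ncard = ℓ) :
    ((DS.idl M q).card : ℂ) = ℓ * (DS.idl L q).card := by
  have e := (hI.kd L M q hq).1 fun _ => 1
  rw [DS.lam_eq, DS.finsum_idl] at e
  rw [Finset.sum_const, nsmul_eq_mul, mul_one] at e
  rw [e, Finset.sum_congr rfl fun I hI => by rw [h I (DS.mem_idl.1 hI)], Finset.sum_const,
    nsmul_eq_mul]
  ring

end C1P

theorem p_c1 (h : T1) (hK : Z_KP) : Z_C1 := by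
  intro E _ _ ℓ m y hE hℓ hm hy
  by_contra hc
  push Not at hc
  obtain ⟨M, _, _, _, _, β, hβ, -⟩ := h.kum E ℓ y hE hℓ (by simpa using hy)
  have hM : Om M := hE.map (algebraMap E M)
  have u1 := (h.i.up1 M hM 2 le_rfl).1
  have u2 := ((h.i.up1 E hE 2 le_rfl).2).mul (c := (ℓ : ℝ)) (Nat.cast_nonneg _)
  have hl0 : ℓ ≠ 0 := hℓ.prime.ne_zero
  have key := (u1.add u2).nonneg (m := 2 * (m * ℓ)) (by positivity) fun q hq hd => by
    have h2 : ¬ q ∣ 2 := fun e => hd (e.mul_right _)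
    have h3 : ¬ q ∣ m := fun e => hd ((e.mul_right _).mul_left _)
    have h4 : ¬ q ∣ ℓ := fun e => hd ((e.mul_left _).mul_left _)
    have e := C1P.card_split h.i E M (ℓ := ℓ) hq fun I hI => by
      obtain ⟨v, rfl⟩ := exists_pl (I := I) (hI ▸ hq)
      have hp : (Ideal.absNorm v.asIdeal).Prime := hI ▸ hq
      have a1 : ¬ Dv m v := fun a => h3 (hI ▸ (dv_iff_of_prime hp).1 a)
      have a2 : ¬ Dv ℓ v := fun a => h4 (hI ▸ (dv_iff_of_prime hp).1 a)
      rw [← hI]
      exact ((hK E M ℓ y β hE hℓ hβ v).2.1 a2 (hc v hp a1)).2 hp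
    rw [C1P.lam_triv M hq h2, C1P.lam_triv E hq h2, e]
    simp
  have : (2 : ℝ) ≤ ℓ := by exact_mod_cast hℓ.prime.two_le
  linarith

end Pool.Agent.P.MP_b8021b_nt.BS.CF
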