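import Pool.Agent.P.MP_b8021b_nt.BS.CF.Bund

/-! Many independent units outside `n`. -/

namespace Pool.Agent.P.MP_b8021b_nt.BS.CF

open NumberField IsDedekindDomain Finset NumberField.Units
open scoped Classical

set_option linter.unusedSectionVars false

namespace ES2P

variable {L : Type} [Field L] [NumberField L]

/-- a family of `2 ^ k` units outside `S` that are independent modulo squares -/
def Good (S : Finset (Pl L)) (k : ℕ) : Prop :=
  ∃ Y : Finset L, Y.card = 2 ^ k ∧ (∀ y ∈ Y, y ≠ 0 ∧ ∀ v, v ∉ S → od v y = 0) ∧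
    ∀ y ∈ Y, ∀ y' ∈ Y, (∃ z : L, y * y' = z ^ 2) → y = y'

theorem exists_nonsq (L : Type) [Field L] [NumberField L] :
    ∃ ζ : torsion L, ∀ ξ : torsion L, ξ ^ 2 ≠ ζ := by
  by_contra h
  push Not at h
  have hs : Function.Surjective fun ξ : torsion L => ξ ^ 2 := h
  have hi := Finite.injective_iff_surjective.2 hs
  have h1 : (⟨-1, neg_one_mem_torsion⟩ : torsion L) = 1 := hi (by
    apply Subtype.ext
    simp)
  have h2 : ((-1 : (𝓞 L)ˣ) : 𝓞 L) = 1 := by
    have := congrArg (fun x : torsion L => ((x : (𝓞 L)ˣ) : 𝓞 L)) h1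
    simpa using this
  have h3 : (2 : 𝓞 L) = 0 := by
    rw [Units.val_neg, Units.val_one] at h2
    linear_combination -h2
  exact two_ne_zero h3

theorem od_unit (v : Pl L) (u : (𝓞 L)ˣ) : od v ((u : 𝓞 L) : L) = 0 :=
  od_eq_zero_of_vl v ((vl_coe_eq v _).2 fun h =>
    v.isPrime.ne_top (Ideal.eq_top_of_isUnit_mem _ h u.isUnit))

theorem unit_ne (u : (𝓞 L)ˣ) : ((u : 𝓞 L) : L) ≠ 0 := by simp

theorem exists_unit {z : L} (hz : z ≠ 0) (h : ∀ v : Pl L, od v z = 0) :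
    ∃ u : (𝓞 L)ˣ, ((u : 𝓞 L) : L) = z := by
  have h1 : IsIntegral ℤ z := isIntegral_iff.2 fun v => ((od_eq_zero_iff v hz).1 (h v)).le
  have h2 : IsIntegral ℤ z⁻¹ := isIntegral_iff.2 fun v =>
    ((od_eq_zero_iff v (inv_ne_zero hz)).1 (by rw [od_inv, h v, neg_zero])).le
  refine ⟨⟨⟨z, h1⟩, ⟨z⁻¹, h2⟩, ?_, ?_⟩, rfl⟩
  · apply RingOfIntegers.ext
    exact mul_inv_cancel₀ hz
  · apply RingOfIntegers.ext
    exact inv_mul_cancel₀ hz

theorem base (L : Type) [Field L] [NumberField L] : Good (∅ : Finset (Pl L)) (rank L + 1) := by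
  obtain ⟨ζ, hζ⟩ := exists_nonsq L
  let U : Fin 2 × (Fin (rank L) → Fin 2) → (𝓞 L)ˣ := fun c =>
    ((ζ ^ (c.1 : ℕ) : torsion L) : (𝓞 L)ˣ) * ∏ i, fundSystem L i ^ ((c.2 i : ℕ) : ℤ)
  let F : Fin 2 × (Fin (rank L) → Fin 2) → L := fun c => ((U c : 𝓞 L) : L)
  have key : ∀ c c', (∃ z : L, F c * F c' = z ^ 2) → c = c' := by
    rintro c c' ⟨z, hz⟩
    have hz0 : z ≠ 0 := by
      rintro rfl
      exact mul_ne_zero (unit_ne (U c)) (unit_ne (U c')) (by rw [← zero_pow two_ne_zero]; exact hz)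
    obtain ⟨u, rfl⟩ := exists_unit hz0 fun v => by
      have h1 := congrArg (od v) hz
      rw [od_mul v (unit_ne _) (unit_ne _), od_unit, od_unit, od_pow] at h1
      omega
    have h2 : U c * U c' = u ^ 2 := by
      apply Units.ext
      apply RingOfIntegers.ext
      simpa using hz
    obtain ⟨⟨ξ, e⟩, h3, -⟩ := exist_unique_eq_mul_prod L u
    obtain ⟨_, -, h4⟩ := exist_unique_eq_mul_prod L (u ^ 2)
    have h5 := h4 (ξ ^ 2, fun i => 2 * e i) (by
      dsimp only at h3 ⊢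
      rw [h3, mul_pow, ← prod_pow]
      congr 1
      refine prod_congr rfl fun i _ => ?_
      rw [mul_comm, zpow_mul, zpow_ofNat])
    have h6 := h4 (ζ ^ ((c.1 : ℕ) + (c'.1 : ℕ)), fun i => ((c.2 i : ℕ) : ℤ) + ((c'.2 i : ℕ) : ℤ)) (by
      dsimp only
      rw [← h2]
      simp only [U, zpow_add, prod_mul_distrib, pow_add, Subgroup.coe_mul]
      exact mul_mul_mul_comm _ _ _ _)
    obtain ⟨h7, h8⟩ := Prod.mk.inj (h5.trans h6.symm)
    refine Prod.ext ?_ (funext fun i => ?_)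
    · by_contra hne
      have h9 : (c.1 : ℕ) + (c'.1 : ℕ) = 1 := by
        have := c.1.2
        have := c'.1.2
        have : (c.1 : ℕ) ≠ c'.1 := fun e => hne (Fin.ext e)
        omega
      rw [h9, pow_one] at h7
      exact hζ ξ h7
    · have h9 := congrFun h8 i
      have := (c.2 i).2
      have := (c'.2 i).2
      exact Fin.ext (by omega)
  refine ⟨univ.image F, ?_, ?_, ?_⟩
  · rw [card_image_of_injective _ fun c c' e => key c c' ⟨F c', by rw [e, sq]⟩]
    simp [pow_succ']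
  · intro y hy
    obtain ⟨c, -, rfl⟩ := mem_image.1 hy
    exact ⟨unit_ne _, fun v _ => od_unit v _⟩
  · intro y hy y' hy' h
    obtain ⟨c, -, rfl⟩ := mem_image.1 hy
    obtain ⟨c', -, rfl⟩ := mem_image.1 hy'
    rw [key c c' h]

theorem exists_gen (v : Pl L) : ∃ x : L, x ≠ 0 ∧ od v x ≠ 0 ∧ ∀ w, w ≠ v → od w x = 0 := by
  have h0 : v.asIdeal ∈ nonZeroDivisors (Ideal (𝓞 L)) := mem_nonZeroDivisors_of_ne_zero v.ne_bot
  have hc : 0 < Nat.card (ClassGroup (𝓞 L)) := Nat.card_pos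
  have h1 : ClassGroup.mk0 ⟨v.asIdeal ^ Nat.card (ClassGroup (𝓞 L)), pow_mem h0 _⟩ = 1 := by
    rw [show (⟨v.asIdeal ^ Nat.card (ClassGroup (𝓞 L)), pow_mem h0 _⟩ :
      nonZeroDivisors (Ideal (𝓞 L))) = ⟨v.asIdeal, h0⟩ ^ Nat.card (ClassGroup (𝓞 L)) from rfl,
      map_pow, pow_card_eq_one']
  obtain ⟨a, ha⟩ := (ClassGroup.mk0_eq_one_iff _).1 h1
  have ha' : v.asIdeal ^ Nat.card (ClassGroup (𝓞 L)) = Ideal.span {a} := ha
  have ha0 : a ≠ 0 := by
    rintro rfl
    rw [Ideal.span_singleton_zero] at ha'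
    exact pow_ne_zero _ v.ne_bot ha'
  refine ⟨a, by simpa using ha0, ?_, fun w hw => ?_⟩
  · rw [od_coe v ha0, ← ha', cnt_pow v v.ne_bot, cnt_self]
    omega
  · rw [od_coe w ha0, ← ha', cnt_pow w v.ne_bot, cnt_ne w hw]
    simp

theorem step {S : Finset (Pl L)} {k : ℕ} {v : Pl L} (hv : v ∉ S) (h : Good S k) :
    Good (insert v S) (k + 1) := by
  obtain ⟨Y, hc, h1, h2⟩ := h
  have hex : ∃ m : ℕ, ∃ x : L, x ≠ 0 ∧ od v x ≠ 0 ∧ (od v x).natAbs = m ∧
      ∀ w, w ∉ insert v S → od w x = 0 := by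
    obtain ⟨x, a1, a2, a3⟩ := exists_gen v
    exact ⟨_, x, a1, a2, rfl, fun w hw => a3 w fun e => hw (e ▸ mem_insert_self _ _)⟩
  obtain ⟨g, g0, g1, g2, g3⟩ := Nat.find_spec hex
  have hmin : ∀ x : L, x ≠ 0 → od v x ≠ 0 → (∀ w, w ∉ insert v S → od w x = 0) →
      (od v g).natAbs ≤ (od v x).natAbs := fun x a1 a2 a3 => by
    rw [g2]
    exact Nat.find_min' hex ⟨x, a1, a2, rfl, a3⟩
  have cross : ∀ y ∈ Y, ∀ y' ∈ Y, ¬ ∃ z : L, y * (g * y') = z ^ 2 := by
    rintro y hy y' hy' ⟨z, hz⟩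
    have b1 := (h1 y hy).1
    have b2 := (h1 y' hy').1
    have hz0 : z ≠ 0 := by
      rintro rfl
      exact mul_ne_zero b1 (mul_ne_zero g0 b2) (by rw [hz, zero_pow two_ne_zero])
    have hod : ∀ w, w ∉ S → od w g = 2 * od w z := fun w hw => by
      have h3 := congrArg (od w) hz
      rw [od_mul w b1 (mul_ne_zero g0 b2), od_mul w g0 b2, (h1 y hy).2 w hw, (h1 y' hy').2 w hw,
        od_pow] at h3
      omega
    have h4 := hod v hv
    have h5 := hmin z hz0 (by omega) fun w hw => by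
      have h6 := hod w fun e => hw (mem_insert_of_mem e)
      rw [g3 w hw] at h6
      omega
    omega
  have hd : Disjoint Y (Y.image fun y => g * y) := by
    rw [disjoint_left]
    intro y hy hy'
    obtain ⟨y', hy'', e⟩ := mem_image.1 hy'
    exact cross y hy y' hy'' ⟨y, by rw [e, sq]⟩
  refine ⟨Y ∪ Y.image fun y => g * y, ?_, ?_, ?_⟩
  · rw [card_union_of_disjoint hd, card_image_of_injective _ (mul_right_injective₀ g0), hc]
    ring
  · intro y hy
    rcases mem_union.1 hy with hy | hy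
    · exact ⟨(h1 y hy).1, fun w hw => (h1 y hy).2 w fun e => hw (mem_insert_of_mem e)⟩
    · obtain ⟨y', hy', rfl⟩ := mem_image.1 hy
      refine ⟨mul_ne_zero g0 (h1 y' hy').1, fun w hw => ?_⟩
      rw [od_mul w g0 (h1 y' hy').1, g3 w hw, (h1 y' hy').2 w fun e => hw (mem_insert_of_mem e),
        add_zero]
  · intro y hy y' hy' h
    rcases mem_union.1 hy with hy | hy <;> rcases mem_union.1 hy' with hy' | hy'
    · exact h2 y hy y' hy' h
    · obtain ⟨y'', hy'', rfl⟩ := mem_image.1 hy'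
      exact absurd h (cross y hy y'' hy'')
    · obtain ⟨y'', hy'', rfl⟩ := mem_image.1 hy
      rw [mul_comm] at h
      exact absurd h (cross y' hy' y'' hy'')
    · obtain ⟨a, ha, rfl⟩ := mem_image.1 hy
      obtain ⟨b, hb, rfl⟩ := mem_image.1 hy'
      obtain ⟨z, hz⟩ := h
      rw [h2 a ha b hb ⟨z / g, by rw [div_pow, ← hz]; field_simp⟩]

theorem all (S : Finset (Pl L)) : Good S (S.card + (rank L + 1)) := by
  induction S using Finset.induction_on with
  | empty => simpa using base L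
  | insert v S hv ih =>
    rw [card_insert_of_notMem hv, add_right_comm]
    exact step hv ih

end ES2P

theorem p_es2 (h : T1) : Z_ES2 := by
  intro L _ _ n hL hn
  obtain ⟨Y, h1, h2, h3⟩ := ES2P.all (finite_dv L hn).toFinset
  refine ⟨Y, ?_, fun y hy => ⟨(h2 y hy).1, fun v hv => (h2 y hy).2 v (by simpa using hv)⟩, h3⟩
  rw [h1, (h.pos L hL).2.1, nPl, Set.ncard_eq_toFinset_card _ (finite_dv L hn)]

end Pool.Agent.P.MP_b8021b_nt.BS.CF
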