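import Pool.Agent.P.MP_b8021b_nt.BS.CF.Bund

/-! Fields that contain a primitive cube root of unity are totally complex; signs and
congruences of norms. -/

namespace Pool.Agent.P.MP_b8021b_nt.BS.CF

open NumberField IsDedekindDomain Polynomial Finset
open Pool.Agent.P.MP_b8021b_nt Pool.Agent.P.MP_b8021b_nt.VE Pool.Agent.P.MP_b8021b_nt.VC
open scoped Classical ComplexConjugate

namespace PosP

variable {E : Type} [Field E] [NumberField E]

omit [NumberField E] in
theorem tc (h : Om E) : IsTotallyComplex E := by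
  obtain ⟨ω, hω⟩ := h
  refine ⟨fun w => ?_⟩
  rw [← InfinitePlace.not_isReal_iff_isComplex]
  intro hw
  have h1 := congrArg (InfinitePlace.embedding_of_isReal hw) hω
  simp only [map_neg, map_pow, map_one] at h1
  nlinarith [sq_nonneg (InfinitePlace.embedding_of_isReal hw ω)]

theorem norm_nonneg' [IsTotallyComplex E] (x : E) : 0 ≤ Algebra.norm ℚ x := by
  have h1 := Algebra.norm_eq_prod_embeddings ℚ ℂ x
  rw [← Fintype.prod_equiv (RingHom.equivRatAlgHom E ℂ) (fun f => f x) (fun φ => φ x)
    (fun _ => by simp [RingHom.equivRatAlgHom_apply]),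
    ← Finset.prod_fiberwise Finset.univ InfinitePlace.mk (fun φ : E →+* ℂ => φ x)] at h1
  have h2 : ∀ w : InfinitePlace E,
      ∏ φ ∈ Finset.univ.filter (fun φ : E →+* ℂ => InfinitePlace.mk φ = w), φ x =
        ((Complex.normSq (w.embedding x) : ℝ) : ℂ) := by
    intro w
    have hne : w.embedding ≠ ComplexEmbedding.conjugate w.embedding := fun e =>
      IsTotallyComplex.complexEmbedding_not_isReal w.embedding
        (ComplexEmbedding.isReal_iff.2 e.symm)
    have hs : Finset.univ.filter (fun φ : E →+* ℂ => InfinitePlace.mk φ = w) =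
        {w.embedding, ComplexEmbedding.conjugate w.embedding} := by
      ext φ
      simp only [Finset.mem_filter, Finset.mem_univ, true_and, Finset.mem_insert,
        Finset.mem_singleton]
      constructor
      · intro e
        rw [← InfinitePlace.mk_embedding w, InfinitePlace.mk_eq_iff] at e
        rcases e with e | e
        · exact Or.inl e
        · right
          rw [← e]
          ext y
          simp
      · rintro (rfl | rfl)
        · exact InfinitePlace.mk_embedding w
        · rw [InfinitePlace.mk_conjugate_eq, InfinitePlace.mk_embedding]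
    rw [hs, Finset.prod_pair hne, ComplexEmbedding.conjugate_coe_eq, Complex.mul_conj]
  rw [Finset.prod_congr rfl fun w _ => h2 w, ← Complex.ofReal_prod, eq_ratCast,
    ← Complex.ofReal_ratCast, Complex.ofReal_inj] at h1
  have h3 : (0 : ℝ) ≤ ((Algebra.norm ℚ x : ℚ) : ℝ) := by
    rw [h1]
    exact Finset.prod_nonneg fun w _ => Complex.normSq_nonneg _
  exact_mod_cast h3

theorem absNorm_eq [IsTotallyComplex E] (a : 𝓞 E) :
    (Ideal.absNorm (Ideal.span {a}) : ℤ) = Algebra.norm ℤ a := by
  have h : (0 : ℤ) ≤ Algebra.norm ℤ a := by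
    have h1 := norm_nonneg' (a : E)
    rw [← Algebra.coe_norm_int] at h1
    exact_mod_cast h1
  rw [Ideal.absNorm_span_singleton, Int.natAbs_of_nonneg h]

theorem norm_mod (N : ℕ) (a : 𝓞 E) (h : (N : 𝓞 E) ∣ a - 1) :
    ((Algebra.norm ℤ a : ℤ) : ZMod N) = 1 := by
  obtain ⟨c, hc⟩ := h
  have ha : a = 1 + (N : ℤ) • c := by
    rw [zsmul_eq_mul, Int.cast_natCast, ← hc]
    ring
  let b := Module.Free.chooseBasis ℤ (𝓞 E)
  rw [Algebra.norm_eq_matrix_det b, ha, map_add, map_one, map_zsmul]
  have h1 := RingHom.map_det (Int.castRingHom (ZMod N))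
    (1 + (N : ℤ) • Algebra.leftMulMatrix b c)
  rw [eq_intCast] at h1
  rw [h1, map_add, map_one, map_zsmul, natCast_zsmul, ← Nat.cast_smul_eq_nsmul (ZMod N),
    ZMod.natCast_self, zero_smul, add_zero, Matrix.det_one]

theorem prime_mod {N : ℕ} {ζ : E} (hN : 2 ≤ N) (hζ : IsPrimitiveRoot ζ N) (v : Pl E)
    (hv : ¬ Dv N v) : Ideal.absNorm v.asIdeal ≡ 1 [MOD N] := by
  have : NeZero N := ⟨by omega⟩
  have hc : (Ideal.absNorm v.asIdeal).Coprime N := cop_iff_coprime.1 ((cop_prime_iff v).2 hv)
  have h1 : Ideal.absNorm v.asIdeal ≠ 1 :=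
    Ideal.absNorm_eq_one_iff.not.mpr v.isPrime.ne_top
  have h2 := hζ.toInteger_isPrimitiveRoot.idealQuotient_mk h1 hc
  have := v.isMaximal
  let _ := Ideal.Quotient.field v.asIdeal
  have h0 : Ideal.Quotient.mk v.asIdeal hζ.toInteger ≠ 0 := h2.ne_zero (by omega)
  have h3 : (Ideal.Quotient.mk v.asIdeal hζ.toInteger) ^
      (Nat.card (𝓞 E ⧸ v.asIdeal) - 1) = 1 := by
    have := Fintype.ofFinite (𝓞 E ⧸ v.asIdeal)
    rw [Nat.card_eq_fintype_card]
    exact FiniteField.pow_card_sub_one_eq_one _ h0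
  have h4 := h2.dvd_of_pow_eq_one _ h3
  have h5 : 1 ≤ Nat.card (𝓞 E ⧸ v.asIdeal) := Nat.card_pos
  exact ((Nat.modEq_iff_dvd' h5).2 h4).symm

end PosP

theorem p_pos : Z_Pos := by
  intro E _ _ h
  have := PosP.tc h
  have hd := IsTotallyComplex.finrank E
  refine ⟨⟨_, hd⟩, ?_, PosP.absNorm_eq, fun N a ha => ?_, fun N ζ I hN hζ hI => ?_⟩
  · have h1 := InfinitePlace.card_eq_nrRealPlaces_add_nrComplexPlaces E
    rw [IsTotallyComplex.nrRealPlaces_eq_zero E, zero_add] at h1
    have h2 : 0 < Fintype.card (InfinitePlace E) := Fintype.card_pos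
    rw [NumberField.Units.rank, hd]
    omega
  · rw [← ZMod.natCast_eq_natCast_iff, Nat.cast_one, ← Int.cast_natCast, PosP.absNorm_eq]
    exact PosP.norm_mod N a ha
  · refine cop_induction (P := fun I => Ideal.absNorm I ≡ 1 [MOD N]) hN ?_ ?_ I hI
    · rw [Ideal.absNorm_top]
    · intro v J hv _ ih
      rw [map_mul]
      simpa using (PosP.prime_mod hN hζ v hv).mul ih

end Pool.Agent.P.MP_b8021b_nt.BS.CF
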