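import Pool.Agent.P.MP_b8021b_nt.BS.CF.Bund

/-! A weak Tauberian statement for Dirichlet series over primes. -/

namespace Pool.Agent.P.MP_b8021b_nt.BS.CF

open Finset Pool.Agent.P.MP_b8021b_nt.VC

namespace TauP

/-- one dyadic block -/
theorem block (g : ℕ → ℝ) (hg : ∀ q, 0 ≤ g q) {s : ℝ} (hs : 1 < s) (k : ℕ) :
    ∑ q ∈ Ico (2 ^ k) (2 ^ (k + 1)), g q * (q : ℝ) ^ (-s) ≤
      ((2 : ℝ) ^ (-(s - 1))) ^ k / 2 ^ k * ∑ q ∈ range (2 ^ (k + 1) + 1), g q := by
  have e : ((2 : ℝ) ^ (-(s - 1))) ^ k / 2 ^ k = ((2 : ℝ) ^ k) ^ (-s) := by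
    rw [← div_pow, ← Real.rpow_sub_one two_ne_zero, ← Real.rpow_natCast, ← Real.rpow_natCast,
      ← Real.rpow_mul zero_le_two, ← Real.rpow_mul zero_le_two]
    congr 1
    ring
  rw [e]
  calc ∑ q ∈ Ico (2 ^ k) (2 ^ (k + 1)), g q * (q : ℝ) ^ (-s)
      ≤ ∑ q ∈ Ico (2 ^ k) (2 ^ (k + 1)), ((2 : ℝ) ^ k) ^ (-s) * g q := by
        refine sum_le_sum fun q hq => ?_
        rw [mul_comm]
        refine mul_le_mul_of_nonneg_right ?_ (hg q)
        refine Real.rpow_le_rpow_of_nonpos (by positivity) ?_ (by linarith)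
        exact_mod_cast (mem_Ico.1 hq).1
    _ ≤ _ := by
        rw [← mul_sum]
        refine mul_le_mul_of_nonneg_left ?_ (by positivity)
        refine sum_le_sum_of_subset_of_nonneg (fun q hq => ?_) fun q _ _ => hg q
        have := (mem_Ico.1 hq).2
        exact mem_range.2 (by omega)

/-- the partial sums of the Dirichlet series -/
theorem part (g : ℕ → ℝ) (hg : ∀ q, 0 ≤ g q) {d δ : ℝ} (hd : ∀ q, g q ≤ d) (hδ : 0 ≤ δ) (X₀ : ℕ)
    (h0 : g 0 = 0) (h : ∀ X : ℕ, X₀ ≤ X → (∑ q ∈ range (X + 1), g q) * Real.log X < δ * X)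
    {s : ℝ} (hs : 1 < s) (hs2 : s ≤ 2) (K : ℕ) :
    ∑ q ∈ range (2 ^ K), g q * (q : ℝ) ^ (-s) ≤ 3 * d * (min K X₀ : ℕ) +
      8 * δ * ∑ k ∈ range K, ((2 : ℝ) ^ (-(s - 1))) ^ (k + 1) / (k + 1) := by
  have hd0 : 0 ≤ d := (hg 0).trans (hd 0)
  set r : ℝ := (2 : ℝ) ^ (-(s - 1)) with hr
  have hr0 : 0 < r := by positivity
  have hr1 : r ≤ 1 := Real.rpow_le_one_of_one_le_of_nonpos one_le_two (by linarith)
  have hr2 : 1 / 2 ≤ r := by
    rw [one_div, ← Real.rpow_neg_one]
    exact Real.rpow_le_rpow_of_exponent_le one_le_two (by linarith)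
  induction K with
  | zero => simp [h0]
  | succ k ih =>
    rw [← sum_range_add_sum_Ico _ (Nat.pow_le_pow_right two_pos (Nat.le_succ k)), sum_range_succ,
      mul_add]
    have hb := block g hg hs k
    rw [← hr] at hb
    have h2 : (0 : ℝ) < 2 ^ k := by positivity
    have hrk : 0 < r ^ k := by positivity
    by_cases hk : k < X₀
    · have h1 : ∑ q ∈ range (2 ^ (k + 1) + 1), g q ≤ 3 * d * 2 ^ k := by
        have := sum_le_card_nsmul (range (2 ^ (k + 1) + 1)) g d fun q _ => hd q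
        rw [card_range, nsmul_eq_mul] at this
        push_cast at this
        have h3 : (1 : ℝ) ≤ 2 ^ k := one_le_pow₀ one_le_two
        rw [pow_succ (2 : ℝ)] at this
        nlinarith
      have h3 : r ^ k / 2 ^ k * ∑ q ∈ range (2 ^ (k + 1) + 1), g q ≤ 3 * d := by
        calc _ ≤ r ^ k / 2 ^ k * (3 * d * 2 ^ k) := mul_le_mul_of_nonneg_left h1 (by positivity)
          _ = r ^ k * (3 * d) := by field_simp
          _ ≤ 1 * (3 * d) := mul_le_mul_of_nonneg_right (pow_le_one₀ hr0.le hr1) (by positivity)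
          _ = 3 * d := one_mul _
      have h4 : 0 ≤ 8 * δ * (r ^ (k + 1) / (k + 1)) := by positivity
      rw [min_eq_left hk.le] at ih
      rw [min_eq_left (Nat.succ_le_of_lt hk)]
      push_cast at ih ⊢
      linarith
    · have hX : X₀ ≤ 2 ^ (k + 1) := by
        have := Nat.lt_two_pow_self (n := k + 1)
        omega
      have h1 := (h _ hX).le
      push_cast at h1
      rw [Real.log_pow] at h1
      push_cast at h1
      have hl : (1 : ℝ) / 2 ≤ Real.log 2 := by linarith [Real.log_two_gt_d9]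
      set A := ∑ q ∈ range (2 ^ (k + 1) + 1), g q with hA
      have hA0 : 0 ≤ A := sum_nonneg fun q _ => hg q
      have hk1 : (0 : ℝ) < k + 1 := by positivity
      have h3 : A ≤ 4 * δ * 2 ^ k / (k + 1) := by
        rw [le_div_iff₀ hk1]
        rw [pow_succ] at h1
        nlinarith [mul_nonneg (mul_nonneg hA0 hk1.le) (sub_nonneg.2 hl)]
      have h4 : r ^ k / 2 ^ k * A ≤ 8 * δ * (r ^ (k + 1) / (k + 1)) := by
        calc _ ≤ r ^ k / 2 ^ k * (4 * δ * 2 ^ k / (k + 1)) :=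
              mul_le_mul_of_nonneg_left h3 (by positivity)
          _ = 8 * δ * r ^ k / (k + 1) * (1 / 2) := by field_simp; ring
          _ ≤ 8 * δ * r ^ k / (k + 1) * r := mul_le_mul_of_nonneg_left hr2 (by positivity)
          _ = _ := by ring
      rw [min_eq_right (by omega)] at ih
      rw [min_eq_right (by omega)]
      linarith

/-- the logarithmic series -/
theorem ser {s : ℝ} (hs : 1 < s) (hs2 : s ≤ 2) (K : ℕ) :
    ∑ k ∈ range K, ((2 : ℝ) ^ (-(s - 1))) ^ (k + 1) / (k + 1) ≤ Real.log (1 / (s - 1)) + 3 := by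
  set r : ℝ := (2 : ℝ) ^ (-(s - 1)) with hr
  have hr0 : 0 < r := by positivity
  have hl : (1 : ℝ) / 2 ≤ Real.log 2 := by linarith [Real.log_two_gt_d9]
  have ht : 0 < s - 1 := by linarith
  have h1 : (s - 1) / 4 ≤ 1 - r := by
    have h2 : r * (1 + (s - 1) / 2) ≤ 1 := by
      have h3 : 1 + (s - 1) / 2 ≤ (2 : ℝ) ^ (s - 1) := by
        rw [Real.rpow_def_of_pos two_pos]
        have := Real.add_one_le_exp (Real.log 2 * (s - 1))
        nlinarith
      calc r * (1 + (s - 1) / 2) ≤ r * (2 : ℝ) ^ (s - 1) := mul_le_mul_of_nonneg_left h3 hr0.le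
        _ = 1 := by rw [hr, ← Real.rpow_add two_pos]; simp
    by_contra hc
    push Not at hc
    nlinarith
  have hr1 : |r| < 1 := by rw [abs_of_pos hr0]; linarith
  have h2 := sum_le_hasSum (range K) (fun k _ => by positivity)
    (Real.hasSum_pow_div_log_of_abs_lt_one hr1)
  have h3 : Real.log ((s - 1) / 4) ≤ Real.log (1 - r) := Real.log_le_log (by positivity) h1
  rw [Real.log_div ht.ne' four_ne_zero] at h3
  have h4 : Real.log 4 ≤ 3 := by linarith [Real.log_le_sub_one_of_pos (show (0 : ℝ) < 4 by norm_num)]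
  rw [one_div, Real.log_inv]
  linarith

end TauP

open TauP in
theorem p_tau : Z_Tau := by
  intro a d κ C hκ hd h
  refine ⟨κ / 16, by positivity, fun X₀ => ?_⟩
  by_contra hc
  push Not at hc
  set g : ℕ → ℝ := fun q => if q.Prime then (a q : ℝ) else 0 with hg
  have hg0 : ∀ q, 0 ≤ g q := fun q => by simp only [hg]; split_ifs <;> positivity
  have hgd : ∀ q, g q ≤ (d : ℝ) := fun q => by
    simp only [hg]
    split_ifs with hq
    · exact_mod_cast hd q hq
    · positivity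
  have key : ∀ s : ℝ, 1 < s → s ≤ 2 →
      DS.ds (fun q => a q) s ≤ 3 * d * X₀ + κ / 2 * (Real.log (1 / (s - 1)) + 3) := by
    intro s hs hs2
    refine Real.tsum_le_of_sum_le (fun q => by positivity) fun T => ?_
    obtain ⟨K, hK⟩ : ∃ K : ℕ, ∀ q ∈ T, (q : ℕ) < 2 ^ K :=
      ⟨T.sup fun q => (q : ℕ), fun q hq =>
        (Nat.lt_two_pow_self).trans_le (Nat.pow_le_pow_right two_pos (le_sup (f := fun q : Nat.Primes => (q : ℕ)) hq))⟩
    have h1 := part g hg0 hgd (δ := κ / 16) (by positivity) X₀ (by simp [hg, Nat.not_prime_zero])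
      (fun X hX => by simpa only [hg, sum_filter] using hc X hX) hs hs2 K
    have h2 : ∑ q ∈ T, (a q : ℝ) * (q : ℝ) ^ (-s) ≤
        ∑ q ∈ range (2 ^ K), g q * (q : ℝ) ^ (-s) := by
      have h3 : ∑ q ∈ T, (a q : ℝ) * (q : ℝ) ^ (-s) =
          ∑ q ∈ T.map (Function.Embedding.subtype _), g q * (q : ℝ) ^ (-s) := by
        rw [sum_map]
        exact sum_congr rfl fun q _ => by simp [hg, q.2]
      rw [h3]
      refine sum_le_sum_of_subset_of_nonneg (fun q hq => ?_) fun q _ _ =>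
        mul_nonneg (hg0 q) (by positivity)
      obtain ⟨q', hq', rfl⟩ := mem_map.1 hq
      exact mem_range.2 (hK q' hq')
    have h3 := ser hs hs2 K
    have h4 : ((min K X₀ : ℕ) : ℝ) ≤ X₀ := by exact_mod_cast min_le_right K X₀
    have h5 : (0 : ℝ) ≤ d := by positivity
    nlinarith [mul_le_mul_of_nonneg_left h3 hκ.le, mul_le_mul_of_nonneg_left h4 h5]
  set K := 2 * (|C| + 3 * d * X₀ + 2 * κ) / κ with hK
  have hK0 : 0 ≤ K := by positivity
  have hs1 : 1 < 1 + Real.exp (-K) := by linarith [Real.exp_pos (-K)]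
  have hs2 : 1 + Real.exp (-K) ≤ 2 := by
    have : Real.exp (-K) ≤ 1 := Real.exp_le_one_iff.2 (by linarith)
    linarith
  have h1 := h _ hs1 hs2
  have h2 := key _ hs1 hs2
  rw [add_sub_cancel_left, one_div, ← Real.exp_neg, neg_neg, Real.log_exp] at h1 h2
  have h3 : κ * K = 2 * (|C| + 3 * d * X₀ + 2 * κ) := by
    rw [hK]; field_simp
  nlinarith [le_abs_self C]

end Pool.Agent.P.MP_b8021b_nt.BS.CF
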