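import Pool.Agent.P.MP_b8021b_nt.BS.CF.Bund

/-! At a ramified prime of a cyclic extension of degree two or three not every unit is a norm. -/

namespace Pool.Agent.P.MP_b8021b_nt.BS.CF

open NumberField IsDedekindDomain Finset WithZero
open Pool.Agent.P.MP_b8021b_nt Pool.Agent.P.MP_b8021b_nt.VE Pool.Agent.P.MP_b8021b_nt.VC
open scoped Classical

set_option linter.unusedSectionVars false

namespace U1wP

section G

variable {L : Type} [Field L] [NumberField L] {v : Pl L} {x y : L} {k k' : ℕ}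

/-- order at least `k` -/
def G (v : Pl L) (k : ℕ) (x : L) : Prop := vl v x ≤ exp (-(k : ℤ))

theorem G.add (h : G v k x) (h' : G v k y) : G v k (x + y) := Valuation.map_add_le _ h h'

theorem G.sub (h : G v k x) (h' : G v k y) : G v k (x - y) := Valuation.map_sub_le _ h h'

theorem G.mul (h : G v k x) (h' : G v k' y) : G v (k + k') (x * y) := by
  rw [G, map_mul, Nat.cast_add, neg_add, exp_add]
  exact mul_le_mul' h h'

theorem G.mono (h : G v k x) (e : k' ≤ k) : G v k' x :=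
  le_trans h (exp_le_exp.2 (by omega))

theorem G.of_eq (h : G v k x) (e : vl v y = vl v x) : G v k y := e.le.trans h

theorem G_zero : G v 0 x ↔ vl v x ≤ 1 := by simp [G]

theorem G_one : G v 1 x ↔ vl v x < 1 := by rw [vl_lt_one_iff]; simp [G]

theorem G_iff (hx : x ≠ 0) : G v k x ↔ (k : ℤ) ≤ od v x := by
  rw [G, vl_eq v hx, exp_le_exp, neg_le_neg_iff]

theorem G.unit (h : G v k x) (hy : vl v y = 1) : G v k (x * y) :=
  h.of_eq (by rw [map_mul, hy, mul_one])

theorem G.div (h : G v (k + 1) x) (hy : vl v y = exp (-1)) : G v k (x / y) := by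
  rw [G, map_div₀, hy, div_le_iff₀ exp_pos, ← exp_add]
  exact h.trans (exp_le_exp.2 (by push_cast; omega))

theorem G.near (h : G v k (x - y)) (hk : 1 ≤ k) (hy : vl v y = 1) : vl v x = 1 := by
  have := (vl v).map_add_eq_of_lt_right (x := x - y) (y := y) (hy ▸ G_one.1 (h.mono hk))
  rwa [sub_add_cancel, hy] at this

/-- the order of a sum is at most the order of a term whose order differs from the others -/
theorem le_of_ne (hx : x ≠ 0) (h : y ≠ 0 → od v x ≠ od v y) : vl v (x + y) = max (vl v x) (vl v y) :=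
  Valuation.map_add_of_distinct_val _ fun e => by
    have h0 : y ≠ 0 := fun e' => vl_ne v hx (by rw [e, e', map_zero])
    exact h h0 (od_eq_of_vl v e)

/-- the classes prime to `v` modulo a power of `v` -/
def Cl (v : Pl L) (m : ℕ) : Set (𝓞 L ⧸ v.asIdeal ^ m) :=
  {z | ∃ a : 𝓞 L, a ∉ v.asIdeal ∧ Ideal.Quotient.mk _ a = z}

theorem fin_quot (v : Pl L) (m : ℕ) : Finite (𝓞 L ⧸ v.asIdeal ^ m) :=
  Ideal.finiteQuotientOfFreeOfNeBot _ (pow_ne_zero _ v.ne_bot)

theorem card_cl (v : Pl L) (m : ℕ) :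
    (Cl v (m + 1)).ncard + Ideal.absNorm v.asIdeal ^ m = Ideal.absNorm v.asIdeal ^ (m + 1) := by
  have := fin_quot v (m + 1)
  have hle : v.asIdeal ^ (m + 1) ≤ v.asIdeal := Ideal.pow_le_self (by omega)
  let f := (Ideal.Quotient.factor hle).toAddMonoidHom
  have hq : Nat.card (𝓞 L ⧸ v.asIdeal ^ (m + 1)) = Ideal.absNorm v.asIdeal ^ (m + 1) := by
    rw [← map_pow, Ideal.absNorm_apply, Submodule.cardQuot_apply]
  have h1 := f.ker.card_mul_index
  have hs : f.range = ⊤ := AddMonoidHom.range_eq_top.2 (Ideal.Quotient.factor_surjective hle)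
  rw [AddSubgroup.index_ker, hs, AddSubgroup.card_top, hq, ← Submodule.cardQuot_apply, ← Ideal.absNorm_apply,
    pow_succ (Ideal.absNorm _)] at h1
  have h2 := Nat.eq_of_mul_eq_mul_right
    (Nat.pos_of_ne_zero (Ideal.absNorm_eq_zero_iff.not.2 v.ne_bot)) h1
  have h3 : Cl v (m + 1) = (f.ker : Set _)ᶜ := by
    ext z
    obtain ⟨a, rfl⟩ := Ideal.Quotient.mk_surjective z
    have e : ∀ a : 𝓞 L, Ideal.Quotient.mk _ a ∈ f.ker ↔ a ∈ v.asIdeal := fun a =>
      Ideal.Quotient.eq_zero_iff_mem (I := v.asIdeal)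
    exact ⟨fun ⟨b, hb, e'⟩ h => hb ((e b).1 (e' ▸ h)), fun h => ⟨a, fun h' => h ((e a).2 h'), rfl⟩⟩
  rw [h3, ← h2, ← hq, add_comm]
  exact Set.ncard_add_ncard_compl _

theorem mk_eq {a b : 𝓞 L} {m : ℕ} : Ideal.Quotient.mk (v.asIdeal ^ m) a = Ideal.Quotient.mk _ b ↔
    G v m ((a : L) - b) := by
  rw [Ideal.Quotient.eq, ← vl_coe_le_exp]
  rfl

end G

variable {F K : Type} [Field F] [NumberField F] [Field K] [NumberField K] [Algebra F K]
  [IsGalois F K] {v : Pl F} {w : Pl K} {ℓ : ℕ}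

/-- a totally ramified place -/
structure Ram (ℓ : ℕ) (v : Pl F) (w : Pl K) : Prop where
  val : ∀ x : F, vl w (algebraMap F K x) = vl v x ^ ℓ
  inv : ∀ (σ : K ≃ₐ[F] K) x, vl w (σ x) = vl w x
  res : ∀ y : K, vl w y ≤ 1 → ∃ a : F, vl w (y - algebraMap F K a) < 1
  nrm : Ideal.absNorm w.asIdeal = Ideal.absNorm v.asIdeal

theorem Ram.od (h : Ram ℓ v w) (x : F) : od w (algebraMap F K x) = ℓ * od v x := by
  rw [← od_pow, CF.od, h.val, ← map_pow, CF.od]

theorem Ram.down (h : Ram ℓ v w) {t : ℕ} {z : F} (hz : G w (ℓ * t + 1) (algebraMap F K z)) :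
    G v (t + 1) z := by
  rcases eq_or_ne z 0 with rfl | h0
  · simp [G]
  rw [G_iff ((map_ne_zero _).2 h0), h.od] at hz
  rw [G_iff h0]
  by_contra hc
  have : (ℓ : ℤ) * CF.od v z ≤ ℓ * t :=
    mul_le_mul_of_nonneg_left (by push_cast at hc; omega) (by positivity)
  push_cast at hz
  omega

theorem Ram.shift (h : Ram ℓ v w) (σ : K ≃ₐ[F] K) {π : K} (hπ : vl w π = exp (-1)) {t : ℕ}
    (ht : G w (t + 1) (σ π - π)) (k : ℕ) : ∀ x, G w k x → G w (k + t) (σ x - x) := by
  have h0 : π ≠ 0 := fun e => exp_ne_zero (by rw [← hπ, e, map_zero])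
  have h1 : G w 1 (σ π) := by rw [G, h.inv, hπ]; simp
  have e : ∀ x, σ (π * x) - π * x = σ π * (σ x - x) + (σ π - π) * x := fun x => by
    rw [map_mul]; ring
  have a0 : ∀ N, N ≤ t → ∀ x, G w 0 x → G w N (σ x - x) := fun N => by
    induction N with
    | zero => exact fun _ x hx => (hx.of_eq (h.inv σ x)).sub hx
    | succ N ih =>
      intro hN x hx
      obtain ⟨a, ha⟩ := h.res x (G_zero.1 hx)
      have h2 : G w 0 ((x - algebraMap F K a) / π) := G.div (G_one.2 ha) hπ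
      have h3 := e ((x - algebraMap F K a) / π)
      rw [mul_div_cancel₀ _ h0, map_sub, σ.commutes, sub_sub_sub_cancel_right] at h3
      rw [h3]
      exact ((h1.mul (ih (by omega) _ h2)).mono (by omega)).add ((ht.mul h2).mono (by omega))
  induction k with
  | zero => simpa using a0 t le_rfl
  | succ k ih =>
    intro x hx
    have h2 := hx.div hπ
    have h3 := e (x / π)
    rw [mul_div_cancel₀ _ h0] at h3
    rw [h3]
    exact ((h1.mul (ih _ h2)).mono (by omega)).add ((ht.mul h2).mono (by omega))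

theorem exists_gen (hℓ : ℓ.Prime) (hr : Module.finrank F K = ℓ) : ∃ σ : K ≃ₐ[F] K,
    σ ^ ℓ = 1 ∧ (∀ x, σ x = x → ∃ a, algebraMap F K a = x) ∧
      ∀ x, algebraMap F K (Algebra.norm F x) = ∏ i ∈ range ℓ, (σ ^ i) x := by
  have hc : Nat.card (K ≃ₐ[F] K) = ℓ := (IsGalois.card_aut_eq_finrank F K).trans hr
  have := Fact.mk hℓ
  have : Nontrivial (K ≃ₐ[F] K) := Finite.one_lt_card_iff_nontrivial.1 (hc ▸ hℓ.one_lt)
  obtain ⟨σ, hσ⟩ := exists_ne (1 : K ≃ₐ[F] K)
  have hz : ∀ g, g ∈ Subgroup.zpowers σ := fun g => mem_zpowers_of_prime_card hc hσ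
  have ho : orderOf σ = ℓ := (orderOf_eq_card_of_forall_mem_zpowers hz).trans hc
  refine ⟨σ, ho ▸ pow_orderOf_eq_one σ, fun x hx => ?_, fun x => ?_⟩
  · refine (IsGalois.mem_range_algebraMap_iff_fixed x).2 fun g => ?_
    obtain ⟨i, rfl⟩ := mem_powers_iff_mem_zpowers.2 (hz g)
    exact (congrFun (AlgEquiv.coe_pow σ i) x).trans (Function.IsFixedPt.iterate (f := σ) hx i)
  · rw [Algebra.norm_eq_prod_automorphisms, ← IsCyclic.image_range_orderOf hz, prod_image, ho]
    rw [coe_range]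
    exact pow_injOn_Iio_orderOf

/-- the norm is not injective on units but respects congruences modulo the same power -/
theorem Ram.core (h : Ram ℓ v w) (hℓ : El ℓ) (hr : Module.finrank F K = ℓ) :
    ∃ (t : ℕ) (y : K), vl w y = 1 ∧ Algebra.norm F y = 1 ∧ ¬ G w (t + 1) (y - 1) ∧
      ∀ x, G w (t + 1) x → G v (t + 1) (Algebra.norm F (1 + x) - 1) := by
  obtain ⟨σ, s1, s2, s3⟩ := exists_gen hℓ.prime hr
  obtain ⟨π', h0, h1⟩ := exists_od_one w
  generalize (π' : K) = π at h0 h1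
  have hπ : vl w π = exp (-1) := by rw [vl_eq w h0, h1]
  have g1 : G w 1 π := by simp [G, hπ]
  have hd : σ π - π ≠ 0 := fun e => by
    obtain ⟨a, rfl⟩ := s2 π (sub_eq_zero.1 e)
    rw [h.od] at h1
    rcases hℓ with rfl | ⟨rfl, hF⟩ <;> omega
  have h2 := (G_iff hd).1 ((g1.of_eq (h.inv σ π)).sub g1)
  obtain ⟨t, ht⟩ : ∃ t : ℕ, CF.od w (σ π - π) = t + 1 :=
    ⟨(CF.od w (σ π - π) - 1).toNat, by omega⟩
  have gt : G w (t + 1) (σ π - π) := (G_iff hd).2 (by rw [ht]; simp)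
  have sh := h.shift σ hπ gt
  have gs : ∀ {k x}, G w k x → G w k (σ x) := fun hx => hx.of_eq (h.inv σ _)
  have cls : ∀ (a : F) (i : ℕ), a ≠ 0 →
      CF.od w (algebraMap F K a * π ^ i) = ℓ * CF.od v a + i := fun a i ha => by
    rw [od_mul w ((map_ne_zero _).2 ha) (pow_ne_zero _ h0), h.od, od_pow, h1, mul_one]
  refine ⟨t, σ π / π, by rw [map_div₀, h.inv, div_self (vl_ne w h0)], ?_, fun hc => ?_,
    fun x hx => h.down ?_⟩
  · rw [div_eq_mul_inv, map_mul, Algebra.norm_inv, Algebra.norm_eq_of_algEquiv,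
      mul_inv_cancel₀ (Algebra.norm_ne_zero_iff.2 h0)]
  · have := hc.mul g1
    rw [sub_mul, div_mul_cancel₀ _ h0, one_mul, G_iff hd, ht] at this
    push_cast at this
    omega
  rw [map_sub, map_one, s3]
  rcases hℓ with rfl | ⟨rfl, hF⟩
  · have ss : ∀ x, σ (σ x) = x := fun x => congrArg (· x) ((pow_two σ).symm.trans s1)
    obtain ⟨a, ha⟩ := s2 (-(π + σ π)) (by rw [map_neg, map_add, ss, add_comm])
    have g2 : G w t 2 := by
      have e := le_of_ne (v := w) (x := algebraMap F K 2 * π ^ 1) (y := algebraMap F K a * π ^ 0)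
        (mul_ne_zero ((map_ne_zero _).2 two_ne_zero) (pow_ne_zero _ h0)) fun ha => by
          rw [cls _ _ two_ne_zero, cls _ _ fun e => ha (by simp [e])]
          omega
      rw [map_ofNat, ha, show 2 * π ^ 1 + -(π + σ π) * π ^ 0 = -(σ π - π) by ring,
        Valuation.map_neg] at e
      have := G.div (k := t) (le_trans (e ▸ le_max_left _ _) gt) hπ
      rwa [pow_one, mul_div_cancel_right₀ _ h0] at this
    rw [show ∏ i ∈ range 2, (σ ^ i) (1 + x) - 1 = (σ x - x) + 2 * x + x * σ x by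
      simp [prod_range_succ]; ring]
    exact (((sh _ x hx).mono (by omega)).add ((g2.mul hx).mono (by omega))).add
      ((hx.mul (gs hx)).mono (by omega))
  · have ss : ∀ x, σ (σ (σ x)) = x := fun x => congrArg (· x) ((pow_three σ).symm.trans s1)
    obtain ⟨a, ha⟩ := s2 (-2 * (π + σ π + σ (σ π))) (by
      simp only [map_mul, map_neg, map_add, map_ofNat, ss]; ring)
    obtain ⟨b, hb⟩ := s2 (π * σ π + σ π * σ (σ π) + σ (σ π) * π) (by
      simp only [map_mul, map_add, ss]; ring)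
    have g3 : G w (t + t) 3 := by
      have n3 : algebraMap F K 3 * π ^ 2 ≠ 0 :=
        mul_ne_zero ((map_ne_zero _).2 three_ne_zero) (pow_ne_zero _ h0)
      have e := le_of_ne (v := w) n3
        (y := algebraMap F K a * π ^ 1 + algebraMap F K b * π ^ 0) fun hy => by
          rw [cls _ _ three_ne_zero]
          rcases eq_or_ne a 0 with rfl | a0
          · rw [map_zero, zero_mul, zero_add] at hy ⊢
            rw [cls _ _ fun e => hy (by simp [e])]
            omega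
          have e := le_of_ne (v := w) (x := algebraMap F K a * π ^ 1)
            (y := algebraMap F K b * π ^ 0)
            (mul_ne_zero ((map_ne_zero _).2 a0) (pow_ne_zero _ h0)) fun hb => by
              rw [cls _ _ a0, cls _ _ fun e => hb (by simp [e])]
              omega
          rcases max_choice (vl w (algebraMap F K a * π ^ 1)) (vl w (algebraMap F K b * π ^ 0))
            with e' | e'
          · rw [od_eq_of_vl w (e.trans e'), cls _ _ a0]
            omega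
          · rw [od_eq_of_vl w (e.trans e'), cls _ _ fun b0 =>
              vl_ne w hy (by rw [e, e', b0]; simp)]
            omega
      rw [map_ofNat, ha, hb, show 3 * π ^ 2 + (-2 * (π + σ π + σ (σ π)) * π ^ 1 +
        (π * σ π + σ π * σ (σ π) + σ (σ π) * π) * π ^ 0) =
          (σ π - π) * (σ (σ π - π) + (σ π - π)) by rw [map_sub]; ring] at e
      have h3 : G w (t + t + 1 + 1) (3 * π ^ 2) :=
        le_trans (e ▸ le_max_left _ _) ((gt.mul ((gs gt).add gt)).mono (by omega))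
      have := (h3.div hπ).div hπ
      rwa [pow_two, ← mul_assoc, mul_div_cancel_right₀ _ h0, mul_div_cancel_right₀ _ h0] at this
    have tr : ∀ x, G w (t + 1) x → G w (3 * t + 1) (x + σ x + σ (σ x)) := fun x hx => by
      rw [show x + σ x + σ (σ x) = σ (σ x - x) - (σ x - x) + 3 * σ x by rw [map_sub]; ring]
      exact ((sh _ _ (sh _ x hx)).mono (by omega)).add ((g3.mul (gs hx)).mono (by omega))
    rw [show ∏ i ∈ range 3, (σ ^ i) (1 + x) - 1 = (x + σ x + σ (σ x)) +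
      (x * σ x + σ (x * σ x) + σ (σ (x * σ x))) + x * σ x * σ (σ x) by
      simp [prod_range_succ, ss]; ring]
    exact ((tr x hx).add (tr _ ((hx.mul (gs hx)).mono (by omega)))).add
      (((hx.mul (gs hx)).mul (gs (gs hx))).mono (by omega))

/-- a unit that is not a norm modulo a power of `v` -/
theorem Ram.exists_not (h : Ram ℓ v w) (hW : Z_WA) (hℓ : El ℓ) (hr : Module.finrank F K = ℓ) :
    ∃ (m : ℕ) (a : 𝓞 F), a ∉ v.asIdeal ∧
      ∀ δ : K, ¬ G v (m + 1) ((a : F) / Algebra.norm F δ - 1) := by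
  obtain ⟨t, y, y1, y2, y3, y4⟩ := h.core hℓ hr
  by_contra hc
  push Not at hc
  have nv : ∀ δ : K, vl v (Algebra.norm F δ) = vl w δ := fun δ => by
    have e := h.val (Algebra.norm F δ)
    rw [Algebra.norm_eq_prod_automorphisms, map_prod, prod_congr rfl fun σ _ => h.inv σ δ,
      prod_const, card_univ, ← Nat.card_eq_fintype_card, IsGalois.card_aut_eq_finrank, hr] at e
    exact (pow_left_injective hℓ.prime.ne_zero e).symm
  have nc : ∀ δ δ' : K, vl w δ' = 1 → G w (t + 1) (δ - δ') →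
      G v (t + 1) (Algebra.norm F δ - Algebra.norm F δ') := fun δ δ' h1 h2 => by
    have h0 : δ' ≠ 0 := fun e => by simp [e] at h1
    have := (y4 _ (h2.unit (y := δ'⁻¹) (by rw [map_inv₀, h1, inv_one]))).unit ((nv δ').trans h1)
    rwa [sub_mul (Algebra.norm F _), ← map_mul, one_mul, show (1 + (δ - δ') * δ'⁻¹) * δ' = δ by
      field_simp; ring] at this
  have ap : ∀ δ : K, vl w δ = 1 → ∃ c : 𝓞 K, c ∉ w.asIdeal ∧ G w (t + 1) (c - δ) := fun δ h1 => by
    obtain ⟨c, hc⟩ := (hW K).1 {w} (fun _ => δ) (t + 1) (by simpa using h1.le)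
    have h2 : G w (t + 1) (c - δ) := hc w (mem_singleton_self w)
    exact ⟨c, (vl_coe_eq w c).1 (h2.near (by omega) h1), h2⟩
  have key : ∀ z : Cl v (t + 1), ∃ (a : 𝓞 F) (c : 𝓞 K), Ideal.Quotient.mk _ a = z.1 ∧
      c ∉ w.asIdeal ∧ G v (t + 1) (a - Algebra.norm F (c : K)) := fun ⟨z, a, ha, e⟩ => by
    obtain ⟨δ, hδ⟩ := hc t a ha
    have h1 := od_of_near v (G_one.1 (hδ.mono (by omega)))
    have h2 : vl v (Algebra.norm F δ) = 1 := (od_eq_zero_iff v h1.2.1).1
      (h1.2.2 ▸ od_eq_zero_of_vl v ((vl_coe_eq v a).2 ha))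
    obtain ⟨c, c1, c2⟩ := ap δ ((nv δ).symm.trans h2)
    have h3 := hδ.unit h2
    rw [sub_mul, div_mul_cancel₀ _ h1.2.1, one_mul] at h3
    exact ⟨a, c, e, c1, by simpa using h3.sub (nc _ _ ((nv δ).symm.trans h2) c2)⟩
  choose a c k1 k2 k3 using key
  have := fin_quot v (t + 1)
  have := fin_quot w (t + 1)
  let g : Cl v (t + 1) → Cl w (t + 1) := fun z => ⟨_, c z, k2 z, rfl⟩
  have inj : ∀ z z', G v (t + 1) (Algebra.norm F (c z : K) - Algebra.norm F (c z' : K)) → z = z' :=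
    fun z z' e => Subtype.ext (by
      rw [← k1, ← k1, mk_eq]
      simpa using ((k3 z).add e).sub (k3 z'))
  have hg : Function.Injective g := fun z z' e =>
    inj z z' (nc _ _ ((vl_coe_eq w _).2 (k2 z')) (mk_eq.1 (congrArg Subtype.val e)))
  have hb := hg.bijective_of_nat_card_le (by
    have e1 := card_cl v t
    have e2 := card_cl w t
    rw [h.nrm] at e2
    rw [Nat.card_coe_set_eq, Nat.card_coe_set_eq]
    omega)
  obtain ⟨c1, p1, q1⟩ := ap 1 (map_one _)
  obtain ⟨c2, p2, q2⟩ := ap y y1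
  obtain ⟨z1, e1⟩ := hb.2 ⟨_, c1, p1, rfl⟩
  obtain ⟨z2, e2⟩ := hb.2 ⟨_, c2, p2, rfl⟩
  have r1 : G w (t + 1) (c z1 - 1) := by
    simpa using (mk_eq.1 (congrArg Subtype.val e1)).add q1
  have r2 : G w (t + 1) (c z2 - y) := by
    simpa using (mk_eq.1 (congrArg Subtype.val e2)).add q2
  have e3 := inj z1 z2 (by simpa [y2] using (nc _ _ (map_one _) r1).sub (nc _ _ y1 r2))
  subst e3
  exact y3 (by simpa using r1.sub r2)

theorem ram (h : T1) (hℓ : (Module.finrank F K).Prime) (hR : RamP F w.asIdeal)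
    (hv : Und v w.asIdeal) : Ram (Module.finrank F K) v w := by
  obtain ⟨t1, t2, t3, -⟩ := h.i.tame F K w.asIdeal hℓ w.isMaximal hR
  rw [← hv] at t1 t3
  refine ⟨?_, fun σ x => ?_, fun y hy => ?_, t3⟩
  · obtain ⟨v', e, -, h1, h2⟩ := (h.ex F K).1 w
    obtain rfl : v = v' := HeightOneSpectrum.ext (hv.trans h1.symm)
    have h3 : ∀ x : F, od w (algebraMap F K x) = e * od v x := fun x => by
      rw [← od_pow, od, h2, ← map_pow, od]
    obtain ⟨π, p0, p1⟩ := exists_od_one v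
    obtain ⟨ϖ, q0, q1⟩ := exists_od_one w
    have m1 : π ∈ v.asIdeal := (vl_coe_lt v π).1 ((od_pos_iff v p0).1 (by omega))
    have m2 : ϖ ∈ w.asIdeal := (vl_coe_lt w ϖ).1 ((od_pos_iff w q0).1 (by omega))
    have l1 : G w (Module.finrank F K) (algebraMap F K π) :=
      (vl_coe_le_exp w (algebraMap _ _ π) _).2 (t1 ▸ Ideal.mem_map_of_mem _ m1)
    rw [G_iff ((map_ne_zero _).2 p0), h3, p1] at l1
    have l2 : v.asIdeal.map (algebraMap (𝓞 F) (𝓞 K)) ≤ w.asIdeal ^ e :=
      Ideal.map_le_iff_le_comap.2 fun a ha => (vl_coe_le_exp w _ e).1 (by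
        change vl w (algebraMap F K a) ≤ _
        rw [h2, show (-(e : ℤ)) = e • (-1 : ℤ) by simp, exp_nsmul]
        exact pow_le_pow_left' ((vl_lt_one_iff v).1 ((vl_coe_lt v a).2 ha)) e)
    have l3 : G w e ((ϖ : K) ^ Module.finrank F K) := by
      have := (vl_coe_le_exp w _ e).2 (l2 (t1 ▸ Ideal.pow_mem_pow m2 _))
      push_cast at this
      exact this
    rw [G_iff (pow_ne_zero _ q0), od_pow, q1] at l3
    obtain rfl : e = Module.finrank F K := by omega
    exact h2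
  · have a1 : ∀ (σ : K ≃ₐ[F] K) (a : 𝓞 K), vl w (σ a) ≤ vl w a := fun σ a => by
      rcases eq_or_ne (a : K) 0 with e | e
      · simp [e]
      obtain ⟨k, hk⟩ := Int.eq_ofNat_of_zero_le ((od_nonneg_iff w e).2 (vl_coe_le w a))
      have h1 := Ideal.mem_map_of_mem (RingOfIntegers.mapRingHom (σ : K →+* K))
        ((vl_coe_le_exp w a k).1 ((G_iff e).2 hk.ge))
      rw [Ideal.map_pow, show Ideal.map _ w.asIdeal = w.asIdeal from t2 σ] at h1
      rw [vl_eq w e, hk]
      exact (vl_coe_le_exp w _ k).2 h1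
    have a2 : ∀ a : 𝓞 K, vl w (σ a) = vl w a := fun a => le_antisymm (a1 σ a) (by
      simpa using a1 σ.symm (RingOfIntegers.mapRingHom (σ : K →+* K) a))
    obtain ⟨a, b, -, rfl⟩ := IsFractionRing.div_surjective (A := 𝓞 K) x
    rw [map_div₀, map_div₀, map_div₀]
    exact congrArg₂ _ (a2 a) (a2 b)
  · obtain ⟨c, hc⟩ := (h.wa K).1 {w} (fun _ => y) 1 (by simpa using hy)
    obtain ⟨f, -, -, e1, e2⟩ := (h.ex F K).2.2.1 v w hv
    obtain ⟨a, ha⟩ := e2 (Nat.pow_right_injective (NumberField.HeightOneSpectrum.one_lt_absNorm v)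
      (e1.symm.trans (t3.trans (pow_one _).symm))) c
    have h1 : G w 1 (c - y) := hc w (mem_singleton_self w)
    have h2 : G w 1 (c - algebraMap F K a) := G_one.2 ((vl_coe_lt w _).2 ha)
    exact ⟨a, G_one.1 (by simpa using h2.sub h1)⟩

/-- the units that are norms modulo a power of `v` -/
def NG (K : Type) [Field K] [NumberField K] [Algebra F K] (U : Subgroup Fˣ) (v : Pl F) (j : ℕ) :
    Subgroup U where
  carrier := {γ | ∃ δ : K, G v (j + 1) ((γ.1 : F) / Algebra.norm F δ - 1)}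
  one_mem' := ⟨1, by simp [G]⟩
  mul_mem' := fun {x y} ⟨δ, h⟩ ⟨δ', h'⟩ => ⟨δ * δ', by
    have := (h.unit (vl_of_near v (G_one.1 (h'.mono (by omega))))).add h'
    convert this using 1
    rw [map_mul]
    push_cast
    ring⟩
  inv_mem' := fun {x} ⟨δ, h⟩ => ⟨δ⁻¹, by
    have h1 := vl_of_near v (G_one.1 (h.mono (by omega)))
    have h0 : (x.1 : F) / Algebra.norm F δ ≠ 0 := fun e => by simp [e] at h1
    have h2 := h.unit (y := -((x.1 : F) / Algebra.norm F δ)⁻¹)
      (by rw [Valuation.map_neg, map_inv₀, h1, inv_one])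
    convert h2 using 1
    rw [Algebra.norm_inv, mul_neg, sub_mul, mul_inv_cancel₀ h0]
    push_cast
    rw [inv_div_inv, inv_div]
    ring⟩

theorem exists_dual {V : Type} [AddCommGroup V] (hℓ : ℓ.Prime) (hV : ∀ x : V, ℓ • x = 0) {a : V}
    (ha : a ≠ 0) : ∃ φ : V →+ ZMod ℓ, φ a ≠ 0 := by
  have := Fact.mk hℓ
  let _ : Module (ZMod ℓ) V := AddCommGroup.zmodModule hV
  have h : Module.Projective (ZMod ℓ) V :=
    @Module.Projective.of_free _ _ _ _ _ (Module.Free.of_divisionRing (ZMod ℓ) V)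
  obtain ⟨φ, hφ⟩ := @Module.Projective.exists_dual_ne_zero _ _ (ZMod ℓ) _ _ h _ ha
  exact ⟨φ.toAddMonoidHom, hφ⟩

theorem exists_char {A : Type} [CommGroup A] (hℓ : ℓ.Prime) (N : Subgroup A) (hN : ∀ x, x ^ ℓ ∈ N)
    {a : A} (ha : a ∉ N) :
    ∃ θ : A →* Multiplicative (ZMod ℓ), θ a ≠ 1 ∧ ∀ x ∈ N, θ x = 1 := by
  obtain ⟨φ, hφ⟩ := exists_dual (V := Additive (A ⧸ N)) hℓ (fun x => by
    obtain ⟨y, hy⟩ := QuotientGroup.mk_surjective x.toMul
    change x.toMul ^ ℓ = 1
    rw [← hy, ← QuotientGroup.mk_pow, QuotientGroup.eq_one_iff]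
    exact hN y) (a := Additive.ofMul (a : A ⧸ N)) fun e => ha ((QuotientGroup.eq_one_iff a).1 e)
  refine ⟨(AddMonoidHom.toMultiplicativeRight φ).comp (QuotientGroup.mk' N), hφ, fun x hx => ?_⟩
  rw [MonoidHom.comp_apply, show QuotientGroup.mk' N x = 1 from (QuotientGroup.eq_one_iff x).2 hx,
    map_one]

theorem exists_ker {A ι : Type} [CommGroup A] [Fintype ι] (hℓ : ℓ.Prime) (N : ι → Subgroup A)
    (hN : ∀ i x, x ^ ℓ ∈ N i) (γ : ι → A) (g1 : ∀ i, γ i ∉ N i) (g2 : ∀ i j, j ≠ i → γ i ∈ N j) :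
    ∃ V : Subgroup A, V.index = ℓ ^ Fintype.card ι ∧ ∀ x, (∀ i, x ∈ N i) → x ∈ V := by
  have := Fact.mk hℓ
  choose θ t1 t2 using fun i => exists_char hℓ (N i) (hN i) (g1 i)
  have hc : Nat.card (Multiplicative (ZMod ℓ)) = ℓ := by simp
  have hs : Function.Surjective (MonoidHom.pi θ) := fun s => by
    have : ∀ i, ∃ k : ℕ, θ i (γ i) ^ k = s i := fun i => mem_powers_iff_mem_zpowers.2
      (mem_zpowers_of_prime_card hc (t1 i))
    choose k hk using this
    refine ⟨∏ i, γ i ^ k i, funext fun j => ?_⟩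
    rw [MonoidHom.pi_apply, map_prod, prod_eq_single j
      (fun i _ e => by rw [map_pow, t2 j _ (g2 i j e.symm), one_pow]) (by simp), map_pow, hk]
  refine ⟨(MonoidHom.pi θ).ker, ?_, fun x hx => funext fun i => t2 i x (hx i)⟩
  rw [Subgroup.index_ker, MonoidHom.range_eq_top.2 hs, Subgroup.card_top, Nat.card_pi]
  simp

theorem exists_elt (hW : Z_WA) {n j m : ℕ} (hn : n ≠ 0) {U : Subgroup Fˣ}
    (hU : ∀ γ : Fˣ, γ ∈ U ↔ ∃ a b : 𝓞 F, IsCoprime a n ∧ IsCoprime b n ∧ (γ : F) * b = a)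
    (hd : Dv n v) {a : 𝓞 F} (ha : a ∉ v.asIdeal) (hm : m ≤ j)
    (hna : ∀ δ : K, ¬ G v (m + 1) ((a : F) / Algebra.norm F δ - 1)) :
    ∃ γ : U, γ ∉ NG K U v j ∧ ∀ u, Dv n u → u ≠ v → γ ∈ NG K U u j := by
  obtain ⟨y, hy⟩ := (hW F).1 (finite_dv F hn).toFinset
    (fun u => if u = v then (a : F) else 1) (j + 1) fun u _ => by
      split_ifs
      exacts [vl_coe_le u _, by simp]
  have h1 : G v (j + 1) ((y : F) - a) := by
    have := hy v ((Set.Finite.mem_toFinset _).2 hd)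
    rwa [if_pos rfl] at this
  have h2 : ∀ u, Dv n u → u ≠ v → G u (j + 1) ((y : F) - 1) := fun u hu e => by
    have := hy u ((Set.Finite.mem_toFinset _).2 hu)
    rwa [if_neg e] at this
  have h3 : ∀ u : Pl F, Dv n u → vl u y = 1 := fun u hu => by
    by_cases e : u = v
    · exact e ▸ h1.near (by omega) ((vl_coe_eq _ _).2 ha)
    · exact (h2 u hu e).near (by omega) (map_one _)
  have h0 : (y : F) ≠ 0 := fun e => by simpa [e] using h3 _ hd
  refine ⟨⟨Units.mk0 _ h0, (hU _).2 ((hW F).2.2.2.2.2.1 n y hn h3)⟩, fun ⟨δ, hδ⟩ => hna δ ?_,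
    fun u hu e => ⟨1, ?_⟩⟩
  · change G _ _ ((y : F) / _ - 1) at hδ
    have h4 := od_of_near _ (G_one.1 (hδ.mono (by omega)))
    have h5 : vl v (Algebra.norm F δ)⁻¹ = 1 := by
      rw [map_inv₀, (od_eq_zero_iff _ h4.2.1).1 (h4.2.2 ▸ od_eq_zero_of_vl _ (h3 _ hd)), inv_one]
    have h6 := (hδ.sub (h1.unit h5)).mono (k' := m + 1) (by omega)
    convert h6 using 1
    ring
  · rw [map_one, div_one]
    exact h2 u hu e

end U1wP

open U1wP in
theorem p_u1w (h : T1) : Z_U1w := by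
  intro F K _ _ _ _ _ _ n S U hℓ hn hS hU
  have hp := hℓ.prime
  have hw : ∀ P : S, ∃ (w : Pl K) (v : Pl F), w.asIdeal = P.1 ∧ Und v P.1 := fun P => by
    obtain ⟨v, -, -, hv, -⟩ := (h.ex F K).1 ⟨P.1, (hS _ P.2).1.isPrime,
      Ring.ne_bot_of_isMaximal_of_not_isField (hS _ P.2).1 (RingOfIntegers.not_isField K)⟩
    exact ⟨⟨P.1, (hS _ P.2).1.isPrime,
      Ring.ne_bot_of_isMaximal_of_not_isField (hS _ P.2).1 (RingOfIntegers.not_isField K)⟩,
      v, rfl, hv⟩
  choose w v hw hv using hw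
  choose m a ha hna using fun P : S =>
    (ram (w := w P) h hp (hw P ▸ (hS _ P.2).2.1) (hw P ▸ hv P)).exists_not h.wa hℓ rfl
  have hd : ∀ P, Dv n (v P) := fun P => by
    rw [Dv, hv P, Ideal.mem_comap, map_natCast]
    exact (hS _ P.2).2.2
  have hi : Function.Injective v := fun P Q e => by
    have t := fun P : S => (h.i.tame F K P.1 hp (hS _ P.2).1 (hS _ P.2).2.1).1
    have t1 := t P
    rw [← show (v P).asIdeal = Ideal.comap _ P.1 from hv P, e,
      show (v Q).asIdeal = Ideal.comap _ Q.1 from hv Q, t Q] at t1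
    exact Subtype.ext (pow_left_injective hp.ne_zero t1).symm
  choose γ g1 g2 using fun P : S =>
    exists_elt h.wa hn hU (hd P) (ha P) (le_sup (f := m) (mem_univ P)) (hna P)
  obtain ⟨V, hV, hm⟩ := exists_ker hp (fun P => NG K U (v P) (univ.sup m))
    (fun P x => ⟨algebraMap F K x.1, by
      rw [Algebra.norm_algebraMap]
      simp [G]⟩) γ g1 fun P Q e => g2 P _ (hd Q) fun e' => e (hi e')
  refine ⟨univ.sup m + 1, V.map U.subtype, by omega, Subgroup.map_subtype_le _, ?_,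
    fun x hx hN => ⟨⟨x, hx⟩, hm _ fun P => hN (v P) ⟨P.1, P.2, hv P⟩, rfl⟩⟩
  rw [Subgroup.relIndex, Subgroup.subgroupOf, Subgroup.comap_map_eq_self_of_injective
    U.subtype_injective, hV, Fintype.card_coe]

end Pool.Agent.P.MP_b8021b_nt.BS.CF
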