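import Pool.Agent.P.MP_b8021b_nt.BS.CF.IF
import Pool.Agent.P.MP_b8021b_nt.BS.CF.PPos
import Pool.Agent.P.MP_b8021b_nt.BS.CF.PHen
import Pool.Agent.P.MP_b8021b_nt.BS.CF.PWA
import Pool.Agent.P.MP_b8021b_nt.BS.CF.PEx
import Pool.Agent.P.MP_b8021b_nt.BS.CF.PRes
import Pool.Agent.P.MP_b8021b_nt.BS.CF.PExt
import Pool.Agent.P.MP_b8021b_nt.BS.CF.PKum
import Pool.Agent.P.MP_b8021b_nt.BS.CF.PKI
import Pool.Agent.P.MP_b8021b_nt.BS.CF.PKP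
import Pool.Agent.P.MP_b8021b_nt.BS.CF.PU1w
import Pool.Agent.P.MP_b8021b_nt.BS.CF.PFI
import Pool.Agent.P.MP_b8021b_nt.BS.CF.PAR1
import Pool.Agent.P.MP_b8021b_nt.BS.CF.PAR2
import Pool.Agent.P.MP_b8021b_nt.BS.CF.PWR
import Pool.Agent.P.MP_b8021b_nt.BS.CF.PC1
import Pool.Agent.P.MP_b8021b_nt.BS.CF.PC
import Pool.Agent.P.MP_b8021b_nt.BS.CF.PES
import Pool.Agent.P.MP_b8021b_nt.BS.CF.PES2
import Pool.Agent.P.MP_b8021b_nt.BS.CF.PX2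
import Pool.Agent.P.MP_b8021b_nt.BS.CF.PChi
import Pool.Agent.P.MP_b8021b_nt.BS.CF.PNV2
import Pool.Agent.P.MP_b8021b_nt.BS.CF.PNVc
import Pool.Agent.P.MP_b8021b_nt.BS.CF.PTau
import Pool.Agent.P.MP_b8021b_nt.BS.CF.PPC

/-! Assembly of the class field theory that is used. -/

namespace Pool.Agent.P.MP_b8021b_nt.BS.CF

theorem t_1 : T1 := ⟨p_iface, p_pos, p_hen, p_wa, p_ex, p_res p_wa, p_ext, p_kum, p_ki⟩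

theorem t_kp : Z_KP := p_kp t_1

theorem t_fi : Z_FI := p_fi t_1 (p_u1w t_1)

theorem t_ar : Z_AR := p_ar (p_ar1 t_1) (p_ar2 t_1 t_kp)

theorem t_2 : T2 := ⟨t_1, t_kp, t_fi, t_ar, p_wr t_1 t_kp t_fi t_ar, p_c1 t_1 t_kp, p_es t_1⟩

theorem t_pc : Z_PC :=
  p_pc t_1 (p_nv2 t_2 (p_es2 t_1) (p_x2 t_1) (p_chi t_2)) (p_nvc t_1) p_tau

theorem t_3 : T3 := ⟨t_2, p_c t_2, p_chi t_2, t_pc⟩

end Pool.Agent.P.MP_b8021b_nt.BS.CF
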