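import Pool.Agent.P.MP_b8021b_nt.BS.CF.Defs

/-! Elementary lemmas on the definitions. -/

namespace Pool.Agent.P.MP_b8021b_nt.BS.CF

open NumberField IsDedekindDomain Polynomial Finset WithZero
open Pool.Agent.P.MP_b8021b_nt Pool.Agent.P.MP_b8021b_nt.VE Pool.Agent.P.MP_b8021b_nt.VC
open scoped Classical

set_option linter.unusedSectionVars false

/-! ### roots of unity -/

theorem El.prime {ℓ : ℕ} (h : El ℓ) : ℓ.Prime := by
  rcases h with rfl | ⟨rfl, hF⟩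
  · exact Nat.prime_two
  · exact Nat.prime_three

theorem Om.map {F G : Type} [Field F] [Field G] (h : Om F) (f : F →+* G) : Om G := by
  obtain ⟨ω, h⟩ := h
  exact ⟨f ω, by simpa using congrArg f h⟩

/-- a primitive `ℓ`-th root of unity -/
theorem Om.prim {F : Type} [Field F] [CharZero F] (_h : Om F) {ℓ : ℕ} (hℓ : El ℓ) :
    ∃ ξ : F, IsPrimitiveRoot ξ ℓ := by
  rcases hℓ with rfl | ⟨rfl, hF⟩
  · exact ⟨-1, IsPrimitiveRoot.neg_one 0 (by norm_num)⟩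
  · exact hF.elim

/-! ### the norm form -/

section Nf

variable {F : Type} [Field F] {ℓ : ℕ} {b c c' : F}

theorem Nf_two (b r s t : F) : Nf 2 b r s t = r ^ 2 - b * s ^ 2 := if_pos rfl

theorem Nf_three (b r s t : F) :
    Nf 3 b r s t = r ^ 3 + b * s ^ 3 + b ^ 2 * t ^ 3 - 3 * b * r * s * t := if_neg (by norm_num)

theorem Nf_map {G : Type} [Field G] (f : F →+* G) (ℓ : ℕ) (b r s t : F) :
    f (Nf ℓ b r s t) = Nf ℓ (f b) (f r) (f s) (f t) := by
  unfold Nf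
  split_ifs <;> simp [map_ofNat]

theorem Nf_pow (hℓ : El ℓ) (b r : F) : Nf ℓ b r 0 0 = r ^ ℓ := by
  rcases hℓ with rfl | ⟨rfl, hF⟩
  · simp [Nf_two]
  · simp [Nf_three]

theorem Nf_smul (hℓ : El ℓ) (b r s t z : F) :
    Nf ℓ b (z * r) (z * s) (z * t) = z ^ ℓ * Nf ℓ b r s t := by
  rcases hℓ with rfl | ⟨rfl, hF⟩
  · rw [Nf_two, Nf_two]; ring
  · rw [Nf_three, Nf_three]; ring

theorem Nf_scale (hℓ : El ℓ) (b r s t z : F) :
    Nf ℓ (b * z ^ ℓ) r s t = Nf ℓ b r (z * s) (z ^ 2 * t) := by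
  rcases hℓ with rfl | ⟨rfl, hF⟩
  · rw [Nf_two, Nf_two]; ring
  · rw [Nf_three, Nf_three]; ring

theorem NV.pow (hℓ : El ℓ) (b r : F) : NV ℓ b (r ^ ℓ) := ⟨r, 0, 0, (Nf_pow hℓ b r).symm⟩

theorem NV.mul (hℓ : El ℓ) (h : NV ℓ b c) (h' : NV ℓ b c') : NV ℓ b (c * c') := by
  obtain ⟨r, s, t, rfl⟩ := h
  obtain ⟨r', s', t', rfl⟩ := h'
  rcases hℓ with rfl | ⟨rfl, hF⟩
  · exact ⟨r * r' + b * s * s', r * s' + s * r', 0, by simp only [Nf_two]; ring⟩
  · exact ⟨r * r' + b * (s * t' + t * s'), r * s' + s * r' + b * t * t', r * t' + s * s' + t * r',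
      by simp only [Nf_three]; ring⟩

theorem NV.npow (hℓ : El ℓ) (h : NV ℓ b c) (n : ℕ) : NV ℓ b (c ^ n) := by
  induction n with
  | zero => simpa using NV.pow hℓ b 1
  | succ n ih => rw [pow_succ]; exact ih.mul hℓ h

theorem NV.inv (hℓ : El ℓ) (h : NV ℓ b c) : NV ℓ b c⁻¹ := by
  have h1 := (h.npow hℓ (ℓ - 1)).mul hℓ (NV.pow hℓ b c⁻¹)
  rcases eq_or_ne c 0 with rfl | hc
  · simpa using h
  · have : c ^ (ℓ - 1) * c⁻¹ ^ ℓ = c⁻¹ := by
      rcases hℓ with rfl | ⟨rfl, hF⟩ <;> field_simp <;> norm_num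
    rwa [this] at h1

theorem NV.div (hℓ : El ℓ) (h : NV ℓ b c) (h' : NV ℓ b c') : NV ℓ b (c / c') := by
  rw [div_eq_mul_inv]
  exact h.mul hℓ (h'.inv hℓ)

theorem NV.of_scale (hℓ : El ℓ) {z : F} (h : NV ℓ (b * z ^ ℓ) c) : NV ℓ b c := by
  obtain ⟨r, s, t, rfl⟩ := h
  exact ⟨_, _, _, Nf_scale hℓ b r s t z⟩

theorem NV.scale (hℓ : El ℓ) {z : F} (hz : z ≠ 0) (h : NV ℓ b c) : NV ℓ (b * z ^ ℓ) c := by
  refine NV.of_scale hℓ (z := z⁻¹) ?_
  rwa [mul_assoc, ← mul_pow, mul_inv_cancel₀ hz, one_pow, mul_one]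

/-- a split form represents everything -/
theorem NV.split [CharZero F] (hℓ : El ℓ) {β : F} (hβ : β ≠ 0) (c : F) : NV ℓ (β ^ ℓ) c := by
  rw [← one_mul (β ^ ℓ)]
  refine NV.scale hℓ hβ ?_
  rcases hℓ with rfl | ⟨rfl, hF⟩
  · exact ⟨(c + 1) / 2, (c - 1) / 2, 0, by rw [Nf_two]; ring⟩
  · exact ⟨(c + 2) / 3, (c - 1) / 3, (c - 1) / 3, by rw [Nf_three]; ring⟩

/-- an isotropic form is split -/
theorem Nf_zero_two {r s t : F} (h : Nf 2 b r s t = 0) (hs : s ≠ 0) : ∃ β, b = β ^ 2 :=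
  ⟨r / s, by rw [Nf_two] at h; field_simp; linear_combination -h⟩

theorem Nf_zero_three {r s t : F} (h : Nf 3 b r s t = 0) (ht : t ≠ 0) : ∃ β, b = β ^ 3 := by
  rw [Nf_three] at h
  by_cases h1 : s ^ 2 - r * t = 0
  · refine ⟨s / t, ?_⟩
    have hr : r = s ^ 2 / t := by field_simp; linear_combination -h1
    have h2 : (b * t ^ 3 - s ^ 3) ^ 2 = 0 := by
      rw [hr] at h
      field_simp at h
      linear_combination h
    have h3 := pow_eq_zero_iff (two_ne_zero) |>.1 h2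
    field_simp
    linear_combination h3
  · refine ⟨(b * t ^ 2 - r * s) / (s ^ 2 - r * t), ?_⟩
    rw [div_pow, eq_div_iff (pow_ne_zero 3 h1)]
    linear_combination (s ^ 3 - b * t ^ 3) * h

end Nf

/-! ### valuations -/

section Val

variable {L : Type} [Field L] [NumberField L] (v : Pl L) {x y : L} {ℓ n : ℕ}

theorem vl_ne (hx : x ≠ 0) : vl v x ≠ 0 := by simpa using hx

theorem vl_pos (hx : x ≠ 0) : 0 < vl v x := zero_lt_iff.2 (vl_ne v hx)

theorem vl_eq (hx : x ≠ 0) : vl v x = exp (-od v x) := by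
  rw [od, neg_neg, exp_log (vl_ne v hx)]

theorem od_zero : od v 0 = 0 := by simp [od]

theorem od_one : od v 1 = 0 := by simp [od]

theorem od_mul (hx : x ≠ 0) (hy : y ≠ 0) : od v (x * y) = od v x + od v y := by
  simp only [od, map_mul, log_mul (vl_ne v hx) (vl_ne v hy), neg_add]

theorem od_inv (x : L) : od v x⁻¹ = -od v x := by simp only [od, map_inv₀, log_inv]

theorem od_div (hx : x ≠ 0) (hy : y ≠ 0) : od v (x / y) = od v x - od v y := by
  rw [div_eq_mul_inv, od_mul v hx (inv_ne_zero hy), od_inv, sub_eq_add_neg]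

theorem od_pow (x : L) (k : ℕ) : od v (x ^ k) = k * od v x := by
  simp only [od, map_pow, log_pow, nsmul_eq_mul, mul_neg]

theorem od_zpow (x : L) (k : ℤ) : od v (x ^ k) = k * od v x := by
  simp only [od, map_zpow₀, log_zpow, zsmul_eq_mul, mul_neg, Int.cast_id]

theorem od_neg (x : L) : od v (-x) = od v x := by simp only [od, Valuation.map_neg]

theorem od_prod {ι : Type*} (s : Finset ι) (f : ι → L) (hf : ∀ i ∈ s, f i ≠ 0) :
    od v (∏ i ∈ s, f i) = ∑ i ∈ s, od v (f i) := by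
  induction s using Finset.induction_on with
  | empty => simp [od]
  | insert i s hi ih =>
    rw [prod_insert hi, sum_insert hi, od_mul v (hf i (mem_insert_self _ _))
      (prod_ne_zero_iff.2 fun j hj => hf j (mem_insert_of_mem hj)),
      ih fun j hj => hf j (mem_insert_of_mem hj)]

theorem od_eq_of_vl (h : vl v x = vl v y) : od v x = od v y := by rw [od, h, od]

theorem od_eq_zero_of_vl (h : vl v x = 1) : od v x = 0 := by rw [od, h, log_one, neg_zero]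

theorem od_eq_zero_iff (hx : x ≠ 0) : od v x = 0 ↔ vl v x = 1 := by
  rw [vl_eq v hx, exp_eq_one, neg_eq_zero]

theorem od_nonneg_iff (hx : x ≠ 0) : 0 ≤ od v x ↔ vl v x ≤ 1 := by
  rw [vl_eq v hx, ← exp_zero, exp_le_exp, neg_nonpos]

theorem od_pos_iff (hx : x ≠ 0) : 0 < od v x ↔ vl v x < 1 := by
  rw [vl_eq v hx, ← exp_zero, exp_lt_exp, neg_lt_zero]

theorem od_neg_iff (x : L) : od v x < 0 ↔ 1 < vl v x := by
  rcases eq_or_ne x 0 with rfl | hx
  · simp [od]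
  · rw [← not_le, od_nonneg_iff v hx, not_le]

theorem vl_le_iff (hx : x ≠ 0) (hy : y ≠ 0) : vl v x ≤ vl v y ↔ od v y ≤ od v x := by
  rw [vl_eq v hx, vl_eq v hy, exp_le_exp, neg_le_neg_iff]

theorem vl_lt_iff (hx : x ≠ 0) (hy : y ≠ 0) : vl v x < vl v y ↔ od v y < od v x := by
  rw [vl_eq v hx, vl_eq v hy, exp_lt_exp, neg_lt_neg_iff]

theorem vl_lt_one_iff : vl v x < 1 ↔ vl v x ≤ exp (-1) := by
  rcases eq_or_ne x 0 with rfl | hx
  · simp
  · rw [vl_eq v hx, ← exp_zero, exp_lt_exp, exp_le_exp]; omega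

theorem vl_coe_le (a : 𝓞 L) : vl v a ≤ 1 := v.valuation_le_one a

theorem vl_coe_lt (a : 𝓞 L) : vl v a < 1 ↔ a ∈ v.asIdeal := v.valuation_lt_one_iff_mem a

theorem vl_coe_eq (a : 𝓞 L) : vl v a = 1 ↔ a ∉ v.asIdeal := by
  rw [← vl_coe_lt, not_lt]
  exact ⟨fun h => h.ge, fun h => le_antisymm (vl_coe_le v a) h⟩

theorem vl_coe_le_exp (a : 𝓞 L) (k : ℕ) : vl v a ≤ exp (-(k : ℤ)) ↔ a ∈ v.asIdeal ^ k := by
  rw [← v.intValuation_le_pow_iff_mem]
  exact Iff.of_eq (congrArg (· ≤ _) (v.valuation_of_algebraMap a))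

theorem vl_nat_le (n : ℕ) : vl v n ≤ 1 := by simpa using vl_coe_le v (n : 𝓞 L)

theorem vl_int_le (n : ℤ) : vl v n ≤ 1 := by simpa using vl_coe_le v (n : 𝓞 L)

theorem vl_nat_lt : vl v n < 1 ↔ Dv n v := by simpa using vl_coe_lt v (n : 𝓞 L)

theorem vl_nat_eq : vl v n = 1 ↔ ¬ Dv n v := by simpa using vl_coe_eq v (n : 𝓞 L)

theorem Dv.of_dvd {v : Pl L} {m : ℕ} (h : Dv m v) (hm : m ∣ n) : Dv n v := by
  obtain ⟨c, rfl⟩ := hm
  rw [Dv, Nat.cast_mul]
  exact v.asIdeal.mul_mem_right _ h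

theorem dv_mul {m : ℕ} : Dv (m * n) v ↔ Dv m v ∨ Dv n v := by
  rw [Dv, Nat.cast_mul]
  exact v.isPrime.mul_mem_iff_mem_or_mem

theorem dv_pow {j : ℕ} (hj : 1 ≤ j) : Dv (n ^ j) v ↔ Dv n v := by
  rw [Dv, Nat.cast_pow]
  exact v.isPrime.pow_mem_iff_mem j hj

theorem not_dv_of_coprime {m : ℕ} (h : m.Coprime n) (hm : Dv m v) : ¬ Dv n v := fun hn => by
  obtain ⟨a, b, e⟩ := (Nat.isCoprime_iff_coprime.2 h).map (Int.castRingHom (𝓞 L))
  refine v.isPrime.ne_top ((Ideal.eq_top_iff_one _).2 (e ▸ add_mem ?_ ?_))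
  · exact v.asIdeal.mul_mem_left _ (by simpa using hm)
  · exact v.asIdeal.mul_mem_left _ (by simpa using hn)

theorem cop_prime_iff : Cop n v.asIdeal ↔ ¬ Dv n v := by
  rw [Cop, Ideal.isCoprime_iff_sup_eq]
  constructor
  · intro h hn
    rw [sup_eq_left.2 ((Ideal.span_singleton_le_iff_mem _).2 hn)] at h
    exact v.isPrime.ne_top h
  · intro h
    exact v.isMaximal.out.2 _ (lt_of_le_of_ne le_sup_left fun e =>
      h (e.ge (Ideal.mem_sup_right (Ideal.mem_span_singleton_self _))))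

theorem finite_mem {a : 𝓞 L} (ha : a ≠ 0) : {v : Pl L | a ∈ v.asIdeal}.Finite := by
  refine (Ideal.finite_factors (I := Ideal.span {a}) (by simpa using ha)).subset fun v hv => ?_
  exact Ideal.dvd_span_singleton.2 hv

theorem finite_dv (L : Type) [Field L] [NumberField L] (hn : n ≠ 0) :
    {v : Pl L | Dv n v}.Finite := finite_mem (Nat.cast_ne_zero.2 hn)

theorem finite_od (x : L) : {v : Pl L | od v x ≠ 0}.Finite := by
  rcases eq_or_ne x 0 with rfl | hx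
  · simp [od_zero]
  obtain ⟨a, b, hb, rfl⟩ := IsFractionRing.div_surjective (A := 𝓞 L) x
  have hb' : b ≠ 0 := nonZeroDivisors.ne_zero hb
  have ha : a ≠ 0 := by
    rintro rfl
    simp at hx
  refine ((finite_mem ha).union (finite_mem hb')).subset fun v hv => ?_
  by_contra h
  rw [Set.mem_union, not_or] at h
  refine hv (od_eq_zero_of_vl v ?_)
  rw [map_div₀]
  exact div_eq_one_iff_eq (vl_ne v (by simpa using hb')) |>.2
    (((vl_coe_eq v a).2 h.1).trans ((vl_coe_eq v b).2 h.2).symm)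

theorem exists_dv (L : Type) [Field L] [NumberField L] (hn : 2 ≤ n) : ∃ v : Pl L, Dv n v := by
  obtain ⟨M, hM, h⟩ := Ideal.exists_le_maximal (Ideal.span {(n : 𝓞 L)})
    (fun e => not_unit_nat hn (Ideal.span_singleton_eq_top.1 e))
  have h1 : (n : 𝓞 L) ∈ M := h (Ideal.mem_span_singleton_self _)
  refine ⟨⟨M, hM.isPrime, fun e => ?_⟩, h1⟩
  rw [e, Ideal.mem_bot] at h1
  exact Nat.cast_ne_zero.2 (by omega : n ≠ 0) h1

theorem exists_od_one : ∃ π : 𝓞 L, (π : L) ≠ 0 ∧ od v π = 1 := by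
  obtain ⟨π, hπ⟩ := v.valuation_exists_uniformizer' L
  have h : vl v π = exp (-1) := hπ
  refine ⟨π, fun e => ?_, by rw [od, h, log_exp, neg_neg]⟩
  rw [e, map_zero] at h
  exact exp_ne_zero h.symm

theorem isIntegral_iff : IsIntegral ℤ x ↔ ∀ v : Pl L, vl v x ≤ 1 := by
  constructor
  · intro h v
    exact vl_coe_le v ⟨x, h⟩
  · intro h
    obtain ⟨a, rfl⟩ := HeightOneSpectrum.mem_integers_of_valuation_le_one L x h
    exact a.isIntegral_coe

theorem od_coe {a : 𝓞 L} (ha : a ≠ 0) : od v a = cnt v (Ideal.span {a}) := by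
  have : vl v a = _ := (v.valuation_of_algebraMap a).trans (v.intValuation_eq_exp_neg_multiplicity ha)
  rw [od, this, log_exp, neg_neg, cnt]

theorem cnt_mul {I J : Ideal (𝓞 L)} (hI : I ≠ ⊥) (hJ : J ≠ ⊥) :
    cnt v (I * J) = cnt v I + cnt v J :=
  multiplicity_mul v.prime (FiniteMultiplicity.of_prime_left v.prime (mul_ne_zero hI hJ))

theorem cnt_pow {I : Ideal (𝓞 L)} (hI : I ≠ ⊥) (k : ℕ) : cnt v (I ^ k) = k * cnt v I :=
  (FiniteMultiplicity.of_prime_left v.prime hI).multiplicity_pow v.prime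

theorem cnt_self : cnt v v.asIdeal = 1 := multiplicity_self

theorem cnt_eq_zero {I : Ideal (𝓞 L)} : cnt v I = 0 ↔ ¬ I ≤ v.asIdeal := by
  rw [cnt, multiplicity_eq_zero, Ideal.dvd_iff_le]

theorem cnt_ne {w : Pl L} (h : v ≠ w) : cnt v w.asIdeal = 0 :=
  (cnt_eq_zero v).2 fun e => h (HeightOneSpectrum.ext (w.isMaximal.eq_of_le v.isPrime.ne_top e).symm)

/-- products of elements close to one -/
theorem near_mul {γ : WithZero (Multiplicative ℤ)} (hγ : γ ≤ 1) (hx : vl v (x - 1) < γ)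
    (hy : vl v (y - 1) < γ) : vl v (x * y - 1) < γ := by
  have h1 : vl v y = 1 := by
    simpa using (vl v).map_one_add_of_lt (hy.trans_le hγ)
  rw [show x * y - 1 = (x - 1) * y + (y - 1) by ring]
  exact Valuation.map_add_lt _ (by rwa [map_mul, h1, mul_one]) hy

theorem vl_of_near (hx : vl v (x - 1) < 1) : vl v x = 1 := by
  simpa using (vl v).map_one_add_of_lt hx

theorem near_inv {γ : WithZero (Multiplicative ℤ)} (hγ : γ ≤ 1) (hx : vl v (x - 1) < γ) :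
    vl v (x⁻¹ - 1) < γ := by
  have h1 := vl_of_near v (hx.trans_le hγ)
  have h0 : x ≠ 0 := by
    rintro rfl
    simp at h1
  rw [show x⁻¹ - 1 = -((x - 1) * x⁻¹) by field_simp; ring, Valuation.map_neg, map_mul, map_inv₀,
    h1, inv_one, mul_one]
  exact hx

theorem od_of_near (hx : vl v (x / y - 1) < 1) : x ≠ 0 ∧ y ≠ 0 ∧ od v x = od v y := by
  have h1 := vl_of_near v hx
  have h0 : x / y ≠ 0 := fun e => by simp [e] at h1
  obtain ⟨h2, h3⟩ := div_ne_zero_iff.1 h0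
  have := od_eq_zero_of_vl v h1
  rw [od_div v h2 h3] at this
  exact ⟨h2, h3, by omega⟩

theorem One.near (h : One n x) (hv : Dv n v) : vl v (x - 1) ≤ vl v n := by
  obtain ⟨α, β, ⟨a, ha⟩, ⟨b, hb⟩, e⟩ := h
  have h1 : vl v β = 1 := (vl_coe_eq v β).2 fun hβ => v.isPrime.ne_top
    ((Ideal.eq_top_iff_one _).2 (by
      rw [show (1 : 𝓞 L) = β - n * b by rw [← hb]; ring]
      exact sub_mem hβ (v.asIdeal.mul_mem_right _ hv)))
  have h2 : (x - 1) * β = n * ((a - b : 𝓞 L) : L) := by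
    have ha' : (α : L) - 1 = n * a := by exact_mod_cast congrArg (fun z : 𝓞 L => (z : L)) ha
    have hb' : (β : L) - 1 = n * b := by exact_mod_cast congrArg (fun z : 𝓞 L => (z : L)) hb
    push_cast
    linear_combination e + ha' - hb'
  have h3 := congrArg (vl v) h2
  rw [map_mul, map_mul, h1, mul_one] at h3
  exact h3.le.trans (mul_le_of_le_one_right' (vl_coe_le v _))

/-! ### local powers and norms -/

variable {v}

theorem sq_le (v : Pl L) (ℓ : ℕ) : vl v ℓ ^ 2 ≤ 1 := pow_le_one' (vl_nat_le v ℓ) 2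

theorem LP.ne_zero (h : LP ℓ v x) : x ≠ 0 := by
  obtain ⟨r, h⟩ := h
  exact (od_of_near v (h.trans_le (sq_le v ℓ))).1

theorem LP.dvd (h : LP ℓ v x) : (ℓ : ℤ) ∣ od v x := by
  obtain ⟨r, h⟩ := h
  exact ⟨_, (od_of_near v (h.trans_le (sq_le v ℓ))).2.2.trans (od_pow v r ℓ)⟩

theorem LP.of_near (h : vl v (x - 1) < vl v ℓ ^ 2) : LP ℓ v x := ⟨1, by simpa using h⟩

theorem LP.of_near_one (hv : ¬ Dv ℓ v) (h : vl v (x - 1) < 1) : LP ℓ v x :=
  LP.of_near (by rwa [(vl_nat_eq v).2 hv, one_pow])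

theorem LP.pow_self (v : Pl L) (hℓ : ℓ ≠ 0) (hx : x ≠ 0) : LP ℓ v (x ^ ℓ) :=
  ⟨x, by
    rw [div_self (pow_ne_zero _ hx), sub_self, map_zero]
    exact pow_pos (vl_pos v (Nat.cast_ne_zero.2 hℓ)) 2⟩

theorem LP.mul (h : LP ℓ v x) (h' : LP ℓ v y) : LP ℓ v (x * y) := by
  obtain ⟨r, h⟩ := h
  obtain ⟨s, h'⟩ := h'
  exact ⟨r * s, by rw [mul_pow, mul_div_mul_comm]; exact near_mul v (sq_le v ℓ) h h'⟩

theorem LP.inv (h : LP ℓ v x) : LP ℓ v x⁻¹ := by
  obtain ⟨r, h⟩ := h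
  exact ⟨r⁻¹, by
    rw [show x⁻¹ / r⁻¹ ^ ℓ = (x / r ^ ℓ)⁻¹ by rw [inv_pow, inv_div_inv, inv_div]]
    exact near_inv v (sq_le v ℓ) h⟩

theorem LP.div (h : LP ℓ v x) (h' : LP ℓ v y) : LP ℓ v (x / y) := by
  rw [div_eq_mul_inv]
  exact h.mul h'.inv

theorem LP.one (v : Pl L) (hℓ : ℓ ≠ 0) : LP ℓ v 1 := by simpa using LP.pow_self v hℓ one_ne_zero

theorem LP.pow (hℓ : ℓ ≠ 0) (h : LP ℓ v x) (k : ℕ) : LP ℓ v (x ^ k) := by
  induction k with
  | zero => simpa using LP.one v hℓ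
  | succ k ih => rw [pow_succ]; exact ih.mul h

theorem LP.prod {ι : Type*} (hℓ : ℓ ≠ 0) (s : Finset ι) {f : ι → L} (h : ∀ i ∈ s, LP ℓ v (f i)) :
    LP ℓ v (∏ i ∈ s, f i) :=
  Finset.prod_induction _ _ (fun _ _ => LP.mul) (LP.one v hℓ) h

theorem LP.of_pow (hℓ : ℓ.Prime) {k : ℕ} (hk : ¬ ℓ ∣ k) (h : LP ℓ v (x ^ k)) : LP ℓ v x := by
  have hk0 : k ≠ 0 := by
    rintro rfl
    exact hk (dvd_zero _)
  have hx : x ≠ 0 := fun e => h.ne_zero (by rw [e, zero_pow hk0])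
  obtain ⟨m, hm⟩ := Nat.exists_mul_mod_eq_one_of_coprime
    ((Nat.Prime.coprime_iff_not_dvd hℓ).2 hk).symm hℓ.one_lt
  have h1 := (h.pow hℓ.ne_zero m).div (LP.pow_self v hℓ.ne_zero (pow_ne_zero (k * m / ℓ) hx))
  have e := Nat.div_add_mod (k * m) ℓ
  rw [hm.2] at e
  rwa [← pow_mul, ← pow_mul, mul_comm (k * m / ℓ), ← e, pow_succ, Nat.mul_add_div hℓ.pos,
    Nat.div_eq_of_lt hℓ.one_lt, add_zero, mul_div_cancel_left₀ _ (pow_ne_zero _ hx)] at h1

theorem LN.of_NV {b c : L} (hc : c ≠ 0) (h : NV ℓ b c) : LN ℓ v b c := fun k => by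
  obtain ⟨r, s, t, e⟩ := h
  exact ⟨r, s, t, by rw [← e, div_self hc, sub_self, map_zero]; exact zero_le⟩

end Val

end Pool.Agent.P.MP_b8021b_nt.BS.CF
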