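import Pool.Agent.P.MP_b8021b_nt.BS.CF.Basic
import Pool.Agent.P.MP_b8021b_nt.BS.CF.StA

/-! Elementary lemmas on local norms, elements congruent to one and ray class characters. -/

namespace Pool.Agent.P.MP_b8021b_nt.BS.CF

open NumberField IsDedekindDomain Polynomial Finset WithZero
open Pool.Agent.P.MP_b8021b_nt Pool.Agent.P.MP_b8021b_nt.VE Pool.Agent.P.MP_b8021b_nt.VC
open scoped Classical

set_option linter.unusedSectionVars false

variable {L : Type} [Field L] [NumberField L] {v : Pl L} {x y b c : L} {ℓ n : ℕ}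

/-! ### local norms -/

theorem LN.of_left (hH : Z_Hen) (hℓ : El ℓ) (hc : c ≠ 0) (h : LP ℓ v b) : LN ℓ v b c := by
  obtain ⟨-, h2, h3⟩ := hH L ℓ v hℓ
  obtain ⟨hb, r, hr⟩ := (h2 b).1 h
  have : CharZero (v.adicCompletion L) := algebraRat.charZero _
  refine h3 b c hc ?_
  rw [hr]
  refine NV.split hℓ (fun e => hb ?_) _
  rw [e, zero_pow hℓ.prime.ne_zero] at hr
  exact (map_eq_zero _).1 hr

theorem LN.of_right (hH : Z_Hen) (hℓ : El ℓ) (b : L) (h : LP ℓ v c) : LN ℓ v b c := by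
  obtain ⟨-, h2, h3⟩ := hH L ℓ v hℓ
  obtain ⟨hc, r, hr⟩ := (h2 c).1 h
  exact h3 b c hc (hr ▸ NV.pow hℓ _ r)

/-- a local norm has the valuation of a global value of the norm form -/
theorem LN.exists_od (h : LN ℓ v b c) : ∃ c', NV ℓ b c' ∧ c' ≠ 0 ∧ c ≠ 0 ∧ od v c = od v c' := by
  obtain ⟨r, s, t, h⟩ := h 1
  obtain ⟨h1, h2, h3⟩ := od_of_near v ((vl_lt_one_iff v).2 (by simpa using h))
  exact ⟨_, ⟨r, s, t, rfl⟩, h2, h1, h3⟩

/-! ### elements congruent to one -/

theorem One.one (n : ℕ) : One n (1 : L) := ⟨1, 1, by simp, by simp, by simp⟩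

theorem One.coe {α : 𝓞 L} (h : (n : 𝓞 L) ∣ α - 1) : One n (α : L) := ⟨α, 1, h, by simp, by simp⟩

theorem dvd_mul_sub_one {R : Type*} [CommRing R] {m a b : R} (ha : m ∣ a - 1) (hb : m ∣ b - 1) :
    m ∣ a * b - 1 := by
  rw [show a * b - 1 = (a - 1) * b + (b - 1) by ring]
  exact (ha.mul_right _).add hb

theorem One.mul (h : One n x) (h' : One n y) : One n (x * y) := by
  obtain ⟨α, β, ha, hb, e⟩ := h
  obtain ⟨α', β', ha', hb', e'⟩ := h'
  refine ⟨α * α', β * β', dvd_mul_sub_one ha ha', dvd_mul_sub_one hb hb', ?_⟩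
  calc x * y * ((β * β' : 𝓞 L) : L) = (x * β) * (y * β') := by push_cast; ring
    _ = _ := by rw [e, e']; simp

theorem One.pow (h : One n x) (k : ℕ) : One n (x ^ k) := by
  induction k with
  | zero => simpa using One.one n
  | succ k ih => rw [pow_succ]; exact ih.mul h

theorem One.of_dvd {m : ℕ} (h : One n x) (hm : m ∣ n) : One m x := by
  obtain ⟨α, β, ha, hb, e⟩ := h
  exact ⟨α, β, (Nat.cast_dvd_cast hm).trans ha, (Nat.cast_dvd_cast hm).trans hb, e⟩

theorem One.vl_eq (h : One n x) (hv : Dv n v) : vl v x = 1 :=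
  vl_of_near v ((One.near v h hv).trans_lt ((vl_nat_lt v).2 hv))

theorem One.od_eq (h : One n x) (hv : Dv n v) : od v x = 0 := od_eq_zero_of_vl v (h.vl_eq hv)

theorem One.ne_zero (h : One n x) (hn : 2 ≤ n) : x ≠ 0 := by
  obtain ⟨v, hv⟩ := exists_dv L hn
  rintro rfl
  simpa using h.vl_eq hv

theorem One.inv (h : One n x) (hx : x ≠ 0) : One n x⁻¹ := by
  obtain ⟨α, β, ha, hb, e⟩ := h
  exact ⟨β, α, hb, ha, by rw [← e, inv_mul_cancel_left₀ hx]⟩

theorem One.map (M : Type) [Field M] [NumberField M] [Algebra L M] (h : One n x) :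
    One n (algebraMap L M x) := by
  obtain ⟨α, β, ha, hb, e⟩ := h
  refine ⟨algebraMap _ _ α, algebraMap _ _ β, by simpa using map_dvd (algebraMap _ (𝓞 M)) ha,
    by simpa using map_dvd (algebraMap _ (𝓞 M)) hb, ?_⟩
  have := congrArg (algebraMap L M) e
  rw [map_mul] at this
  exact this

/-- congruence to one from the valuations -/
theorem dvd_of_vl {a : 𝓞 L} (hn : n ≠ 0) (h : ∀ v : Pl L, Dv n v → vl v a ≤ vl v n) :
    (n : 𝓞 L) ∣ a := by
  have h0 : (n : L) ≠ 0 := Nat.cast_ne_zero.2 hn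
  have h1 : IsIntegral ℤ ((a : L) / n) := isIntegral_iff.2 fun v => by
    rw [map_div₀]
    refine div_le_one_of_le₀ ?_ zero_le
    by_cases hv : Dv n v
    · exact h v hv
    · rw [(vl_nat_eq v).2 hv]
      exact vl_coe_le v a
  refine ⟨⟨_, h1⟩, RingOfIntegers.ext ?_⟩
  change (a : L) = n * (a / n)
  rw [mul_div_cancel₀ _ h0]

/-! ### ray class characters -/

variable {χ χ' : Ideal (𝓞 L) →* ℂ}

theorem RC.triv (L : Type) [Field L] [NumberField L] (n : ℕ) : RC n (triv L n) :=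
  ⟨isChar_triv, fun _ h => triv_cop (cop_span_of_dvd h)⟩

theorem RC.mul (h : RC n χ) (h' : RC n χ') : RC n (χ * χ') :=
  ⟨⟨fun I c => by rw [MonoidHom.mul_apply, norm_mul, h.norm_cop I c, h'.norm_cop I c, one_mul],
    fun I c => by rw [MonoidHom.mul_apply, h.zero I c, zero_mul]⟩,
    fun α e => by rw [MonoidHom.mul_apply, h.prin α e, h'.prin α e, one_mul]⟩

theorem RC.pow (h : RC n χ) {k : ℕ} (hk : 1 ≤ k) : RC n (χ ^ k) := by
  induction k, hk using Nat.le_induction with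
  | base => simpa using h
  | succ k _ ih => rw [pow_succ]; exact ih.mul h

theorem RC.cj (h : RC n χ) : RC n (cj χ) :=
  ⟨⟨fun I c => (Complex.norm_conj _).trans (h.norm_cop I c),
    fun I c => (congrArg (starRingEnd ℂ) (h.zero I c)).trans (map_zero _)⟩,
    fun α e => (congrArg (starRingEnd ℂ) (h.prin α e)).trans (map_one _)⟩

theorem RC.mono {m : ℕ} (h : RC n χ) (hm : n ∣ m) : RC m (χ * VC.triv L m) :=
  ⟨⟨fun I c => by rw [MonoidHom.mul_apply, triv_cop c, mul_one, h.norm_cop I (Cop_of_dvd c hm)],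
    fun I c => by rw [MonoidHom.mul_apply, triv_not c, mul_zero]⟩,
    fun α e => by
      rw [MonoidHom.mul_apply, triv_cop (cop_span_of_dvd e), mul_one,
        h.prin α ((Nat.cast_dvd_cast hm).trans e)]⟩

theorem RC.ne_zero (h : RC n χ) {I : Ideal (𝓞 L)} (c : Cop n I) : χ I ≠ 0 := fun e => by
  simpa [e] using h.norm_cop I c

theorem RC.ray (h : RC n χ) {I J : Ideal (𝓞 L)} (r : Ray n I J) : χ I = χ J := by
  obtain ⟨α, β, -, -, ha, hb, e⟩ := r
  have := congrArg χ e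
  rwa [map_mul, map_mul, h.prin α ha, h.prin β hb, mul_one, mul_one] at this

/-- induction over the ideals prime to `n` -/
theorem cop_induction {P : Ideal (𝓞 L) → Prop} (hn : 2 ≤ n) (h1 : P ⊤)
    (h2 : ∀ (v : Pl L) I, ¬ Dv n v → Cop n I → P I → P (v.asIdeal * I)) (I : Ideal (𝓞 L))
    (hI : Cop n I) : P I := by
  induction I using UniqueFactorizationMonoid.induction_on_prime with
  | h₁ =>
    obtain ⟨v, hv⟩ := exists_dv L hn
    have h := Ideal.isCoprime_iff_sup_eq.1 hI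
    rw [Ideal.zero_eq_bot, bot_sup_eq] at h
    exact absurd (Ideal.span_singleton_eq_top.1 h) (not_unit_nat hn)
  | h₂ I hu => rwa [Ideal.isUnit_iff.1 hu]
  | h₃ I p hI0 hp ih =>
    have h := cop_mul.1 hI
    exact h2 ⟨p, Ideal.isPrime_of_prime hp, hp.ne_zero⟩ I ((cop_prime_iff _).1 h.1) h.2 (ih h.2)

/-- a character that is one at all primes is trivial -/
theorem isTriv_of_prime (hn : 2 ≤ n) (h : ∀ v : Pl L, ¬ Dv n v → χ v.asIdeal = 1) : IsTriv n χ :=
  cop_induction hn (by rw [← Ideal.one_eq_top, map_one]) fun v I hv _ ih => by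
    rw [map_mul, h v hv, ih, one_mul]

/-- an ideal of prime norm is a place -/
theorem exists_pl {I : Ideal (𝓞 L)} (h : (Ideal.absNorm I).Prime) : ∃ v : Pl L, v.asIdeal = I :=
  ⟨⟨I, Ideal.isPrime_of_irreducible_absNorm h, fun e => by
    rw [e, Ideal.absNorm_bot] at h
    exact Nat.not_prime_zero h⟩, rfl⟩

theorem dv_absNorm (v : Pl L) : Dv (Ideal.absNorm v.asIdeal) v := Ideal.absNorm_mem _

theorem dv_iff_of_prime (h : (Ideal.absNorm v.asIdeal).Prime) :
    Dv n v ↔ Ideal.absNorm v.asIdeal ∣ n :=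
  ⟨fun hv => by
    by_contra e
    exact not_dv_of_coprime v ((Nat.Prime.coprime_iff_not_dvd h).2 e) (dv_absNorm v) hv,
    fun e => (dv_absNorm v).of_dvd e⟩

end Pool.Agent.P.MP_b8021b_nt.BS.CF
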