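import Pool.Agent.P.MP_b8021b_nt.BS.CF.StA
import Pool.Agent.P.MP_b8021b_nt.BS.CF.Loc

/-! Bundles of interface statements. -/

namespace Pool.Agent.P.MP_b8021b_nt.BS.CF

/-- the library facts and the local lemmas -/
structure T1 : Prop where
  i : IFace
  pos : Z_Pos
  hen : Z_Hen
  wa : Z_WA
  ex : Z_Ex
  res : Z_Res
  ext : Z_Ext
  kum : Z_Kum
  ki : Z_KI

/-- with the reciprocity law -/
structure T2 : Prop extends T1 where
  kp : Z_KP
  fi : Z_FI
  ar : Z_AR
  wr : Z_WR
  c1 : Z_C1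
  es : Z_ES

/-- with the primes in ray classes -/
structure T3 : Prop extends T2 where
  c : Z_C
  chi : Z_Chi
  pc : Z_PC

end Pool.Agent.P.MP_b8021b_nt.BS.CF
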