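import Pool.Agent.P.MP_b8021b_nt.VC.PDescS
import Pool.Agent.P.MP_b8021b_nt.VC.BasicN
import Pool.Agent.P.MP_b8021b_nt.VC.DS1

/-!
Definitions for quadratic reciprocity over the number fields that contain a square root of minus
one (a port of the files of MP_e4219a_lc).
-/

namespace Pool.Agent.P.MP_b8021b_nt.BS.CF

open NumberField IsDedekindDomain Polynomial Finset
open Pool.Agent.P.MP_b8021b_nt Pool.Agent.P.MP_b8021b_nt.VE Pool.Agent.P.MP_b8021b_nt.VC
open scoped Classical

noncomputable section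

/-! ### local notions -/

/-- the finite places -/
abbrev Pl (L : Type) [Field L] := HeightOneSpectrum (𝓞 L)

/-- the field contains a primitive fourth root of unity -/
def Om (F : Type) [Field F] : Prop := ∃ i : F, i ^ 2 = -1

/-- the prime that is used -/
def El (ℓ : ℕ) : Prop := ℓ = 2 ∨ (ℓ = 3 ∧ False)

/-- the norm form of the Kummer algebra of `b` -/
def Nf {F : Type} [CommRing F] (ℓ : ℕ) (b r s t : F) : F :=
  if ℓ = 2 then r ^ 2 - b * s ^ 2 else r ^ 3 + b * s ^ 3 + b ^ 2 * t ^ 3 - 3 * b * r * s * t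

/-- `c` is a value of the norm form -/
def NV {F : Type} [CommRing F] (ℓ : ℕ) (b c : F) : Prop := ∃ r s t : F, c = Nf ℓ b r s t

section Loc

variable {L : Type} [Field L] [NumberField L]

/-- the multiplicative valuation -/
abbrev vl (v : Pl L) : Valuation L (WithZero (Multiplicative ℤ)) := v.valuation L

/-- the additive valuation (zero at zero) -/
def od (v : Pl L) (x : L) : ℤ := -WithZero.log (vl v x)

/-- the place lies over a divisor of `n` -/
abbrev Dv (n : ℕ) (v : Pl L) : Prop := (n : 𝓞 L) ∈ v.asIdeal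

/-- `x` is an `ℓ`-th power in the completion -/
def LP (ℓ : ℕ) (v : Pl L) (x : L) : Prop := ∃ r : L, vl v (x / r ^ ℓ - 1) < vl v ℓ ^ 2

/-- `c` is a norm from the Kummer algebra of `b` over the completion -/
def LN (ℓ : ℕ) (v : Pl L) (b c : L) : Prop :=
  ∀ k : ℕ, ∃ r s t : L, vl v (c / Nf ℓ b r s t - 1) ≤ WithZero.exp (-(k : ℤ))

/-- `x` is congruent to one modulo `n` -/
def One (n : ℕ) (x : L) : Prop :=
  ∃ α β : 𝓞 L, (n : 𝓞 L) ∣ α - 1 ∧ (n : 𝓞 L) ∣ β - 1 ∧ x * β = α

/-- the places over the divisors of `n` generate the class group -/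
def Gen (L : Type) [Field L] [NumberField L] (n : ℕ) : Prop :=
  ∀ v₀ : Pl L, ¬ Dv n v₀ → ∃ x : L, x ≠ 0 ∧ od v₀ x = 1 ∧ ∀ v, v ≠ v₀ → ¬ Dv n v → od v x = 0

/-- the number of places over the divisors of `n` -/
def nPl (L : Type) [Field L] [NumberField L] (n : ℕ) : ℕ := Set.ncard {v : Pl L | Dv n v}

/-- the exponent of a place in an ideal -/
def cnt (v : Pl L) (I : Ideal (𝓞 L)) : ℕ := multiplicity v.asIdeal I

/-- a ray class character of finite order -/
structure RC (n : ℕ) (χ : Ideal (𝓞 L) →* ℂ) : Prop extends IsChar n χ where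
  prin : ∀ α : 𝓞 L, (n : 𝓞 L) ∣ α - 1 → χ (Ideal.span {α}) = 1

/-- the place `v` lies under the ideal `𝔓` -/
def Und {M : Type} [Field M] [Algebra L M] (v : Pl L) (𝔓 : Ideal (𝓞 M)) : Prop :=
  v.asIdeal = 𝔓.comap (algebraMap (𝓞 L) (𝓞 M))

/-- `M` is obtained from `L` by adjoining an `ℓ`-th root `β` of `b` -/
structure Kum (ℓ : ℕ) (b : L) {M : Type} [Field M] [Algebra L M] (β : M) : Prop where
  fin : Module.finrank L M = ℓ
  pow : β ^ ℓ = algebraMap L M b
  np : ¬ ∃ z : L, b = z ^ ℓ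

end Loc

end

end Pool.Agent.P.MP_b8021b_nt.BS.CF
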