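import Pool.Agent.P.MP_b8021b_nt.BS.CF.IF0
import Pool.Agent.P.MP_b8021b_nt.VC.PRep2
import Pool.Agent.P.MP_b8021b_nt.VC.PPart
import Pool.Agent.P.MP_b8021b_nt.VC.PVol
import Pool.Agent.P.MP_b8021b_nt.VC.PInt
import Pool.Agent.P.MP_b8021b_nt.VC.PEmb
import Pool.Agent.P.MP_b8021b_nt.VC.PWin2
import Pool.Agent.P.MP_b8021b_nt.VC.PPS0
import Pool.Agent.P.MP_b8021b_nt.VC.PPSs
import Pool.Agent.P.MP_b8021b_nt.VC.PUnit
import Pool.Agent.P.MP_b8021b_nt.VC.PEP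
import Pool.Agent.P.MP_b8021b_nt.VC.PDen
import Pool.Agent.P.MP_b8021b_nt.VC.PSec
import Pool.Agent.P.MP_b8021b_nt.VC.PKD
import Pool.Agent.P.MP_b8021b_nt.VC.PBCN
import Pool.Agent.P.MP_b8021b_nt.VC.PTriv
import Pool.Agent.P.MP_b8021b_nt.VC.PTame
import Pool.Agent.P.MP_b8021b_nt.VC.DNG
import Pool.Agent.P.MP_b8021b_nt.VC.DHA
import Pool.Agent.P.MP_b8021b_nt.VC.DH1
import Pool.Agent.P.MP_b8021b_nt.VC.DH1A
import Pool.Agent.P.MP_b8021b_nt.VC.DU1b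
import Pool.Agent.P.MP_b8021b_nt.VC.DHNP
import Pool.Agent.P.MP_b8021b_nt.VE.PRay
import Pool.Agent.P.MP_b8021b_nt.VE.PLamP
import Pool.Agent.P.MP_b8021b_nt.VE.PLat

/-! The facts taken from the library. -/

namespace Pool.Agent.P.MP_b8021b_nt.BS.CF

open NumberField Finset
open Pool.Agent.P.MP_b8021b_nt Pool.Agent.P.MP_b8021b_nt.VE Pool.Agent.P.MP_b8021b_nt.VC
open Cy FractionalIdeal
open scoped Classical Pointwise nonZeroDivisors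

open HNP in
/-- the Hasse norm step of the library, without the restriction to odd degree -/
theorem hnp2 (hHA : S_HA) (hH1 : S_H1) (hNG : S_NG) (hU1 : S_U1) (hSec : S_Sec)
    (k : Type) [Field k] [NumberField k] [Algebra k ℂ] (B : BF k) (F K : Type) [Field F]
    [NumberField F] [Algebra k F] [Field K] [NumberField K] [Algebra F K] [IsGalois F K]
    (n : ℕ) (α β : 𝓞 F) (A B' : Ideal (𝓞 K)) (he : (Module.finrank F K).Prime) (hn : 2 ≤ n)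
    (hR : ∀ 𝔓 : Ideal (𝓞 K), 𝔓.IsMaximal → RamP F 𝔓 →
      (n : 𝓞 K) ∈ 𝔓 ∧ ((Module.finrank F K : ℕ) : 𝓞 K) ∉ 𝔓)
    (hα : (n : 𝓞 F) ∣ α - 1) (hβ : (n : 𝓞 F) ∣ β - 1) (hA : A ≠ ⊥) (hB : B' ≠ ⊥)
    (h : Ideal.relNorm (𝓞 F) A * Ideal.span {α} = Ideal.relNorm (𝓞 F) B' * Ideal.span {β}) :
    ∃ δ : K, Algebra.norm F δ * α = β := by
  have hc := IsGalois.card_aut_eq_finrank F K
  have : Fact (Module.finrank F K).Prime := ⟨he⟩
  obtain ⟨σ, hσ⟩ := (isCyclic_of_prime_card hc).exists_generator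
  have ho : orderOf σ = Module.finrank F K := (orderOf_eq_card_of_forall_mem_zpowers hσ).trans hc
  have hp : σ ^ Module.finrank F K = 1 := ho ▸ pow_orderOf_eq_one σ
  have hσ1 : σ ≠ 1 := fun e => he.one_lt.ne' (by rw [← ho, e, orderOf_one])
  have h0 : Ideal.span {(n : 𝓞 K)} ≠ ⊥ := by
    rw [Ne, Ideal.span_singleton_eq_bot]; exact Nat.cast_ne_zero.2 (by omega)
  let S := (UniqueFactorizationMonoid.normalizedFactors (Ideal.span {(n : 𝓞 K)})).toFinset.filter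
    fun 𝔓 => 𝔓.IsMaximal ∧ RamP F 𝔓
  have hS : ∀ 𝔓, 𝔓.IsMaximal → RamP F 𝔓 → 𝔓 ∈ S := fun 𝔓 h1 h2 =>
    mem_filter.2 ⟨Multiset.mem_toFinset.2 ((Ideal.mem_normalizedFactors_iff h0).2
      ⟨h1.isPrime, (Ideal.span_singleton_le_iff_mem _).2 (hR 𝔓 h1 h2).1⟩), h1, h2⟩
  obtain ⟨U₁, hle, hidx, hnm, hone⟩ := hU1 F K n S (U F n) he (by omega) (fun 𝔓 h𝔓 =>
    have := (mem_filter.1 h𝔓).2
    ⟨this.1, this.2, hR 𝔓 this.1 this.2⟩) fun _ => Iff.rfl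
  obtain ⟨e0, e1, e2⟩ := hH1 k B F K σ he hσ1
  have hne : ∀ {a : 𝓞 F}, (n : 𝓞 F) ∣ a - 1 → (a : F) ≠ 0 := fun h e =>
    Cop_ne_bot hn (cop_span_of_dvd h)
      (Ideal.span_singleton_eq_bot.2 (RingOfIntegers.coe_eq_zero_iff.1 e))
  have hN : ∀ (I : Ideal (𝓞 K)) (x : (FI K)ˣ), I ≠ ⊥ → x = HNP.ex K (Ideal.relNorm (𝓞 F) I) →
      nm (σD σ) (Module.finrank F K) (mkU I) = x := fun I x hI hx =>
    Units.ext ((coe_nmD hNG hσ (coe_mkU hI)).trans hx.symm)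
  obtain ⟨δ, hδ⟩ := hHA (𝓞 K)ˣ Kˣ (FI K)ˣ _ (uσ σ) (σA σ) (σD σ) (ιE K) (dv K) (U₁.map (ιF F K))
    (J F K n) he.pos (uσ_iter hp) (σA_iter hp) (σD_iter hp) ιE_inj ιE_range (fun _ => rfl) (dv_σ σ)
    (h90 hσ) dv_index e0 e1 e2 (J_le hn σ) (by rw [UJ hσ]; exact Subgroup.map_mono hle)
    (by
      rw [UJ hσ, Subgroup.relIndex_map_map_of_injective _ _ ιF_inj]
      exact (amb hNG hσ he hn S hS).trans hidx)
    (by
      rw [UJ hσ]
      rintro _ ⟨⟨γ, hγ, rfl⟩, δ, hδ⟩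
      refine ⟨γ, hnm γ hγ ⟨δ, (algebraMap F K).injective ?_⟩, rfl⟩
      rw [← coe_nmA hσ, hδ, coe_ιF])
    (sec hSec B hn _ (fun a x ha hx => Subgroup.mem_sup_left
        ⟨_, ⟨Units.mk0 _ (hne ha), hone _ a 1 ha (by simp) (by simp), rfl⟩,
          Units.ext (by rw [hx, ex_span, coe_toPrincipalIdeal]; rfl)⟩)
      fun I x hI hx => Subgroup.mem_sup_right ⟨_, hN I x hI hx⟩)
    (ιF F K (Units.mk0 _ (div_ne_zero (hne hβ) (hne hα))))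
    ⟨_, hone _ β α hβ hα (by rw [Units.val_mk0, div_mul_cancel₀ _ (hne hα)]), rfl⟩
    ⟨mkU A / mkU B', by
      have h1 := congrArg (HNP.ex K) h
      rw [ex_mul, ex_mul, ex_span, ex_span] at h1
      have ha : spanSingleton (𝓞 K)⁰ (algebraMap F K α) ≠ 0 :=
        spanSingleton_ne_zero_iff.2 ((_root_.map_ne_zero _).2 (hne hα))
      rw [map_div, div_eq_iff_eq_mul']
      refine Units.ext (mul_right_cancel₀ ha ?_)
      rw [Units.val_mul, coe_nmD hNG hσ (coe_mkU hA), coe_nmD hNG hσ (coe_mkU hB), mul_assoc,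
        coe_toPrincipalIdeal, spanSingleton_mul_spanSingleton, coe_ιF, ← map_mul, Units.val_mk0,
        div_mul_cancel₀ _ (hne hα)]
      exact h1⟩
  refine ⟨δ, (algebraMap F K).injective ?_⟩
  rw [map_mul, ← coe_nmA hσ, hδ, coe_ιF, ← map_mul, Units.val_mk0, div_mul_cancel₀ _ (hne hα)]

theorem p_iface : IFace := by
  obtain ⟨k, _, _, _, K, -, hk⟩ := exists_bf
  have hRep := p_rep2 p_ray p_lamP
  have hVol := p_vol p_emb p_int
  have hPS := p_pSs p_emb p_unit hRep (p_part p_emb) hVol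
    (p_pS0 p_emb hRep (p_part p_emb) (p_win2 hVol p_lat)) p_lamP
  have hDen := p_den p_emb hPS p_eP
  have hSec := p_sec hDen p_kD p_bCN p_lamP
  refine ⟨p_lamP, p_eP, p_kD, p_tame, d_nG p_tame, fun L _ _ hL n hn => ?_, fun L _ _ hL n hn => ?_,
    fun L _ _ hL n χ hn h h' => ?_, fun L _ _ hL n hn => ?_, fun L _ _ hL n χ hn h h' => ?_,
    fun L _ _ hL n χ hn h h' => ?_, fun L _ _ hL n m χ hn hm h h' => ?_,
    fun L E' _ _ _ _ _ hL n 𝒴 hn h => ?_, fun L _ _ hL n χ hn h => ?_,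
    fun L E' _ _ _ _ _ _ hL n α β A B => ?_⟩
  all_goals
    obtain ⟨f⟩ := hk L hL
    let _ : Algebra k L := f.toAlgebra
  · obtain ⟨_, h1⟩ := p_emb k K (Module.finrank k L)
    obtain ⟨-, -, -, -, -, -, -, -, ⟨Q, Q2, hQ⟩, -⟩ := h1 L rfl
    obtain ⟨_, h2⟩ := hRep k K (Module.finrank k L)
    obtain ⟨hf, -, -, _, -, -, -, -, h3⟩ := h2 L rfl Q n 1 Q2 hQ hn le_rfl
    refine ⟨hf.toFinset, fun χ => by rw [Set.Finite.mem_toFinset]; exact rc_iff k,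
      fun 𝔟 𝔟' a b => ?_⟩
    rw [← finsum_mem_eq_finite_toFinset_sum _ hf, h3 𝔟 𝔟' a b, ← Set.ncard_eq_toFinset_card _ hf]
    rfl
  · exact (hDen k K L n hn).1
  · exact (hDen k K L n hn).2 0 0 χ ((rc_iff k).2 h) h'
  · exact ⟨DS.up_triv hDen p_lamP K hn, DS.up_neg_triv hDen p_lamP K hn⟩
  · exact DS.up_char hDen p_lamP K hn ((rc_iff k).2 h) h'
  · obtain ⟨_, h1⟩ := p_emb k K (Module.finrank k L)
    obtain ⟨-, -, hD, -, -, -, -, -, ⟨Q, Q2, hQ⟩, -⟩ := h1 L rfl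
    obtain ⟨C, h2⟩ := hPS k K (Module.finrank k L)
    have hD' : (0 : ℝ) < Module.finrank k L := by exact_mod_cast hD
    exact ⟨_, _, by positivity, fun X => (h2 L rfl Q n Q2 hQ hn).2.2.2 X 1 0 0 χ le_rfl (by simp)
      (by simp) ((rc_iff k).2 h) h'⟩
  · exact p_triv hDen p_lamP k K L n m 0 0 χ hn hm ((rc_iff k).2 h) h'
  · exact hSec k K L E' n 𝒴 hn fun ξ hξ => ⟨(rc_iff k).2 (h ξ hξ).1, (h ξ hξ).2⟩
  · refine ⟨h.cj, fun χ' h' => h.mul h', fun n' _ e => h.mono e, fun E' _ _ _ => ?_⟩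
    let _ : Algebra k E' := ((algebraMap L E').comp (algebraMap k L)).toAlgebra
    have _ : IsScalarTower k L E' := .of_algebraMap_eq fun _ => rfl
    exact (rc_iff k).1 ((p_bCN.2 k K L n 0 0 χ hn ((rc_iff k).2 h)).2.2.2.2.2.2 E')
  · exact hnp2 d_hA (d_h1 d_h1A) (d_nG p_tame) (d_u1b p_tame) hSec k K L E' n α β A B

end Pool.Agent.P.MP_b8021b_nt.BS.CF
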