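import Pool.Agent.P.MP_b8021b_nt.BS.CF.Bund
import Pool.Agent.P.MP_b8021b_nt.VC.PBF
import Pool.Agent.P.MP_b8021b_nt.VE.PIq

/-! The base field of the library embeds in every field that contains a fourth root of unity. -/

namespace Pool.Agent.P.MP_b8021b_nt.BS.CF

open NumberField Polynomial
open Pool.Agent.P.MP_b8021b_nt Pool.Agent.P.MP_b8021b_nt.VE Pool.Agent.P.MP_b8021b_nt.VC

theorem exists_bf : ∃ (k : Type) (_ : Field k) (_ : NumberField k) (_ : Algebra k ℂ) (B : BF k),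
    B.D = -1 ∧ ∀ (L : Type) [Field L] [NumberField L], Om L → Nonempty (k →+* L) := by
  obtain ⟨k, _, _, K₀, hK⟩ := p_iq (-1) (by norm_num)
  let _ : Algebra k ℂ := K₀.σ.toAlgebra
  let K : BF k := ⟨K₀, fun _ => rfl⟩
  refine ⟨k, inferInstance, inferInstance, inferInstance, K, hK, fun L _ _ ⟨ω, hω⟩ => ?_⟩
  have h1 : ((K.ω : 𝓞 k) : k) ^ 2 = -1 := by
    have := congrArg (fun z : 𝓞 k => (z : k)) K₀.sq
    rw [hK] at this
    simpa using this
  have hi : IsIntegral ℚ ((K.ω : 𝓞 k) : k) := Algebra.IsIntegral.isIntegral _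
  have h2 : (minpoly ℚ ((K.ω : 𝓞 k) : k)).natDegree = 2 := by
    have h3 := minpoly.natDegree_le (A := ℚ) ((K.ω : 𝓞 k) : k)
    have h4 : 2 ≤ (minpoly ℚ ((K.ω : 𝓞 k) : k)).natDegree :=
      (minpoly.two_le_natDegree_iff hi).2 fun ⟨q, hq⟩ => by
        rw [← hq, ← map_pow] at h1
        have h5 : q ^ 2 = -1 := (algebraMap ℚ k).injective (by simpa using h1)
        nlinarith [sq_nonneg q]
    rw [K.deg] at h3
    omega
  have h3 : minpoly ℚ ((K.ω : 𝓞 k) : k) = X ^ 2 + C 1 := by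
    have hm : (X ^ 2 + C 1 : ℚ[X]).Monic := monic_X_pow_add_C _ two_ne_zero
    refine (eq_of_monic_of_dvd_of_natDegree_le (minpoly.monic hi) hm
      (minpoly.dvd ℚ _ (by simp [h1])) ?_).symm
    rw [h2, natDegree_X_pow_add_C]
  have h4 : Algebra.adjoin ℚ {((K.ω : 𝓞 k) : k)} = ⊤ := by
    rw [← IntermediateField.adjoin_simple_toSubalgebra_of_isAlgebraic hi.isAlgebraic,
      (Field.primitive_element_iff_minpoly_natDegree_eq ℚ _).2 (h2.trans K.deg.symm),
      IntermediateField.top_toSubalgebra]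
  let pb := PowerBasis.ofAdjoinEqTop hi h4
  refine ⟨(pb.lift ω ?_ : k →ₐ[ℚ] L)⟩
  rw [PowerBasis.ofAdjoinEqTop_gen, h3]
  simp only [map_add, map_pow, aeval_X, aeval_C, map_one]
  linear_combination hω

theorem rc_iff (k : Type) [Field k] [NumberField k] [Algebra k ℂ] {L : Type} [Field L]
    [NumberField L] [Algebra k L] {n : ℕ} {χ : Ideal (𝓞 L) →* ℂ} : IsH k n 0 0 χ ↔ RC n χ :=
  ⟨fun h => ⟨h.toIsChar, fun α e => (h.prin α e).trans (ty_zero _)⟩,
    fun h => ⟨h.toIsChar, by simp, fun α e => (h.prin α e).trans (ty_zero _).symm⟩⟩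

end Pool.Agent.P.MP_b8021b_nt.BS.CF
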